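import Mathlib
import Pool.Agent.H95.ProdMeas

open MeasureTheory ProbabilityTheory Filter Topology
open scoped ENNReal

namespace Pool.Agent.H95

variable {E : Type*} [MeasurableSpace E] (ν : Measure E) [IsProbabilityMeasure ν]

/-- head and tail of an i.i.d. sequence -/
lemma lintegral_cons {F : E → (ℕ → E) → ℝ≥0∞} (hF : Measurable (Function.uncurry F)) :
    ∫⁻ x, F (x 0) (shift 1 x) ∂(iid ν) = ∫⁻ e, ∫⁻ x, F e x ∂(iid ν) ∂ν := by
  have hmp := measurePreserving_splice ν 1
  have hm1 : Measurable (fun x : ℕ → E => F (x 0) (shift 1 x)) :=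
    hF.comp ((measurable_pi_apply 0).prodMk (measurable_shift 1))
  have h1 : ∫⁻ x, F (x 0) (shift 1 x) ∂(iid ν)
      = ∫⁻ q, F (q.1 0) q.2 ∂((iid ν).prod (iid ν)) := by
    conv_lhs => rw [← hmp.map_eq]
    rw [lintegral_map hm1 hmp.measurable]
    apply lintegral_congr
    intro q
    rw [shift_splice]
    simp [splice]
  rw [h1, lintegral_prod]
  · have hmp0 : MeasurePreserving (fun x : ℕ → E => x 0) (iid ν) ν :=
      measurePreserving_eval_infinitePi (fun _ : ℕ => ν) 0
    have hm2 : Measurable (fun e => ∫⁻ x, F e x ∂(iid ν)) := hF.lintegral_prod_right'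
    have h2 : ∫⁻ e, (fun e => ∫⁻ x, F e x ∂(iid ν)) e ∂(Measure.map (fun x : ℕ → E => x 0) (iid ν)) =
        ∫⁻ x, (fun e => ∫⁻ x, F e x ∂(iid ν)) (x 0) ∂(iid ν) := lintegral_map hm2 hmp0.measurable
    rw [hmp0.map_eq] at h2
    exact h2.symm
  · apply Measurable.aemeasurable
    have h3 : Measurable (fun q : (ℕ → E) × (ℕ → E) => (q.1 0, q.2)) :=
      ((measurable_pi_apply 0).comp measurable_fst).prodMk measurable_snd
    exact hF.comp h3

section resample

variable {ι : Type*} [DecidableEq ι]

lemma measurable_update_pair (i : ι) :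
    Measurable (fun p : (ι → E) × E => Function.update p.1 i p.2) := by
  refine measurable_pi_lambda _ (fun j => ?_)
  by_cases h : j = i
  · subst h
    simp only [Function.update_self]
    exact measurable_snd
  · simp only [Function.update_of_ne h]
    exact (measurable_pi_apply j).comp measurable_fst

/-- resampling one coordinate -/
lemma measurePreserving_update (i : ι) :
    MeasurePreserving (fun p : (ι → E) × E => Function.update p.1 i p.2)
      ((Measure.infinitePi (fun _ : ι => ν)).prod ν) (Measure.infinitePi (fun _ : ι => ν)) := by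
  refine ⟨measurable_update_pair i, ?_⟩
  apply Measure.eq_infinitePi
  intro s u hu
  rw [Measure.map_apply (measurable_update_pair i)
    (MeasurableSet.pi s.countable_toSet (fun i _ => hu i))]
  by_cases his : i ∈ s
  · have h1 : (fun p : (ι → E) × E => Function.update p.1 i p.2) ⁻¹' (Set.pi s u) =
        (Set.pi ((s.erase i : Finset ι) : Set ι) u) ×ˢ (u i) := by
      ext p
      simp only [Set.mem_preimage, Set.mem_pi, Set.mem_prod, Finset.mem_coe, Finset.mem_erase]
      constructor
      · intro h
        refine ⟨fun j hj => ?_, ?_⟩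
        · have := h j hj.2
          rwa [Function.update_of_ne hj.1] at this
        · have := h i his
          rwa [Function.update_self] at this
      · intro h j hj
        by_cases hji : j = i
        · subst hji
          rw [Function.update_self]; exact h.2
        · rw [Function.update_of_ne hji]
          exact h.1 j ⟨hji, hj⟩
    rw [h1, Measure.prod_prod, Measure.infinitePi_pi _ (fun i _ => hu i)]
    exact Finset.prod_erase_mul s (fun j => ν (u j)) his
  · have h1 : (fun p : (ι → E) × E => Function.update p.1 i p.2) ⁻¹' (Set.pi s u) =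
        (Set.pi (s : Set ι) u) ×ˢ Set.univ := by
      ext p
      simp only [Set.mem_preimage, Set.mem_pi, Set.mem_prod, Finset.mem_coe, Set.mem_univ, and_true]
      constructor
      · intro h j hj
        have := h j hj
        have hji : j ≠ i := by rintro rfl; exact his hj
        rwa [Function.update_of_ne hji] at this
      · intro h j hj
        have hji : j ≠ i := by rintro rfl; exact his hj
        rw [Function.update_of_ne hji]
        exact h j hj
    rw [h1, Measure.prod_prod, Measure.infinitePi_pi _ (fun i _ => hu i), measure_univ, mul_one]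

lemma lintegral_resample (i : ι) {Ψ : (ι → E) → ℝ≥0∞} (hΨ : Measurable Ψ) :
    ∫⁻ ω, Ψ ω ∂(Measure.infinitePi (fun _ : ι => ν)) =
      ∫⁻ ω, ∫⁻ d, Ψ (Function.update ω i d) ∂ν ∂(Measure.infinitePi (fun _ : ι => ν)) := by
  have hmp := measurePreserving_update ν i
  conv_lhs => rw [← hmp.map_eq]
  rw [lintegral_map hΨ hmp.measurable, lintegral_prod]
  exact (hΨ.comp (measurable_update_pair i)).aemeasurable

end resample

end Pool.Agent.H95
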