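import Mathlib
import Pool.Agent.H95.RBP.Prod

open MeasureTheory ProbabilityTheory Filter Topology
open scoped ENNReal

namespace Pool.Agent.H95.RBP

lemma isProb_exp : IsProbabilityMeasure (expMeasure 1) := isProbabilityMeasure_expMeasure one_pos

lemma lintegral_exp_eq {G : ℝ → ℝ≥0∞} (hG : Measurable G) :
    ∫⁻ c, G c ∂(expMeasure 1) = ∫⁻ c in Set.Ioi (0:ℝ), ENNReal.ofReal (Real.exp (-c)) * G c := by
  have h0 : expMeasure 1 = volume.withDensity (exponentialPDF 1) := rfl
  have hm : Measurable (exponentialPDF 1) := (measurable_exponentialPDFReal 1).ennreal_ofReal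
  rw [h0, lintegral_withDensity_eq_lintegral_mul _ hm hG]
  have h1 : ∀ c : ℝ, (exponentialPDF 1 * G) c =
      (Set.Ici (0:ℝ)).indicator (fun c => ENNReal.ofReal (Real.exp (-c)) * G c) c := by
    intro c
    by_cases hc : 0 ≤ c
    · rw [Set.indicator_of_mem (by exact hc), Pi.mul_apply, exponentialPDF_of_nonneg hc]
      simp
    · rw [Set.indicator_of_notMem (by exact hc), Pi.mul_apply,
        exponentialPDF_of_neg (lt_of_not_ge hc), zero_mul]
  simp_rw [h1]
  rw [lintegral_indicator measurableSet_Ici, setLIntegral_congr Ioi_ae_eq_Ici.symm]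

lemma lintegral_exp_scale {lam : ℝ} (hl : 0 < lam) {G : ℝ → ℝ≥0∞} (hG : Measurable G) :
    ∫⁻ c, G (c / lam) ∂(expMeasure 1) =
      ∫⁻ v in Set.Ioi (0:ℝ), ENNReal.ofReal (lam * Real.exp (-(lam * v))) * G v := by
  have hG' : Measurable (fun c : ℝ => G (c / lam)) := hG.comp (measurable_id.div_const lam)
  rw [lintegral_exp_eq hG']
  have h2 : (fun v : ℝ => lam * v) '' Set.Ioi 0 = Set.Ioi 0 := by
    ext y
    simp only [Set.mem_image, Set.mem_Ioi]
    constructor
    · rintro ⟨v, hv, rfl⟩; positivity
    · intro hy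
      exact ⟨y / lam, by positivity, by field_simp⟩
  have h3 := lintegral_image_eq_lintegral_abs_deriv_mul (s := Set.Ioi (0:ℝ))
    (f := fun v : ℝ => lam * v) (f' := fun _ => lam) measurableSet_Ioi
    (fun v _ => by simpa using ((hasDerivAt_id v).const_mul lam).hasDerivWithinAt)
    (fun a _ b _ hab => by simpa [hl.ne'] using hab)
    (fun c => ENNReal.ofReal (Real.exp (-c)) * G (c / lam))
  rw [h2] at h3
  rw [h3]
  apply lintegral_congr
  intro v
  have e1 : lam * v / lam = v := by field_simp
  rw [e1, ← mul_assoc, ← ENNReal.ofReal_mul (abs_nonneg lam), abs_of_pos hl]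

/-- the integral `∫_0^u` of the product of the exponentials -/
lemma inner_exp {lam θ u : ℝ} (hl : 0 < lam) (hθ : 0 ≤ θ) (hu : 0 < u) :
    ∫⁻ v in Set.Ioo 0 u, ENNReal.ofReal (lam * Real.exp (-(lam * v))) *
      ENNReal.ofReal ((lam + θ) * Real.exp (θ * (u - v))) =
      ENNReal.ofReal (lam * Real.exp (θ * u) - lam * Real.exp (-(lam * u))) := by
  have hk : 0 < lam + θ := by positivity
  have e1 : ∀ v : ℝ, ENNReal.ofReal (lam * Real.exp (-(lam * v))) *
      ENNReal.ofReal ((lam + θ) * Real.exp (θ * (u - v))) =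
      ENNReal.ofReal (lam * (lam + θ) * Real.exp (θ * u) * Real.exp (-((lam + θ) * v))) := by
    intro v
    rw [← ENNReal.ofReal_mul (by positivity)]
    congr 1
    have : Real.exp (-(lam * v)) * Real.exp (θ * (u - v)) =
        Real.exp (θ * u) * Real.exp (-((lam + θ) * v)) := by
      rw [← Real.exp_add, ← Real.exp_add]; congr 1; ring
    calc lam * Real.exp (-(lam * v)) * ((lam + θ) * Real.exp (θ * (u - v)))
        = lam * (lam + θ) * (Real.exp (-(lam * v)) * Real.exp (θ * (u - v))) := by ring
      _ = _ := by rw [this]; ring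
  simp_rw [e1]
  have hcont : Continuous (fun v : ℝ =>
      lam * (lam + θ) * Real.exp (θ * u) * Real.exp (-((lam + θ) * v))) := by fun_prop
  rw [← ofReal_integral_eq_lintegral_ofReal]
  · congr 1
    rw [← integral_Ioc_eq_integral_Ioo, ← intervalIntegral.integral_of_le hu.le]
    have hderiv : ∀ v ∈ Set.uIcc 0 u, HasDerivAt
        (fun v : ℝ => (-(lam * Real.exp (θ * u))) * Real.exp (-((lam + θ) * v)))
        (lam * (lam + θ) * Real.exp (θ * u) * Real.exp (-((lam + θ) * v))) v := by
      intro v _
      have h0 : HasDerivAt (fun v : ℝ => (-(lam + θ)) * v) (-(lam + θ)) v := by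
        simpa using ((hasDerivAt_id v).const_mul (-(lam + θ)))
      have h1 : HasDerivAt (fun v : ℝ => -((lam + θ) * v)) (-(lam + θ)) v := by
        simpa only [neg_mul] using h0
      have h2 := (h1.exp.const_mul (-(lam * Real.exp (θ * u))))
      refine h2.congr_deriv ?_
      ring
    rw [intervalIntegral.integral_eq_sub_of_hasDerivAt hderiv (hcont.intervalIntegrable _ _)]
    have : Real.exp (θ * u) * Real.exp (-((lam + θ) * u)) = Real.exp (-(lam * u)) := by
      rw [← Real.exp_add]; congr 1; ring
    simp only [mul_zero, neg_zero, Real.exp_zero, mul_one]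
    rw [neg_mul, mul_assoc, this]; ring
  · exact (hcont.integrableOn_Icc (a := 0) (b := u)).mono_set Set.Ioo_subset_Icc_self
  · exact Filter.Eventually.of_forall (fun v => by positivity)

/-- the renewal identity behind the intensity bound -/
lemma renewal_identity {lam θ : ℝ} (hl : 0 < lam) (hθ : 0 ≤ θ) {h : ℝ → ℝ≥0∞}
    (hh : Measurable h) :
    ∫⁻ c, h (c / lam) ∂(expMeasure 1) +
      ∫⁻ c, (∫⁻ r in Set.Ioi (0:ℝ), h (c / lam + r) *
        ENNReal.ofReal ((lam + θ) * Real.exp (θ * r))) ∂(expMeasure 1) =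
      ∫⁻ u in Set.Ioi (0:ℝ), h u * ENNReal.ofReal (lam * Real.exp (θ * u)) := by
  set g : ℝ → ℝ≥0∞ := fun r => ENNReal.ofReal ((lam + θ) * Real.exp (θ * r)) with hg
  have hgm : Measurable g := by fun_prop
  set k : ℝ → ℝ≥0∞ := fun v => ENNReal.ofReal (lam * Real.exp (-(lam * v))) with hk
  have hkm : Measurable k := by fun_prop
  have hGm : Measurable (fun v : ℝ => ∫⁻ r in Set.Ioi (0:ℝ), h (v + r) * g r) := by
    apply Measurable.lintegral_prod_right'
      (f := fun p : ℝ × ℝ => h (p.1 + p.2) * g p.2)
    fun_prop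
  rw [lintegral_exp_scale hl hh, lintegral_exp_scale hl hGm]
  -- translation
  have e1 : ∀ v : ℝ, ∫⁻ r in Set.Ioi (0:ℝ), h (v + r) * g r =
      ∫⁻ u, (Set.Ioi v).indicator (fun u => h u * g (u - v)) u := by
    intro v
    rw [← lintegral_indicator measurableSet_Ioi]
    rw [← lintegral_sub_right_eq_self (fun r => (Set.Ioi (0:ℝ)).indicator
      (fun r => h (v + r) * g r) r) v]
    apply lintegral_congr
    intro u
    by_cases hu : v < u
    · rw [Set.indicator_of_mem (by simpa using hu), Set.indicator_of_mem (by simpa using hu)]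
      congr 2; ring
    · rw [Set.indicator_of_notMem (by simpa using hu), Set.indicator_of_notMem (by simpa using hu)]
  simp_rw [e1]
  have e2 : ∫⁻ v in Set.Ioi (0:ℝ), ENNReal.ofReal (lam * Real.exp (-(lam * v))) *
      ∫⁻ u, (Set.Ioi v).indicator (fun u => h u * g (u - v)) u =
      ∫⁻ v in Set.Ioi (0:ℝ), ∫⁻ u, k v * (Set.Ioi v).indicator (fun u => h u * g (u - v)) u := by
    apply lintegral_congr
    intro v
    rw [lintegral_const_mul]
    exact Measurable.indicator (by fun_prop) measurableSet_Ioi
  rw [e2, lintegral_lintegral_swap]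
  · rw [← lintegral_indicator measurableSet_Ioi, ← lintegral_indicator measurableSet_Ioi,
      ← lintegral_add_left (Measurable.indicator (by fun_prop) measurableSet_Ioi)]
    apply lintegral_congr
    intro u
    by_cases hu : 0 < u
    · have hu' : u ∈ Set.Ioi (0:ℝ) := hu
      rw [Set.indicator_of_mem hu', Set.indicator_of_mem hu']
      have e3 : ∫⁻ v in Set.Ioi (0:ℝ), k v * (Set.Ioi v).indicator (fun u => h u * g (u - v)) u =
          h u * ∫⁻ v in Set.Ioo 0 u, k v * g (u - v) := by
        rw [← lintegral_const_mul _ (by fun_prop), ← lintegral_indicator measurableSet_Ioi,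
          ← lintegral_indicator measurableSet_Ioo]
        apply lintegral_congr
        intro v
        by_cases hv : 0 < v
        · have hv' : v ∈ Set.Ioi (0:ℝ) := hv
          rw [Set.indicator_of_mem hv']
          by_cases hvu : v < u
          · rw [Set.indicator_of_mem (show u ∈ Set.Ioi v from hvu),
              Set.indicator_of_mem (show v ∈ Set.Ioo 0 u from ⟨hv, hvu⟩)]
            ring
          · rw [Set.indicator_of_notMem (show u ∉ Set.Ioi v from hvu),
              Set.indicator_of_notMem (show v ∉ Set.Ioo 0 u from fun hc => hvu hc.2), mul_zero]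
        · rw [Set.indicator_of_notMem (show v ∉ Set.Ioi (0:ℝ) from hv),
            Set.indicator_of_notMem (show v ∉ Set.Ioo 0 u from fun hc => hv hc.1)]
      rw [e3, inner_exp hl hθ hu, mul_comm, ← mul_add, ← ENNReal.ofReal_add (by positivity)]
      · congr 2; ring
      · have : Real.exp (-(lam * u)) ≤ Real.exp (θ * u) := by
          apply Real.exp_le_exp.mpr
          nlinarith [mul_pos hl hu, mul_nonneg hθ hu.le]
        nlinarith
    · have hu' : u ∉ Set.Ioi (0:ℝ) := hu
      rw [Set.indicator_of_notMem hu', Set.indicator_of_notMem hu', zero_add]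
      rw [← lintegral_indicator measurableSet_Ioi]
      have : ∀ v : ℝ, (Set.Ioi (0:ℝ)).indicator (fun v => k v *
          (Set.Ioi v).indicator (fun u => h u * g (u - v)) u) v = 0 := by
        intro v
        by_cases hv : 0 < v
        · rw [Set.indicator_of_mem (show v ∈ Set.Ioi (0:ℝ) from hv),
            Set.indicator_of_notMem (show u ∉ Set.Ioi v from fun hc => hu (lt_trans hv hc)), mul_zero]
        · rw [Set.indicator_of_notMem (show v ∉ Set.Ioi (0:ℝ) from hv)]
      simp_rw [this, lintegral_zero]
  · have : Measurable (fun p : ℝ × ℝ => k p.1 * (Set.Ioi p.1).indicator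
        (fun u => h u * g (u - p.1)) p.2) := by
      have h4 : ∀ p : ℝ × ℝ, k p.1 * (Set.Ioi p.1).indicator (fun u => h u * g (u - p.1)) p.2 =
          {p : ℝ × ℝ | p.1 < p.2}.indicator (fun p => k p.1 * (h p.2 * g (p.2 - p.1))) p := by
        intro p
        by_cases hp : p.1 < p.2
        · rw [Set.indicator_of_mem (show p.2 ∈ Set.Ioi p.1 from hp),
            Set.indicator_of_mem (show p ∈ {p : ℝ × ℝ | p.1 < p.2} from hp)]
        · rw [Set.indicator_of_notMem (show p.2 ∉ Set.Ioi p.1 from hp),
            Set.indicator_of_notMem (show p ∉ {p : ℝ × ℝ | p.1 < p.2} from hp), mul_zero]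
      simp_rw [h4]
      exact Measurable.indicator (by fun_prop) (measurableSet_lt measurable_fst measurable_snd)
    exact this.aemeasurable

end Pool.Agent.H95.RBP
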