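import Mathlib

open MeasureTheory Filter Topology
open scoped ENNReal

namespace Pool.Agent.H95.RBP

/-- integral of the weight -/
lemma weight_integral {a η r : ℝ} (ha : 1 < a) (hη : 0 < η) (hr : 0 ≤ r) :
    ∫⁻ s in Set.Ioc 0 r, ENNReal.ofReal ((1 + η * (r - s)) ^ (-a)) ≤
      ENNReal.ofReal (1 / (η * (a - 1))) := by
  have hpos : ∀ s ∈ Set.uIcc 0 r, 0 < 1 + η * (r - s) := by
    intro s hs
    rw [Set.uIcc_of_le hr] at hs
    have : 0 ≤ η * (r - s) := mul_nonneg hη.le (by linarith [hs.2])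
    linarith
  have hcont : ContinuousOn (fun s : ℝ => (1 + η * (r - s)) ^ (-a)) (Set.uIcc 0 r) := by
    apply ContinuousOn.rpow_const
    · fun_prop
    · intro s hs
      exact Or.inl (hpos s hs).ne'
  rw [← ofReal_integral_eq_lintegral_ofReal]
  · apply ENNReal.ofReal_le_ofReal
    rw [← intervalIntegral.integral_of_le hr]
    have hderiv : ∀ s ∈ Set.uIcc 0 r, HasDerivAt
        (fun s : ℝ => (1 / (η * (a - 1))) * (1 + η * (r - s)) ^ (1 - a))
        ((1 + η * (r - s)) ^ (-a)) s := by
      intro s hs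
      have h0 : HasDerivAt (fun s : ℝ => 1 + η * (r - s)) (-η) s := by
        have h1 : HasDerivAt (fun s : ℝ => r - s) (-1) s := by
          simpa using (hasDerivAt_id s).const_sub r
        have h2 := (h1.const_mul η).const_add 1
        simpa using h2
      have h3 := (h0.rpow_const (p := 1 - a) (Or.inl (hpos s hs).ne')).const_mul
        (1 / (η * (a - 1)))
      refine h3.congr_deriv ?_
      have e1 : (1:ℝ) - a - 1 = -a := by ring
      have h4 : η * (a - 1) ≠ 0 := mul_ne_zero hη.ne' (by linarith)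
      rw [e1]
      have h5 : a - 1 ≠ 0 := by linarith
      field_simp
      ring
    rw [intervalIntegral.integral_eq_sub_of_hasDerivAt hderiv hcont.intervalIntegrable]
    simp only [sub_self, mul_zero, add_zero, Real.one_rpow, mul_one, sub_zero]
    have h6 : 0 ≤ (1 + η * r) ^ (1 - a) := Real.rpow_nonneg (by positivity) _
    have h7 : 0 ≤ 1 / (η * (a - 1)) := by
      apply one_div_nonneg.mpr
      apply mul_nonneg hη.le; linarith
    nlinarith [mul_nonneg h7 h6]
  · rw [← Set.uIoc_of_le hr] 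
    exact hcont.intervalIntegrable.1.mono_set (by rw [Set.uIoc_of_le hr])
  · rw [Filter.EventuallyLE, ae_restrict_iff' measurableSet_Ioc]
    apply Filter.Eventually.of_forall
    intro s hs
    have h8 : 0 < 1 + η * (r - s) := hpos s (by rw [Set.uIcc_of_le hr]; exact ⟨hs.1.le, hs.2⟩)
    simp only [Pi.zero_apply]
    positivity

/-- the convolution bound behind the first moment estimate -/
lemma conv_bound {f : ℝ → ℝ≥0∞} (hf : Measurable f) {q C a : ℝ} (hq0 : 0 ≤ q) (hq1 : q < 1)
    (hC : 0 ≤ C) (ha : 1 < a) (hint : ∫⁻ s in Set.Ioi (0:ℝ), f s ≤ ENNReal.ofReal q)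
    (hbd : ∀ s : ℝ, 0 < s → f s ≤ ENNReal.ofReal (C * s ^ (-a))) :
    ∃ η q2 : ℝ, 0 < η ∧ η ≤ 1 ∧ q2 < 1 ∧ ∀ r : ℝ, 0 ≤ r →
      ∫⁻ s in Set.Ioc 0 r, f s * ENNReal.ofReal ((1 + η * (r - s)) ^ (-a)) ≤
        ENNReal.ofReal (q2 * (1 + η * r) ^ (-a)) := by
  -- choice of δ
  obtain ⟨δ, hδ0, hδ1, hδ⟩ : ∃ δ : ℝ, 0 < δ ∧ δ < 1 ∧ q * (1 - δ) ^ (-a) ≤ (1 + q) / 2 := by
    have hcont : ContinuousAt (fun δ : ℝ => q * (1 - δ) ^ (-a)) 0 := by
      apply ContinuousAt.mul continuousAt_const
      apply ContinuousAt.rpow_const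
      · fun_prop
      · left; norm_num
    have h1 : q * (1 - 0) ^ (-a) < (1 + q) / 2 := by
      rw [sub_zero, Real.one_rpow]; linarith
    have h2 := hcont.eventually_lt_const h1
    have h3 : ∀ᶠ δ in 𝓝[>] (0:ℝ), q * (1 - δ) ^ (-a) < (1 + q) / 2 :=
      h2.filter_mono nhdsWithin_le_nhds
    have h4 : ∀ᶠ δ in 𝓝[>] (0:ℝ), δ ∈ Set.Ioo (0:ℝ) 1 := Ioo_mem_nhdsGT one_pos
    obtain ⟨δ, hd1, hd2⟩ := (h3.and h4).exists
    exact ⟨δ, hd2.1, hd2.2, hd1.le⟩
  set κ : ℝ := (1 - q) / 4 with hκ
  have hκ0 : 0 < κ := by rw [hκ]; linarith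
  -- choice of η
  set D : ℝ := C * δ ^ (-a) * (1 + 1 / δ) ^ a / (a - 1) with hD
  have hD0 : 0 ≤ D := by
    rw [hD]
    apply div_nonneg _ (by linarith)
    apply mul_nonneg (mul_nonneg hC (Real.rpow_nonneg hδ0.le _))
    apply Real.rpow_nonneg; positivity
  obtain ⟨η, hη0, hη1, hη⟩ : ∃ η : ℝ, 0 < η ∧ η ≤ 1 ∧ D * η ^ (a - 1) ≤ κ := by
    have hlim : Tendsto (fun η : ℝ => D * η ^ (a - 1)) (𝓝[>] 0) (𝓝 (D * 0)) := by
      apply Tendsto.const_mul
      have h1 : ContinuousAt (fun η : ℝ => η ^ (a - 1)) 0 :=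
        Real.continuousAt_rpow_const 0 (a - 1) (Or.inr (by linarith))
      have h2 : Tendsto (fun η : ℝ => η ^ (a - 1)) (𝓝 0) (𝓝 ((0:ℝ) ^ (a - 1))) := h1
      rw [Real.zero_rpow (by linarith)] at h2
      exact h2.mono_left nhdsWithin_le_nhds
    rw [mul_zero] at hlim
    have h3 := hlim.eventually_lt_const hκ0
    have h4 : ∀ᶠ δ in 𝓝[>] (0:ℝ), δ ∈ Set.Ioo (0:ℝ) 1 := Ioo_mem_nhdsGT one_pos
    obtain ⟨η, hd1, hd2⟩ := (h3.and h4).exists
    exact ⟨η, hd2.1, hd2.2.le, hd1.le⟩
  refine ⟨η, (1 + q) / 2 + κ, hη0, hη1, by rw [hκ]; linarith, ?_⟩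
  intro r hr
  have hwr : 0 < (1 + η * r) ^ (-a) := by positivity
  -- integrating a constant bound of the weight
  have hconst : ∀ (S : Set ℝ) (_ : MeasurableSet S) (_ : S ⊆ Set.Ioi 0) (b : ℝ),
      0 ≤ b → (∀ s ∈ S, (1 + η * (r - s)) ^ (-a) ≤ b * (1 + η * r) ^ (-a)) →
      ∫⁻ s in S, f s * ENNReal.ofReal ((1 + η * (r - s)) ^ (-a)) ≤
        ENNReal.ofReal (q * b * (1 + η * r) ^ (-a)) := by
    intro S hS hS0 b hb hle
    calc ∫⁻ s in S, f s * ENNReal.ofReal ((1 + η * (r - s)) ^ (-a))
        ≤ ∫⁻ s in S, f s * ENNReal.ofReal (b * (1 + η * r) ^ (-a)) := by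
          apply setLIntegral_mono' hS
          intro s hs
          exact mul_le_mul_right (ENNReal.ofReal_le_ofReal (hle s hs)) _
      _ = (∫⁻ s in S, f s) * ENNReal.ofReal (b * (1 + η * r) ^ (-a)) :=
          lintegral_mul_const _ hf
      _ ≤ ENNReal.ofReal q * ENNReal.ofReal (b * (1 + η * r) ^ (-a)) := by
          apply mul_le_mul_left
          exact (lintegral_mono_set hS0).trans hint
      _ = ENNReal.ofReal (q * b * (1 + η * r) ^ (-a)) := by
          rw [← ENNReal.ofReal_mul hq0, mul_assoc]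
  have hb1 : (0:ℝ) < (1 - δ) ^ (-a) := Real.rpow_pos_of_pos (by linarith) _
  by_cases hcase : η * r ≤ δ
  · -- all `s` at once
    have h1 := hconst (Set.Ioc 0 r) measurableSet_Ioc (fun s hs => hs.1) ((1 - δ) ^ (-a)) hb1.le (by
      intro s hs
      have hbase : 1 ≤ 1 + η * (r - s) := by
        have : 0 ≤ η * (r - s) := mul_nonneg hη0.le (by linarith [hs.2])
        linarith
      have h2 : (1 + η * (r - s)) ^ (-a) ≤ 1 := by
        rw [Real.rpow_neg (by linarith)]
        apply inv_le_one_of_one_le₀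
        exact Real.one_le_rpow hbase (by linarith)
      have h3 : 1 ≤ (1 - δ) ^ (-a) * (1 + η * r) ^ (-a) := by
        rw [← Real.mul_rpow (by linarith) (by positivity)]
        rw [Real.rpow_neg (mul_nonneg (by linarith) (by positivity))]
        apply (one_le_inv₀ (Real.rpow_pos_of_pos (mul_pos (by linarith) (by positivity)) _)).mpr
        apply Real.rpow_le_one (mul_nonneg (by linarith) (by positivity)) _ (by linarith)
        nlinarith
      linarith)
    refine h1.trans (ENNReal.ofReal_le_ofReal ?_)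
    apply mul_le_mul_of_nonneg_right _ hwr.le
    linarith
  · push Not at hcase
    have hr0 : 0 < r := by
      by_contra hc
      have : η * r ≤ 0 := mul_nonpos_of_nonneg_of_nonpos hη0.le (by linarith)
      linarith
    have hδr : 0 < δ * r := by positivity
    have hsplit : Set.Ioc 0 r = Set.Ioc 0 (δ * r) ∪ Set.Ioc (δ * r) r := by
      rw [Set.Ioc_union_Ioc_eq_Ioc hδr.le]
      nlinarith
    have hdisj : Disjoint (Set.Ioc 0 (δ * r)) (Set.Ioc (δ * r) r) := by
      rw [Set.disjoint_left]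
      intro s hs hs'
      exact absurd hs.2 (not_le.mpr hs'.1)
    rw [hsplit, lintegral_union measurableSet_Ioc hdisj]
    -- the first part
    have h1 := hconst (Set.Ioc 0 (δ * r)) measurableSet_Ioc (fun s hs => hs.1)
      ((1 - δ) ^ (-a)) hb1.le (by
      intro s hs
      have h2 : (1 - δ) * (1 + η * r) ≤ 1 + η * (r - s) := by
        have h3 : η * s ≤ η * (δ * r) := mul_le_mul_of_nonneg_left hs.2 hη0.le
        nlinarith
      rw [← Real.mul_rpow (by linarith) (by positivity)]
      rw [Real.rpow_neg (by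
        have : 0 ≤ (1 - δ) * (1 + η * r) := mul_nonneg (by linarith) (by positivity)
        linarith), Real.rpow_neg (mul_nonneg (by linarith) (by positivity))]
      apply inv_anti₀ (Real.rpow_pos_of_pos (mul_pos (by linarith) (by positivity)) _)
      exact Real.rpow_le_rpow (mul_nonneg (by linarith) (by positivity)) h2 (by linarith))
    -- the second part
    have h4 : ∫⁻ s in Set.Ioc (δ * r) r, f s * ENNReal.ofReal ((1 + η * (r - s)) ^ (-a)) ≤
        ENNReal.ofReal (κ * (1 + η * r) ^ (-a)) := by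
      calc ∫⁻ s in Set.Ioc (δ * r) r, f s * ENNReal.ofReal ((1 + η * (r - s)) ^ (-a))
          ≤ ∫⁻ s in Set.Ioc (δ * r) r, ENNReal.ofReal (C * (δ * r) ^ (-a)) *
              ENNReal.ofReal ((1 + η * (r - s)) ^ (-a)) := by
            apply setLIntegral_mono' measurableSet_Ioc
            intro s hs
            apply mul_le_mul_left
            refine (hbd s (lt_trans hδr hs.1)).trans (ENNReal.ofReal_le_ofReal ?_)
            apply mul_le_mul_of_nonneg_left _ hC
            rw [Real.rpow_neg hδr.le, Real.rpow_neg (lt_trans hδr hs.1).le]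
            apply inv_anti₀ (Real.rpow_pos_of_pos hδr _)
            exact Real.rpow_le_rpow hδr.le hs.1.le (by linarith)
        _ = ENNReal.ofReal (C * (δ * r) ^ (-a)) * ∫⁻ s in Set.Ioc (δ * r) r,
              ENNReal.ofReal ((1 + η * (r - s)) ^ (-a)) := by
            apply lintegral_const_mul
            fun_prop
        _ ≤ ENNReal.ofReal (C * (δ * r) ^ (-a)) * ENNReal.ofReal (1 / (η * (a - 1))) := by
            apply mul_le_mul_right
            refine le_trans (lintegral_mono_set ?_) (weight_integral ha hη0 hr)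
            exact Set.Ioc_subset_Ioc_left hδr.le
        _ = ENNReal.ofReal (C * (δ * r) ^ (-a) * (1 / (η * (a - 1)))) := by
            rw [← ENNReal.ofReal_mul (mul_nonneg hC (Real.rpow_nonneg hδr.le _))]
        _ ≤ ENNReal.ofReal (κ * (1 + η * r) ^ (-a)) := by
            apply ENNReal.ofReal_le_ofReal
            have h5 : (1 + η * r) ^ a ≤ (1 + 1 / δ) ^ a * (η ^ a * r ^ a) := by
              rw [← Real.mul_rpow hη0.le hr0.le, ← Real.mul_rpow (by positivity) (by positivity)]
              apply Real.rpow_le_rpow (by positivity) _ (by linarith)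
              have : 1 ≤ 1 / δ * (η * r) := by
                rw [one_div, inv_mul_eq_div, le_div_iff₀ hδ0]; linarith
              linarith
            have e1 : (δ * r) ^ (-a) = δ ^ (-a) * (r ^ a)⁻¹ := by
              rw [Real.mul_rpow hδ0.le hr0.le, Real.rpow_neg hr0.le]
            have e2 : (1 + η * r) ^ (-a) = ((1 + η * r) ^ a)⁻¹ := Real.rpow_neg (by positivity) a
            have e3 : η ^ (a - 1) = η ^ a / η := Real.rpow_sub_one hη0.ne' a
            have hra : 0 < r ^ a := Real.rpow_pos_of_pos hr0 a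
            have hηa : 0 < η ^ a := Real.rpow_pos_of_pos hη0 a
            have hW : 0 < (1 + η * r) ^ a := by positivity
            have ha1 : 0 < a - 1 := by linarith
            rw [e3] at hη
            rw [e2, ← div_eq_mul_inv, le_div_iff₀ hW, e1]
            calc C * (δ ^ (-a) * (r ^ a)⁻¹) * (1 / (η * (a - 1))) * (1 + η * r) ^ a
                ≤ C * (δ ^ (-a) * (r ^ a)⁻¹) * (1 / (η * (a - 1))) *
                    ((1 + 1 / δ) ^ a * (η ^ a * r ^ a)) := by
                  apply mul_le_mul_of_nonneg_left h5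
                  have : 0 ≤ δ ^ (-a) := Real.rpow_nonneg hδ0.le _
                  positivity
              _ = D * (η ^ a / η) := by
                  rw [hD]
                  field_simp
              _ ≤ κ := hη
    calc _ ≤ ENNReal.ofReal (q * (1 - δ) ^ (-a) * (1 + η * r) ^ (-a)) +
          ENNReal.ofReal (κ * (1 + η * r) ^ (-a)) := add_le_add h1 h4
      _ = ENNReal.ofReal (q * (1 - δ) ^ (-a) * (1 + η * r) ^ (-a) + κ * (1 + η * r) ^ (-a)) := by
          rw [ENNReal.ofReal_add] <;> positivity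
      _ ≤ _ := by
          apply ENNReal.ofReal_le_ofReal
          rw [← add_mul]
          apply mul_le_mul_of_nonneg_right _ hwr.le
          linarith

end Pool.Agent.H95.RBP
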