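import Mathlib

/-!
# The reinforced branching process: definitions

Conventions of the problem `MP_1a55bc_pr`. Families are indexed by finite words: `[]` is the initial
family and `k :: u` is the family founded at the `k`-th birth event (`k = 0, 1, 2, ...`) of the
family `u` (it exists only if that birth event founds a new family).
-/

open MeasureTheory ProbabilityTheory Filter Topology
open scoped ENNReal

namespace Pool.Agent.H95.RBP

/-- A birth event of a family is described by `(c, found, add)`: `c` is a standard exponential
clock, `found` tells whether a new family is founded, `add` tells whether an individual is added to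
the family. -/
abbrev Event : Type := ℝ × Bool × Bool

/-- The data of a family: its fitness and the sequence of its birth events. -/
abbrev FamilyData : Type := ℝ × (ℕ → Event)

/-- The law of `(found, add)`: both with probability `β + γ - 1`, only `found` with probability
`1 - γ`, only `add` with probability `1 - β`. -/
noncomputable def markLaw (β γ : ℝ) : Measure (Bool × Bool) :=
  ENNReal.ofReal (β + γ - 1) • Measure.dirac (true, true)
    + ENNReal.ofReal (1 - γ) • Measure.dirac (true, false)
    + ENNReal.ofReal (1 - β) • Measure.dirac (false, true)

/-- The law of one birth event: the clock is exponential with mean `1`, independent of the marks. -/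
noncomputable def eventLaw (β γ : ℝ) : Measure Event := (expMeasure 1).prod (markLaw β γ)

/-- The law of the data of one family: fitness of law `μ`, independent i.i.d. birth events. -/
noncomputable def familyLaw (μ : Measure ℝ) (β γ : ℝ) : Measure FamilyData :=
  μ.prod (Measure.infinitePi (fun _ : ℕ => eventLaw β γ))

/-- The law of the process: independent data for all (potential) families. -/
noncomputable def processLaw (μ : Measure ℝ) (β γ : ℝ) : Measure (List ℕ → FamilyData) :=
  Measure.infinitePi (fun _ : List ℕ => familyLaw μ β γ)

/-- The size of a family just before its `k`-th birth event: one plus the number of the individuals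
added at the birth events `0, ..., k - 1`. -/
def sizeBefore (d : FamilyData) (k : ℕ) : ℕ :=
  1 + ((Finset.range k).filter (fun j => (d.2 j).2.2 = true)).card

/-- The age of a family at its `k`-th birth event. While the size of the family is `z`, the waiting
time for the next birth event is an exponential variable with parameter `fitness * z`. -/
noncomputable def eventAge (d : FamilyData) (k : ℕ) : ℝ :=
  ∑ j ∈ Finset.range (k + 1), (d.2 j).1 / (d.1 * (sizeBefore d j : ℝ))

/-- The family `u` exists: each word of the line of descent is founded at a birth event that founds
a new family. -/
def Founded (ω : List ℕ → FamilyData) : List ℕ → Prop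
  | [] => True
  | k :: u => Founded ω u ∧ ((ω u).2 k).2.1 = true

/-- The time at which the family `u` is founded. -/
noncomputable def foundTime (ω : List ℕ → FamilyData) : List ℕ → ℝ
  | [] => 0
  | k :: u => foundTime ω u + eventAge (ω u) k

open Classical in
/-- The number of individuals of the family `u` at time `t`: zero if the family does not exist or is
not founded by time `t`; otherwise one plus the number of additions to the family by time `t`. -/
noncomputable def familySize (ω : List ℕ → FamilyData) (u : List ℕ) (t : ℝ) : ℝ≥0∞ :=
  if Founded ω u ∧ foundTime ω u ≤ t then
    1 + ∑' k : ℕ, (if ((ω u).2 k).2.2 = true ∧ foundTime ω u + eventAge (ω u) k ≤ t then 1 else 0)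
  else 0

/-- The population size `N(t)`, as an element of `[0, ∞]`. -/
noncomputable def population (ω : List ℕ → FamilyData) (t : ℝ) : ℝ≥0∞ :=
  ∑' u : List ℕ, familySize ω u t

/-- `ℓ` is slowly varying at `0`. -/
def SlowlyVaryingAtZero (ℓ : ℝ → ℝ) : Prop :=
  (∀ᶠ ε in 𝓝[>] (0 : ℝ), 0 < ℓ ε) ∧
    ∀ c : ℝ, 0 < c → Tendsto (fun ε : ℝ => ℓ (c * ε) / ℓ ε) (𝓝[>] (0 : ℝ)) (𝓝 1)

end Pool.Agent.H95.RBP
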