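import Mathlib
import Pool.Agent.H95.RBP.Defs
import Pool.Agent.H95.RBP.Analytic

open MeasureTheory ProbabilityTheory Filter Topology
open scoped ENNReal

namespace Pool.Agent.H95.RBP

open Pool.Agent.H95

/-- the increment of the size at an event -/
def inc (e : Event) : ℕ := if e.2.2 = true then 1 else 0

/-- size before the `k`-th event, starting from size `z` -/
def sz (z : ℕ) (s : ℕ → Event) (k : ℕ) : ℕ := z + ∑ j ∈ Finset.range k, inc (s j)

/-- age at the `k`-th event, starting from size `z`, fitness `x` -/
noncomputable def ag (x : ℝ) (z : ℕ) (s : ℕ → Event) (k : ℕ) : ℝ :=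
  ∑ j ∈ Finset.range (k + 1), (s j).1 / (x * (sz z s j : ℝ))

lemma sizeBefore_eq (d : FamilyData) (k : ℕ) : sizeBefore d k = sz 1 d.2 k := by
  unfold sizeBefore sz inc
  rw [Finset.card_filter]

lemma eventAge_eq (d : FamilyData) (k : ℕ) : eventAge d k = ag d.1 1 d.2 k := by
  unfold eventAge ag
  simp_rw [sizeBefore_eq]

lemma sz_zero (z : ℕ) (s : ℕ → Event) : sz z s 0 = z := by simp [sz]

lemma sz_succ (z : ℕ) (s : ℕ → Event) (k : ℕ) :
    sz z s (k + 1) = sz (z + inc (s 0)) (shift 1 s) k := by
  unfold sz
  rw [Finset.sum_range_succ']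
  simp only [shift_apply]
  omega

lemma ag_zero (x : ℝ) (z : ℕ) (s : ℕ → Event) : ag x z s 0 = (s 0).1 / (x * (z:ℝ)) := by
  simp [ag, sz_zero]

lemma ag_succ (x : ℝ) (z : ℕ) (s : ℕ → Event) (k : ℕ) :
    ag x z s (k + 1) = (s 0).1 / (x * (z:ℝ)) + ag x (z + inc (s 0)) (shift 1 s) k := by
  unfold ag
  rw [Finset.sum_range_succ']
  simp only [sz_succ, shift_apply, sz_zero]
  rw [add_comm]

lemma sz_pos {z : ℕ} (hz : 1 ≤ z) (s : ℕ → Event) (k : ℕ) : 1 ≤ sz z s k := by
  unfold sz; omega

lemma measurable_inc : Measurable inc := by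
  unfold inc
  apply Measurable.ite
  · exact (measurable_snd.comp measurable_snd) (measurableSet_singleton true)
  · exact measurable_const
  · exact measurable_const

lemma measurable_sz (z k : ℕ) : Measurable (fun s : ℕ → Event => sz z s k) := by
  unfold sz
  apply Measurable.const_add
  exact Finset.measurable_fun_sum _ (fun j _ => measurable_inc.comp (measurable_pi_apply j))

lemma measurable_ag (z k : ℕ) : Measurable (fun p : ℝ × (ℕ → Event) => ag p.1 z p.2 k) := by
  unfold ag
  refine Finset.measurable_fun_sum _ (fun j _ => ?_)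
  refine Measurable.div ?_ (Measurable.mul measurable_fst ?_)
  · exact measurable_fst.comp ((measurable_pi_apply j).comp measurable_snd)
  · exact (measurable_from_top (f := fun n : ℕ => (n:ℝ))).comp ((measurable_sz z j).comp measurable_snd)

lemma measurable_ag' (x : ℝ) (z k : ℕ) : Measurable (fun s : ℕ → Event => ag x z s k) :=
  (measurable_ag z k).comp (measurable_const.prodMk measurable_id)

variable (m : Measure (Bool × Bool)) [IsProbabilityMeasure m]

/-- the law of one event, for a general law of the marks -/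
noncomputable def evLaw (m : Measure (Bool × Bool)) : Measure Event := (expMeasure 1).prod m

lemma isProb_evLaw : IsProbabilityMeasure (evLaw m) := by
  have := isProb_exp
  unfold evLaw
  infer_instance

/-- Intensity bound for the birth events of a family. -/
lemma intensity (γ : ℝ) (hγ0 : 0 ≤ γ) (hγ1 : γ ≤ 1)
    (hm : ∀ g : Bool → ℝ≥0∞, ∫⁻ p, g p.2 ∂m =
      ENNReal.ofReal γ * g true + ENNReal.ofReal (1 - γ) * g false)
    (g : Bool × Bool → ℝ≥0∞) (x : ℝ) (hx : 0 < x) (K : ℕ) :
    ∀ z : ℕ, 1 ≤ z → ∀ h : ℝ → ℝ≥0∞, Measurable h →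
    ∑ k ∈ Finset.range K, ∫⁻ s, h (ag x z s k) * g (s k).2 ∂(iid (evLaw m)) ≤
      (∫⁻ p, g p ∂m) * ∫⁻ u in Set.Ioi (0:ℝ), h u * ENNReal.ofReal (x * z * Real.exp (γ * x * u)) := by
  have := isProb_evLaw m
  have := isProb_exp
  have hgm : Measurable g := Measurable.of_discrete
  induction K with
  | zero => intro z hz h hh; simp
  | succ K ih =>
    intro z hz h hh
    have hz0 : (0:ℝ) < z := by exact_mod_cast hz
    have hxz : 0 < x * z := by positivity
    rw [Finset.sum_range_succ']
    -- the term `k = 0`
    have t0 : ∫⁻ s, h (ag x z s 0) * g (s 0).2 ∂(iid (evLaw m)) =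
        (∫⁻ p, g p ∂m) * ∫⁻ c, h (c / (x * z)) ∂(expMeasure 1) := by
      simp_rw [ag_zero]
      have hmp0 : MeasurePreserving (fun s : ℕ → Event => s 0) (iid (evLaw m)) (evLaw m) :=
        measurePreserving_eval_infinitePi (fun _ : ℕ => evLaw m) 0
      have hF : Measurable (fun e : Event => h (e.1 / (x * z)) * g e.2) := by
        apply Measurable.mul
        · exact hh.comp (measurable_fst.div_const _)
        · exact hgm.comp measurable_snd
      have := lintegral_map hF hmp0.measurable (μ := iid (evLaw m))
      rw [hmp0.map_eq] at this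
      rw [← this]
      unfold evLaw
      rw [lintegral_prod _ hF.aemeasurable]
      simp only
      have h1 : ∀ c : ℝ, ∫⁻ p, h (c / (x * z)) * g p ∂m = h (c / (x * z)) * ∫⁻ p, g p ∂m := by
        intro c
        rw [lintegral_const_mul _ hgm]
      have h2 : Measurable (fun c : ℝ => h (c / (x * z))) := by fun_prop
      simp_rw [h1]
      rw [lintegral_mul_const _ h2, mul_comm]
    -- the other terms
    have t1 : ∀ k : ℕ, ∫⁻ s, h (ag x z s (k + 1)) * g (s (k + 1)).2 ∂(iid (evLaw m)) =
        ∫⁻ e, ∫⁻ s, h (e.1 / (x * z) + ag x (z + inc e) s k) * g (s k).2 ∂(iid (evLaw m))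
          ∂(evLaw m) := by
      intro k
      have hF : Measurable (Function.uncurry (fun (e : Event) (s : ℕ → Event) =>
          h (e.1 / (x * z) + ag x (z + inc e) s k) * g (s k).2)) := by
        apply Measurable.mul
        · apply hh.comp
          apply Measurable.add
          · exact (measurable_fst.comp measurable_fst).div_const _
          · have h2 : Measurable (fun q : ℕ × (ℕ → Event) => ag x q.1 q.2 k) :=
              measurable_from_prod_countable_right (fun z' => measurable_ag' x z' k)
            have h3 : Measurable (fun q : Event × (ℕ → Event) => (z + inc q.1, q.2)) :=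
              ((measurable_inc.comp measurable_fst).const_add z).prodMk measurable_snd
            exact h2.comp h3
        · exact hgm.comp (measurable_snd.comp ((measurable_pi_apply k).comp measurable_snd))
      rw [← lintegral_cons (evLaw m) hF]
      simp_rw [ag_succ, shift_apply]
    simp_rw [t1]
    rw [t0]
    -- measurability of the inner functions
    have hinner : ∀ k : ℕ, Measurable (fun e : Event =>
        ∫⁻ s, h (e.1 / (x * z) + ag x (z + inc e) s k) * g (s k).2 ∂(iid (evLaw m))) := by
      intro k
      apply Measurable.lintegral_prod_right' (f := fun q : Event × (ℕ → Event) =>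
          h (q.1.1 / (x * z) + ag x (z + inc q.1) q.2 k) * g (q.2 k).2)
      apply Measurable.mul
      · apply hh.comp
        apply Measurable.add
        · exact (measurable_fst.comp measurable_fst).div_const _
        · have h2 : Measurable (fun q : ℕ × (ℕ → Event) => ag x q.1 q.2 k) :=
            measurable_from_prod_countable_right (fun z' => measurable_ag' x z' k)
          have h3 : Measurable (fun q : Event × (ℕ → Event) => (z + inc q.1, q.2)) :=
            ((measurable_inc.comp measurable_fst).const_add z).prodMk measurable_snd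
          exact h2.comp h3
      · exact hgm.comp (measurable_snd.comp ((measurable_pi_apply k).comp measurable_snd))
    rw [← lintegral_finsetSum _ (fun k _ => hinner k)]
    have t2 : ∫⁻ e, ∑ k ∈ Finset.range K,
        ∫⁻ s, h (e.1 / (x * z) + ag x (z + inc e) s k) * g (s k).2 ∂(iid (evLaw m)) ∂(evLaw m) ≤
        ∫⁻ e, ((∫⁻ p, g p ∂m) * ∫⁻ u in Set.Ioi (0:ℝ), h (e.1 / (x * z) + u) *
          ENNReal.ofReal (x * ((z + inc e : ℕ) : ℝ) * Real.exp (γ * x * u))) ∂(evLaw m) := by
      apply lintegral_mono
      intro e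
      exact ih (z + inc e) (by omega) (fun r => h (e.1 / (x * z) + r))
        (hh.comp (measurable_const_add _))
    -- the mean over the marks
    have t3 : ∫⁻ e, ((∫⁻ p, g p ∂m) * ∫⁻ u in Set.Ioi (0:ℝ), h (e.1 / (x * z) + u) *
          ENNReal.ofReal (x * ((z + inc e : ℕ) : ℝ) * Real.exp (γ * x * u))) ∂(evLaw m) =
        (∫⁻ p, g p ∂m) * ∫⁻ c, (∫⁻ u in Set.Ioi (0:ℝ), h (c / (x * z) + u) *
          ENNReal.ofReal ((x * z + γ * x) * Real.exp (γ * x * u))) ∂(expMeasure 1) := by
      have hJ : ∀ z' : ℕ, Measurable (fun c : ℝ => ∫⁻ u in Set.Ioi (0:ℝ), h (c / (x * z) + u) *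
          ENNReal.ofReal (x * (z' : ℝ) * Real.exp (γ * x * u))) := by
        intro z'
        apply Measurable.lintegral_prod_right' (f := fun q : ℝ × ℝ => h (q.1 / (x * z) + q.2) *
          ENNReal.ofReal (x * (z' : ℝ) * Real.exp (γ * x * q.2)))
        fun_prop
      have hJm : Measurable (fun e : Event => ∫⁻ u in Set.Ioi (0:ℝ), h (e.1 / (x * z) + u) *
          ENNReal.ofReal (x * ((z + inc e : ℕ) : ℝ) * Real.exp (γ * x * u))) := by
        have h2 : Measurable (fun q : ℕ × ℝ => ∫⁻ u in Set.Ioi (0:ℝ), h (q.2 / (x * z) + u) *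
          ENNReal.ofReal (x * (q.1 : ℝ) * Real.exp (γ * x * u))) :=
          measurable_from_prod_countable_right (fun z' => hJ z')
        have h3 : Measurable (fun e : Event => (z + inc e, e.1)) :=
          (measurable_inc.const_add z).prodMk measurable_fst
        exact h2.comp h3
      rw [lintegral_const_mul _ hJm]
      congr 1
      unfold evLaw
      rw [lintegral_prod _ hJm.aemeasurable]
      apply lintegral_congr
      intro c
      simp only [inc]
      rw [hm (fun b => ∫⁻ u in Set.Ioi (0:ℝ), h (c / (x * z) + u) *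
          ENNReal.ofReal (x * ((z + (if b = true then 1 else 0) : ℕ) : ℝ) * Real.exp (γ * x * u)))]
      rw [← lintegral_const_mul _ (by fun_prop), ← lintegral_const_mul _ (by fun_prop),
        ← lintegral_add_left (by fun_prop)]
      apply lintegral_congr
      intro u
      have e1 : ENNReal.ofReal ((x * z + γ * x) * Real.exp (γ * x * u)) =
          ENNReal.ofReal γ * ENNReal.ofReal (x * ((z + 1 : ℕ) : ℝ) * Real.exp (γ * x * u)) +
          ENNReal.ofReal (1 - γ) * ENNReal.ofReal (x * ((z + 0 : ℕ) : ℝ) * Real.exp (γ * x * u)) := by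
        rw [← ENNReal.ofReal_mul hγ0, ← ENNReal.ofReal_mul (by linarith),
          ← ENNReal.ofReal_add (by positivity)
            (mul_nonneg (by linarith) (by positivity))]
        congr 1
        push_cast
        ring
      rw [e1]
      simp only [if_true, Bool.false_eq_true, if_false]
      ring
    calc _ ≤ (∫⁻ p, g p ∂m) * ∫⁻ c, (∫⁻ u in Set.Ioi (0:ℝ), h (c / (x * z) + u) *
          ENNReal.ofReal ((x * z + γ * x) * Real.exp (γ * x * u))) ∂(expMeasure 1) +
          (∫⁻ p, g p ∂m) * ∫⁻ c, h (c / (x * z)) ∂(expMeasure 1) := by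
          rw [← t3]
          exact add_le_add t2 le_rfl
      _ = (∫⁻ p, g p ∂m) * ∫⁻ u in Set.Ioi (0:ℝ), h u *
            ENNReal.ofReal (x * z * Real.exp (γ * x * u)) := by
          rw [← mul_add, add_comm, renewal_identity hxz (by positivity) hh]

end Pool.Agent.H95.RBP
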