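import Mathlib
import Pool.Agent.H95.RBP.Family

open MeasureTheory ProbabilityTheory Filter Topology
open scoped ENNReal

namespace Pool.Agent.H95.RBP

open Pool.Agent.H95

lemma lintegral_exp_density {lam : ℝ} (hl : 0 < lam) :
    ∫⁻ v in Set.Ioi (0:ℝ), ENNReal.ofReal (Real.exp (-(lam * v))) = ENNReal.ofReal (1 / lam) := by
  have := isProb_exp
  have h := lintegral_exp_scale hl (G := fun _ => 1) measurable_const
  rw [lintegral_const, measure_univ, mul_one] at h
  simp only [mul_one] at h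
  have h2 : ∀ v : ℝ, ENNReal.ofReal (lam * Real.exp (-(lam * v))) =
      ENNReal.ofReal lam * ENNReal.ofReal (Real.exp (-(lam * v))) := by
    intro v; rw [ENNReal.ofReal_mul hl.le]
  simp_rw [h2] at h
  rw [lintegral_const_mul _ (by fun_prop)] at h
  rw [one_div, ENNReal.ofReal_inv_of_pos hl]
  exact ENNReal.eq_inv_of_mul_eq_one_left (by rw [mul_comm]; exact h.symm)

lemma lintegral_exp_mgf {a : ℝ} (ha : a < 1) :
    ∫⁻ c, ENNReal.ofReal (Real.exp (a * c)) ∂(expMeasure 1) = ENNReal.ofReal (1 / (1 - a)) := by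
  rw [lintegral_exp_eq (by fun_prop), ← lintegral_exp_density (by linarith)]
  apply lintegral_congr
  intro c
  rw [← ENNReal.ofReal_mul (Real.exp_pos _).le, ← Real.exp_add]
  congr 2; ring

variable (m : Measure (Bool × Bool))

lemma measurable_ag_family (x : ℝ) (z k : ℕ) :
    Measurable (fun q : Event × (ℕ → Event) => ag x (z + inc q.1) q.2 k) := by
  have h2 : Measurable (fun q : ℕ × (ℕ → Event) => ag x q.1 q.2 k) :=
    measurable_from_prod_countable_right (fun z' => measurable_ag' x z' k)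
  have h3 : Measurable (fun q : Event × (ℕ → Event) => (z + inc q.1, q.2)) :=
    ((measurable_inc.comp measurable_fst).const_add z).prodMk measurable_snd
  exact h2.comp h3

/-- a function of the clock times a function of the size increment -/
lemma lintegral_ev_mul [IsProbabilityMeasure m] (γ : ℝ)
    (hm : ∀ g : Bool → ℝ≥0∞, ∫⁻ p, g p.2 ∂m =
      ENNReal.ofReal γ * g true + ENNReal.ofReal (1 - γ) * g false)
    {f : ℝ → ℝ≥0∞} (hf : Measurable f) (g : ℕ → ℝ≥0∞) :
    ∫⁻ e, f e.1 * g (inc e) ∂(evLaw m) =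
      (∫⁻ c, f c ∂(expMeasure 1)) * (ENNReal.ofReal γ * g 1 + ENNReal.ofReal (1 - γ) * g 0) := by
  have := isProb_exp
  have hF : Measurable (fun e : Event => f e.1 * g (inc e)) :=
    (hf.comp measurable_fst).mul ((Measurable.of_discrete (f := g)).comp measurable_inc)
  unfold evLaw
  rw [lintegral_prod _ hF.aemeasurable]
  simp only [inc]
  have h1 : ∀ c : ℝ, ∫⁻ p : Bool × Bool, f c * g (if p.2 = true then 1 else 0) ∂m =
      f c * (ENNReal.ofReal γ * g 1 + ENNReal.ofReal (1 - γ) * g 0) := by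
    intro c
    rw [lintegral_const_mul _ Measurable.of_discrete, hm (fun b => g (if b = true then 1 else 0))]
    simp
  simp_rw [h1]
  rw [lintegral_mul_const _ hf]

/-- exponential moment of the age at the `k`-th event -/
lemma age_mgf [IsProbabilityMeasure m] (γ : ℝ) (hγ0 : 0 ≤ γ) (hγ1 : γ ≤ 1)
    (hm : ∀ g : Bool → ℝ≥0∞, ∫⁻ p, g p.2 ∂m =
      ENNReal.ofReal γ * g true + ENNReal.ofReal (1 - γ) * g false)
    (x : ℝ) (hx : 0 < x) (k : ℕ) :
    ∀ z : ℕ, 1 ≤ z →
    ∫⁻ s, ENNReal.ofReal (Real.exp (γ * x / 2 * ag x z s k)) ∂(iid (evLaw m)) ≤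
      ENNReal.ofReal (Real.sqrt ((4 * (z + k) + 1) / (4 * z - 3))) := by
  have := isProb_evLaw m
  have := isProb_exp
  induction k with
  | zero =>
    intro z hz
    have hz1 : (1:ℝ) ≤ z := by exact_mod_cast hz
    have hmp0 : MeasurePreserving (fun s : ℕ → Event => s 0) (iid (evLaw m)) (evLaw m) :=
      measurePreserving_eval_infinitePi (fun _ : ℕ => evLaw m) 0
    have hF : Measurable (fun e : Event => ENNReal.ofReal (Real.exp (γ / (2 * z) * e.1))) := by
      fun_prop
    have h1 := lintegral_map hF hmp0.measurable (μ := iid (evLaw m))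
    rw [hmp0.map_eq] at h1
    have h2 : ∀ s : ℕ → Event, ENNReal.ofReal (Real.exp (γ * x / 2 * ag x z s 0)) =
        ENNReal.ofReal (Real.exp (γ / (2 * z) * (s 0).1)) := by
      intro s
      rw [ag_zero]; congr 2; field_simp
    simp_rw [h2]
    rw [← h1]
    have h3 := lintegral_ev_mul m γ hm (f := fun c => ENNReal.ofReal (Real.exp (γ / (2 * z) * c)))
      (by fun_prop) (fun _ => 1)
    simp only [mul_one] at h3
    rw [h3, ← ENNReal.ofReal_add hγ0 (by linarith)]
    have ha : γ / (2 * z) < 1 := by rw [div_lt_one (by positivity)]; linarith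
    rw [lintegral_exp_mgf ha]
    have e1 : γ + (1 - γ) = 1 := by ring
    rw [e1, ENNReal.ofReal_one, mul_one]
    apply ENNReal.ofReal_le_ofReal
    have ha' : γ / (2 * z) ≤ 1 / (2 * z) := by gcongr
    have hb : (0:ℝ) < 1 - 1 / (2 * z) := by
      have : 1 / (2 * (z:ℝ)) ≤ 1 / 2 := by
        apply one_div_le_one_div_of_le <;> linarith
      linarith
    calc 1 / (1 - γ / (2 * z)) ≤ 1 / (1 - 1 / (2 * z)) := by
          apply one_div_le_one_div_of_le hb; linarith
      _ ≤ _ := by
          apply Real.le_sqrt_of_sq_le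
          rw [div_pow, one_pow, div_le_div_iff₀ (by positivity) (by linarith)]
          have e2 : (1 - 1 / (2 * (z:ℝ))) ^ 2 = (2 * z - 1) ^ 2 / (4 * z ^ 2) := by
            field_simp
            ring
          rw [e2, mul_div_assoc', le_div_iff₀ (by positivity)]
          push_cast
          nlinarith
  | succ k ih =>
    intro z hz
    have hz1 : (1:ℝ) ≤ z := by exact_mod_cast hz
    have hk0 : (0:ℝ) ≤ k := Nat.cast_nonneg k
    have hF : Measurable (fun q : Event × (ℕ → Event) =>
        ENNReal.ofReal (Real.exp (γ / (2 * z) * q.1.1)) *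
        ENNReal.ofReal (Real.exp (γ * x / 2 * ag x (z + inc q.1) q.2 k))) := by
      have h1 : Measurable (fun q : Event × (ℕ → Event) =>
          ENNReal.ofReal (Real.exp (γ / (2 * z) * q.1.1))) :=
        (by fun_prop : Measurable (fun e : Event =>
          ENNReal.ofReal (Real.exp (γ / (2 * z) * e.1)))).comp measurable_fst
      have h2 : Measurable (fun q : Event × (ℕ → Event) =>
          ENNReal.ofReal (Real.exp (γ * x / 2 * ag x (z + inc q.1) q.2 k))) :=
        (by fun_prop : Measurable (fun y : ℝ =>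
          ENNReal.ofReal (Real.exp (γ * x / 2 * y)))).comp (measurable_ag_family x z k)
      exact h1.mul h2
    have h2 : ∀ s : ℕ → Event, ENNReal.ofReal (Real.exp (γ * x / 2 * ag x z s (k + 1))) =
        ENNReal.ofReal (Real.exp (γ / (2 * z) * (s 0).1)) *
        ENNReal.ofReal (Real.exp (γ * x / 2 * ag x (z + inc (s 0)) (shift 1 s) k)) := by
      intro s
      rw [ag_succ, ← ENNReal.ofReal_mul (Real.exp_pos _).le, ← Real.exp_add]
      congr 2; field_simp
    simp_rw [h2]
    rw [lintegral_cons (evLaw m) (F := fun (e : Event) (s : ℕ → Event) =>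
        ENNReal.ofReal (Real.exp (γ / (2 * z) * e.1)) *
        ENNReal.ofReal (Real.exp (γ * x / 2 * ag x (z + inc e) s k))) hF]
    have h3 : ∀ e : Event, ∫⁻ s, ENNReal.ofReal (Real.exp (γ / (2 * z) * e.1)) *
        ENNReal.ofReal (Real.exp (γ * x / 2 * ag x (z + inc e) s k)) ∂(iid (evLaw m)) ≤
        ENNReal.ofReal (Real.exp (γ / (2 * z) * e.1)) *
        ENNReal.ofReal (Real.sqrt ((4 * (((z + inc e : ℕ) : ℝ) + k) + 1) /
          (4 * ((z + inc e : ℕ) : ℝ) - 3))) := by
      intro e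
      have hag : Measurable (fun s : ℕ → Event =>
          ENNReal.ofReal (Real.exp (γ * x / 2 * ag x (z + inc e) s k))) :=
        (by fun_prop : Measurable (fun y : ℝ =>
          ENNReal.ofReal (Real.exp (γ * x / 2 * y)))).comp (measurable_ag' x (z + inc e) k)
      rw [lintegral_const_mul _ hag]
      exact mul_le_mul_right (ih (z + inc e) (by omega)) _
    refine (lintegral_mono h3).trans ?_
    have h4 := lintegral_ev_mul m γ hm (f := fun c => ENNReal.ofReal (Real.exp (γ / (2 * z) * c)))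
      (by fun_prop) (fun i => ENNReal.ofReal (Real.sqrt ((4 * (((z + i : ℕ) : ℝ) + k) + 1) /
          (4 * ((z + i : ℕ) : ℝ) - 3))))
    rw [h4]
    have ha : γ / (2 * z) < 1 := by rw [div_lt_one (by positivity)]; linarith
    have ha0 : 0 ≤ γ / (2 * z) := by positivity
    rw [lintegral_exp_mgf ha]
    have hS : ∀ y : ℝ, 0 ≤ Real.sqrt y := Real.sqrt_nonneg
    rw [← ENNReal.ofReal_mul hγ0, ← ENNReal.ofReal_mul (by linarith),
      ← ENNReal.ofReal_add (mul_nonneg hγ0 (hS _)) (mul_nonneg (by linarith) (hS _)),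
      ← ENNReal.ofReal_mul (by apply one_div_nonneg.mpr; linarith)]
    apply ENNReal.ofReal_le_ofReal
    set R : ℝ := Real.sqrt ((4 * ((z:ℝ) + ((k + 1 : ℕ) : ℝ)) + 1) / (4 * z - 3)) with hR
    have hR0 : 0 ≤ R := Real.sqrt_nonneg _
    have hb1 : Real.sqrt ((4 * (((z + 0 : ℕ) : ℝ) + k) + 1) / (4 * ((z + 0 : ℕ) : ℝ) - 3)) ≤ R := by
      apply Real.sqrt_le_sqrt
      push_cast
      rw [add_zero]
      apply div_le_div_of_nonneg_right _ (by linarith)
      linarith
    have hb2 : Real.sqrt ((4 * (((z + 1 : ℕ) : ℝ) + k) + 1) / (4 * ((z + 1 : ℕ) : ℝ) - 3)) ≤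
        R * (1 - 1 / (2 * z)) := by
      have e1 : (0:ℝ) ≤ 1 - 1 / (2 * z) := by
        have : 1 / (2 * (z:ℝ)) ≤ 1 / 2 := by
          apply one_div_le_one_div_of_le <;> linarith
        linarith
      apply Real.sqrt_le_iff.mpr
      refine ⟨mul_nonneg hR0 e1, ?_⟩
      rw [mul_pow, hR, Real.sq_sqrt (by apply div_nonneg <;> [positivity; linarith])]
      have e2 : (1 - 1 / (2 * (z:ℝ))) ^ 2 = (2 * z - 1) ^ 2 / (4 * z ^ 2) := by
        field_simp
        ring
      rw [e2, div_mul_div_comm]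
      have hd1 : (0:ℝ) < 4 * ((z + 1 : ℕ) : ℝ) - 3 := by push_cast; linarith
      have hd2 : (0:ℝ) < (4 * z - 3) * (4 * z ^ 2) := by
        apply mul_pos
        · linarith
        · positivity
      rw [div_le_div_iff₀ hd1 hd2]
      push_cast
      have hc : 0 ≤ 4 * ((z:ℝ) + 1 + k) + 1 := by positivity
      have key : (4 * (z:ℝ) - 3) * (4 * z ^ 2) ≤ (2 * z - 1) ^ 2 * (4 * (z + 1) - 3) := by
        nlinarith
      calc (4 * ((z:ℝ) + 1 + k) + 1) * ((4 * z - 3) * (4 * z ^ 2))
          ≤ (4 * ((z:ℝ) + 1 + k) + 1) * ((2 * z - 1) ^ 2 * (4 * (z + 1) - 3)) :=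
            mul_le_mul_of_nonneg_left key hc
        _ = _ := by ring
    have hfin : γ * Real.sqrt ((4 * (((z + 1 : ℕ) : ℝ) + k) + 1) / (4 * ((z + 1 : ℕ) : ℝ) - 3)) +
        (1 - γ) * Real.sqrt ((4 * (((z + 0 : ℕ) : ℝ) + k) + 1) / (4 * ((z + 0 : ℕ) : ℝ) - 3)) ≤
        R * (1 - γ / (2 * z)) := by
      calc _ ≤ γ * (R * (1 - 1 / (2 * z))) + (1 - γ) * R :=
            add_le_add (mul_le_mul_of_nonneg_left hb2 hγ0)
              (mul_le_mul_of_nonneg_left hb1 (by linarith))
        _ = R * (1 - γ / (2 * z)) := by field_simp; ring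
    rw [one_div, inv_mul_le_iff₀ (by linarith), mul_comm (1 - γ / (2 * (z:ℝ)))]
    exact hfin

/-- the size is at least of the order of the number of events -/
lemma size_mgf [IsProbabilityMeasure m] (γ : ℝ) (hγ0 : 0 ≤ γ) (hγ1 : γ ≤ 1)
    (hm : ∀ g : Bool → ℝ≥0∞, ∫⁻ p, g p.2 ∂m =
      ENNReal.ofReal γ * g true + ENNReal.ofReal (1 - γ) * g false) (k : ℕ) :
    ∀ z : ℕ, ∫⁻ s, ENNReal.ofReal ((1 / 2) ^ (sz z s k)) ∂(iid (evLaw m)) =
      ENNReal.ofReal ((1 / 2) ^ z * (1 - γ / 2) ^ k) := by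
  have := isProb_evLaw m
  have := isProb_exp
  induction k with
  | zero =>
    intro z
    simp_rw [sz_zero]
    rw [lintegral_const, measure_univ, mul_one, pow_zero, mul_one]
  | succ k ih =>
    intro z
    have hsz : Measurable (fun q : ℕ × (ℕ → Event) => sz q.1 q.2 k) :=
      measurable_from_prod_countable_right (fun z' => measurable_sz z' k)
    have h3 : Measurable (fun q : Event × (ℕ → Event) => (z + inc q.1, q.2)) :=
      ((measurable_inc.comp measurable_fst).const_add z).prodMk measurable_snd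
    have hF : Measurable (Function.uncurry (fun (e : Event) (s : ℕ → Event) =>
        ENNReal.ofReal ((1 / 2) ^ (sz (z + inc e) s k)))) :=
      (Measurable.of_discrete (f := fun n : ℕ => ENNReal.ofReal ((1 / 2) ^ n))).comp (hsz.comp h3)
    simp_rw [sz_succ]
    rw [lintegral_cons (evLaw m) hF]
    simp_rw [ih]
    have h4 := lintegral_ev_mul m γ hm (f := fun _ => 1) measurable_const
      (fun i => ENNReal.ofReal ((1 / 2) ^ (z + i) * (1 - γ / 2) ^ k))
    simp only [one_mul] at h4
    rw [h4, lintegral_const, measure_univ, mul_one, one_mul]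
    have hq : 0 ≤ 1 - γ / 2 := by linarith
    rw [← ENNReal.ofReal_mul hγ0, ← ENNReal.ofReal_mul (by linarith),
      ← ENNReal.ofReal_add (by positivity) (mul_nonneg (by linarith) (by positivity))]
    congr 1
    ring

end Pool.Agent.H95.RBP
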