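import Mathlib
import Pool.Agent.H95.RBP.Family2

open MeasureTheory ProbabilityTheory Filter Topology
open scoped ENNReal

namespace Pool.Agent.H95.RBP

open Pool.Agent.H95

/-- law of the data of a family, for a general law of the marks -/
noncomputable def fl (μ : Measure ℝ) (m : Measure (Bool × Bool)) : Measure FamilyData :=
  μ.prod (iid (evLaw m))

lemma isProb_fl (μ : Measure ℝ) [IsProbabilityMeasure μ] (m : Measure (Bool × Bool))
    [IsProbabilityMeasure m] : IsProbabilityMeasure (fl μ m) := by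
  have := isProb_evLaw m
  unfold fl
  infer_instance

lemma measurable_eventAge (k : ℕ) : Measurable (fun d : FamilyData => eventAge d k) := by
  simp_rw [eventAge_eq]
  exact measurable_ag 1 k

variable (m : Measure (Bool × Bool))

/-- intensity bound, all events -/
lemma intensity_tsum [IsProbabilityMeasure m] (γ : ℝ) (hγ0 : 0 ≤ γ) (hγ1 : γ ≤ 1)
    (hm : ∀ g : Bool → ℝ≥0∞, ∫⁻ p, g p.2 ∂m =
      ENNReal.ofReal γ * g true + ENNReal.ofReal (1 - γ) * g false)
    (g : Bool × Bool → ℝ≥0∞) (x : ℝ) (hx : 0 < x) (h : ℝ → ℝ≥0∞) (hh : Measurable h) :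
    ∑' k : ℕ, ∫⁻ s, h (ag x 1 s k) * g (s k).2 ∂(iid (evLaw m)) ≤
      (∫⁻ p, g p ∂m) * ∫⁻ u in Set.Ioi (0:ℝ), h u * ENNReal.ofReal (x * Real.exp (γ * x * u)) := by
  apply ENNReal.tsum_le_of_sum_range_le
  intro K
  have := intensity m γ hγ0 hγ1 hm g x hx K 1 le_rfl h hh
  simpa using this

/-- intensity bound for a family of random fitness -/
lemma intensity_fl [IsProbabilityMeasure m] (μ : Measure ℝ) [IsProbabilityMeasure μ]
    (hμ : ∀ᵐ x ∂μ, 0 < x ∧ x ≤ 1)
    (γ : ℝ) (hγ0 : 0 ≤ γ) (hγ1 : γ ≤ 1)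
    (hm : ∀ g : Bool → ℝ≥0∞, ∫⁻ p, g p.2 ∂m =
      ENNReal.ofReal γ * g true + ENNReal.ofReal (1 - γ) * g false)
    (g : Bool × Bool → ℝ≥0∞) (h : ℝ → ℝ≥0∞) (hh : Measurable h) :
    ∑' k : ℕ, ∫⁻ d, h (eventAge d k) * g (d.2 k).2 ∂(fl μ m) ≤
      (∫⁻ p, g p ∂m) * ∫⁻ u in Set.Ioi (0:ℝ), h u *
        ∫⁻ x, ENNReal.ofReal (x * Real.exp (γ * x * u)) ∂μ := by
  have := isProb_evLaw m
  have hgm : Measurable g := Measurable.of_discrete
  have hmeas : ∀ k : ℕ, Measurable (fun d : FamilyData => h (eventAge d k) * g (d.2 k).2) := by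
    intro k
    apply Measurable.mul (hh.comp (measurable_eventAge k))
    exact hgm.comp (measurable_snd.comp ((measurable_pi_apply k).comp measurable_snd))
  have e1 : ∀ k : ℕ, ∫⁻ d, h (eventAge d k) * g (d.2 k).2 ∂(fl μ m) =
      ∫⁻ x, ∫⁻ s, h (ag x 1 s k) * g (s k).2 ∂(iid (evLaw m)) ∂μ := by
    intro k
    unfold fl
    rw [lintegral_prod _ (hmeas k).aemeasurable]
    simp_rw [eventAge_eq]
  simp_rw [e1]
  have hmeas2 : ∀ k : ℕ, Measurable (fun x : ℝ =>
      ∫⁻ s, h (ag x 1 s k) * g (s k).2 ∂(iid (evLaw m))) := by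
    intro k
    have := (hmeas k).lintegral_prod_right' (ν := iid (evLaw m))
    simp_rw [eventAge_eq] at this
    exact this
  rw [← lintegral_tsum (fun k => (hmeas2 k).aemeasurable)]
  have hkm : Measurable (fun p : ℝ × ℝ => h p.2 * ENNReal.ofReal (p.1 * Real.exp (γ * p.1 * p.2))) := by
    fun_prop
  calc ∫⁻ x, ∑' k : ℕ, ∫⁻ s, h (ag x 1 s k) * g (s k).2 ∂(iid (evLaw m)) ∂μ
      ≤ ∫⁻ x, ((∫⁻ p, g p ∂m) * ∫⁻ u in Set.Ioi (0:ℝ), h u *
          ENNReal.ofReal (x * Real.exp (γ * x * u))) ∂μ := by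
        apply lintegral_mono_ae
        filter_upwards [hμ] with x hx
        exact intensity_tsum m γ hγ0 hγ1 hm g x hx.1 h hh
    _ = (∫⁻ p, g p ∂m) * ∫⁻ x, (∫⁻ u in Set.Ioi (0:ℝ), h u *
          ENNReal.ofReal (x * Real.exp (γ * x * u))) ∂μ := by
        rw [lintegral_const_mul]
        exact hkm.lintegral_prod_right'
    _ = (∫⁻ p, g p ∂m) * ∫⁻ u in Set.Ioi (0:ℝ), h u *
        ∫⁻ x, ENNReal.ofReal (x * Real.exp (γ * x * u)) ∂μ := by
        congr 1
        rw [lintegral_lintegral_swap hkm.aemeasurable]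
        apply lintegral_congr
        intro u
        rw [lintegral_const_mul]
        fun_prop

/-- the mean size of a family of fitness `x` at age `r` -/
lemma mean_size_aux (γ : ℝ) (hγ0 : 0 ≤ γ) (x : ℝ) (hx : 0 ≤ x) (r : ℝ) (hr : 0 ≤ r) :
    1 + ENNReal.ofReal γ * ∫⁻ u in Set.Ioi (0:ℝ), (Set.Iic r).indicator 1 u *
      ENNReal.ofReal (x * Real.exp (γ * x * u)) = ENNReal.ofReal (Real.exp (γ * x * r)) := by
  have e1 : ∫⁻ u in Set.Ioi (0:ℝ), (Set.Iic r).indicator 1 u *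
      ENNReal.ofReal (x * Real.exp (γ * x * u)) =
      ∫⁻ u in Set.Ioc 0 r, ENNReal.ofReal (x * Real.exp (γ * x * u)) := by
    rw [← lintegral_indicator measurableSet_Ioi, ← lintegral_indicator measurableSet_Ioc]
    apply lintegral_congr
    intro u
    by_cases h1 : 0 < u
    · rw [Set.indicator_of_mem (show u ∈ Set.Ioi (0:ℝ) from h1)]
      by_cases h2 : u ≤ r
      · rw [Set.indicator_of_mem (show u ∈ Set.Iic r from h2),
          Set.indicator_of_mem (show u ∈ Set.Ioc 0 r from ⟨h1, h2⟩)]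
        simp
      · rw [Set.indicator_of_notMem (show u ∉ Set.Iic r from h2),
          Set.indicator_of_notMem (show u ∉ Set.Ioc 0 r from fun hc => h2 hc.2)]
        simp
    · rw [Set.indicator_of_notMem (show u ∉ Set.Ioi (0:ℝ) from h1),
        Set.indicator_of_notMem (show u ∉ Set.Ioc 0 r from fun hc => h1 hc.1)]
  have hcont : Continuous (fun u : ℝ => x * Real.exp (γ * x * u)) := by fun_prop
  rw [e1, ← ofReal_integral_eq_lintegral_ofReal, ← ENNReal.ofReal_mul hγ0, ← ENNReal.ofReal_one,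
    ← ENNReal.ofReal_add one_pos.le]
  · congr 1
    rw [← intervalIntegral.integral_of_le hr, ← intervalIntegral.integral_const_mul]
    have hderiv : ∀ v ∈ Set.uIcc 0 r, HasDerivAt
        (fun v : ℝ => Real.exp (γ * x * v)) (γ * (x * Real.exp (γ * x * v))) v := by
      intro v _
      have h0 : HasDerivAt (fun v : ℝ => γ * x * v) (γ * x) v := by
        simpa using ((hasDerivAt_id v).const_mul (γ * x))
      refine h0.exp.congr_deriv ?_
      ring
    rw [intervalIntegral.integral_eq_sub_of_hasDerivAt hderiv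
      ((hcont.const_mul γ).intervalIntegrable _ _)]
    simp
  · apply mul_nonneg hγ0
    apply setIntegral_nonneg measurableSet_Ioc
    intro u _
    positivity
  · exact (hcont.integrableOn_Icc (a := 0) (b := r)).mono_set Set.Ioc_subset_Icc_self
  · exact Filter.Eventually.of_forall (fun u => by positivity)

/-- the mean size of a family at age `r` -/
lemma mean_size [IsProbabilityMeasure m] (μ : Measure ℝ) [IsProbabilityMeasure μ]
    (hμ : ∀ᵐ x ∂μ, 0 < x ∧ x ≤ 1)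
    (γ : ℝ) (hγ0 : 0 ≤ γ) (hγ1 : γ ≤ 1)
    (hm : ∀ g : Bool → ℝ≥0∞, ∫⁻ p, g p.2 ∂m =
      ENNReal.ofReal γ * g true + ENNReal.ofReal (1 - γ) * g false) (r : ℝ) (hr : 0 ≤ r) :
    ∫⁻ d, (1 + ∑' k : ℕ, (Set.Iic r).indicator (1 : ℝ → ℝ≥0∞) (eventAge d k) *
        (if (d.2 k).2.2 = true then (1:ℝ≥0∞) else 0)) ∂(fl μ m) ≤
      ∫⁻ x, ENNReal.ofReal (Real.exp (γ * x * r)) ∂μ := by
  have := isProb_evLaw m
  have := isProb_fl μ m
  set g : Bool × Bool → ℝ≥0∞ := fun p => if p.2 = true then (1:ℝ≥0∞) else 0 with hg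
  have hgm : Measurable g := Measurable.of_discrete
  have hind : Measurable ((Set.Iic r).indicator (1 : ℝ → ℝ≥0∞)) :=
    measurable_const.indicator measurableSet_Iic
  have hmeas : ∀ k : ℕ, Measurable (fun d : FamilyData =>
      (Set.Iic r).indicator (1 : ℝ → ℝ≥0∞) (eventAge d k) * g (d.2 k).2) := by
    intro k
    apply Measurable.mul (hind.comp (measurable_eventAge k))
    exact hgm.comp (measurable_snd.comp ((measurable_pi_apply k).comp measurable_snd))
  have hgmean : ∫⁻ p, g p ∂m = ENNReal.ofReal γ := by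
    have := hm (fun b => if b = true then (1:ℝ≥0∞) else 0)
    simp only [if_true, Bool.false_eq_true, if_false, mul_one, mul_zero, add_zero] at this
    exact this
  have e1 : ∫⁻ d, (1 + ∑' k : ℕ, (Set.Iic r).indicator (1 : ℝ → ℝ≥0∞) (eventAge d k) *
        (if (d.2 k).2.2 = true then (1:ℝ≥0∞) else 0)) ∂(fl μ m) =
      1 + ∑' k : ℕ, ∫⁻ d, (Set.Iic r).indicator (1 : ℝ → ℝ≥0∞) (eventAge d k) *
        g (d.2 k).2 ∂(fl μ m) := by
    rw [lintegral_add_left measurable_const, lintegral_const, measure_univ, mul_one,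
      lintegral_tsum (fun k => (hmeas k).aemeasurable)]
  rw [e1]
  have h2 := intensity_fl m μ hμ γ hγ0 hγ1 hm g _ hind
  rw [hgmean] at h2
  refine (add_le_add le_rfl h2).trans ?_
  have hkm : Measurable (fun p : ℝ × ℝ => (Set.Iic r).indicator (1 : ℝ → ℝ≥0∞) p.2 *
      ENNReal.ofReal (p.1 * Real.exp (γ * p.1 * p.2))) := by
    have h3 : Measurable (fun p : ℝ × ℝ => (Set.Iic r).indicator (1 : ℝ → ℝ≥0∞) p.2) :=
      hind.comp measurable_snd
    exact h3.mul (by fun_prop)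
  have e2 : ∫⁻ u in Set.Ioi (0:ℝ), (Set.Iic r).indicator (1 : ℝ → ℝ≥0∞) u *
        ∫⁻ x, ENNReal.ofReal (x * Real.exp (γ * x * u)) ∂μ =
      ∫⁻ x, (∫⁻ u in Set.Ioi (0:ℝ), (Set.Iic r).indicator (1 : ℝ → ℝ≥0∞) u *
        ENNReal.ofReal (x * Real.exp (γ * x * u))) ∂μ := by
    rw [lintegral_lintegral_swap hkm.aemeasurable]
    apply lintegral_congr
    intro u
    rw [lintegral_const_mul]
    fun_prop
  rw [e2, ← lintegral_const_mul _ hkm.lintegral_prod_right']
  have e3 : (1:ℝ≥0∞) + ∫⁻ x, ENNReal.ofReal γ * (∫⁻ u in Set.Ioi (0:ℝ),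
      (Set.Iic r).indicator (1 : ℝ → ℝ≥0∞) u * ENNReal.ofReal (x * Real.exp (γ * x * u))) ∂μ =
      ∫⁻ x, (1 + ENNReal.ofReal γ * (∫⁻ u in Set.Ioi (0:ℝ),
      (Set.Iic r).indicator (1 : ℝ → ℝ≥0∞) u * ENNReal.ofReal (x * Real.exp (γ * x * u)))) ∂μ := by
    rw [lintegral_add_left measurable_const, lintegral_const, measure_univ, mul_one]
  rw [e3]
  apply lintegral_mono_ae
  filter_upwards [hμ] with x hx
  exact (mean_size_aux γ hγ0 x hx.1.le r hr).le

/-- the age at the `k`-th event is unlikely to be large -/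
lemma age_tail [IsProbabilityMeasure m] (γ : ℝ) (hγ0 : 0 ≤ γ) (hγ1 : γ ≤ 1)
    (hm : ∀ g : Bool → ℝ≥0∞, ∫⁻ p, g p.2 ∂m =
      ENNReal.ofReal γ * g true + ENNReal.ofReal (1 - γ) * g false)
    (x : ℝ) (hx : 0 < x) (k : ℕ) (b : ℝ) :
    (iid (evLaw m)) {s | b < ag x 1 s k} ≤
      ENNReal.ofReal (Real.sqrt (4 * k + 5) * Real.exp (-(γ * x / 2 * b))) := by
  have := isProb_evLaw m
  have h1 := age_mgf m γ hγ0 hγ1 hm x hx k 1 le_rfl
  have hmeas : Measurable (fun s : ℕ → Event => ENNReal.ofReal (Real.exp (γ * x / 2 * ag x 1 s k))) :=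
    (by fun_prop : Measurable (fun y : ℝ =>
      ENNReal.ofReal (Real.exp (γ * x / 2 * y)))).comp (measurable_ag' x 1 k)
  have h2 := mul_meas_ge_le_lintegral (μ := iid (evLaw m)) hmeas
    (ENNReal.ofReal (Real.exp (γ * x / 2 * b)))
  have hpos : 0 < Real.exp (γ * x / 2 * b) := Real.exp_pos _
  have h3 : (iid (evLaw m)) {s | b < ag x 1 s k} ≤ (iid (evLaw m)) {s |
      ENNReal.ofReal (Real.exp (γ * x / 2 * b)) ≤
      ENNReal.ofReal (Real.exp (γ * x / 2 * ag x 1 s k))} := by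
    apply measure_mono
    intro s hs
    simp only [Set.mem_ofPred_eq] at hs ⊢
    apply ENNReal.ofReal_le_ofReal
    apply Real.exp_le_exp.mpr
    apply mul_le_mul_of_nonneg_left hs.le
    positivity
  refine h3.trans ?_
  have h4 := h2.trans h1
  have h5 : (iid (evLaw m)) {s | ENNReal.ofReal (Real.exp (γ * x / 2 * b)) ≤
      ENNReal.ofReal (Real.exp (γ * x / 2 * ag x 1 s k))} ≤
      ENNReal.ofReal (Real.sqrt ((4 * (((1:ℕ):ℝ) + k) + 1) / (4 * ((1:ℕ):ℝ) - 3))) /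
      ENNReal.ofReal (Real.exp (γ * x / 2 * b)) := by
    rw [ENNReal.le_div_iff_mul_le (Or.inl (by simp [hpos])) (Or.inl ENNReal.ofReal_ne_top), mul_comm]
    exact h4
  refine h5.trans (le_of_eq ?_)
  rw [← ENNReal.ofReal_div_of_pos hpos, Real.exp_neg, div_eq_mul_inv]
  congr 3
  push_cast
  ring

/-- the size is unlikely to be small compared with the number of events -/
lemma size_tail [IsProbabilityMeasure m] (γ : ℝ) (hγ0 : 0 ≤ γ) (hγ1 : γ ≤ 1)
    (hm : ∀ g : Bool → ℝ≥0∞, ∫⁻ p, g p.2 ∂m =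
      ENNReal.ofReal γ * g true + ENNReal.ofReal (1 - γ) * g false) (k : ℕ) :
    (iid (evLaw m)) {s | (sz 1 s k : ℝ) ≤ γ / 4 * k} ≤ ENNReal.ofReal (Real.exp (-(γ / 4 * k))) := by
  have := isProb_evLaw m
  have h1 := size_mgf m γ hγ0 hγ1 hm k 1
  have hmeas : Measurable (fun s : ℕ → Event => ENNReal.ofReal ((1 / 2) ^ (sz 1 s k))) :=
    (Measurable.of_discrete (f := fun n : ℕ => ENNReal.ofReal ((1 / 2) ^ n))).comp (measurable_sz 1 k)
  have h2 := mul_meas_ge_le_lintegral (μ := iid (evLaw m)) hmeas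
    (ENNReal.ofReal (Real.exp (-(γ / 4 * k))))
  have hpos : 0 < Real.exp (-(γ / 4 * k)) := Real.exp_pos _
  have h3 : (iid (evLaw m)) {s | (sz 1 s k : ℝ) ≤ γ / 4 * k} ≤ (iid (evLaw m)) {s |
      ENNReal.ofReal (Real.exp (-(γ / 4 * k))) ≤ ENNReal.ofReal ((1 / 2) ^ (sz 1 s k))} := by
    apply measure_mono
    intro s hs
    simp only [Set.mem_ofPred_eq] at hs ⊢
    apply ENNReal.ofReal_le_ofReal
    have e1 : ((1:ℝ) / 2) ^ (sz 1 s k) = Real.exp (-(Real.log 2 * (sz 1 s k : ℝ))) := by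
      rw [← Real.rpow_natCast, Real.rpow_def_of_pos (by norm_num)]
      congr 1
      rw [one_div, Real.log_inv]; ring
    rw [e1]
    apply Real.exp_le_exp.mpr
    have hl : Real.log 2 ≤ 1 := by
      have := Real.log_two_lt_d9; linarith
    have hl0 : 0 ≤ Real.log 2 := Real.log_nonneg (by norm_num)
    have hsz0 : (0:ℝ) ≤ (sz 1 s k : ℝ) := Nat.cast_nonneg _
    nlinarith
  refine h3.trans ?_
  rw [h1] at h2
  have h5 : (iid (evLaw m)) {s | ENNReal.ofReal (Real.exp (-(γ / 4 * k))) ≤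
      ENNReal.ofReal ((1 / 2) ^ (sz 1 s k))} ≤
      ENNReal.ofReal ((1 / 2) ^ 1 * (1 - γ / 2) ^ k) / ENNReal.ofReal (Real.exp (-(γ / 4 * k))) := by
    rw [ENNReal.le_div_iff_mul_le (Or.inl (by simp [hpos])) (Or.inl ENNReal.ofReal_ne_top), mul_comm]
    exact h2
  refine h5.trans ?_
  rw [← ENNReal.ofReal_div_of_pos hpos]
  apply ENNReal.ofReal_le_ofReal
  rw [div_le_iff₀ hpos, ← Real.exp_add]
  have e2 : (1 - γ / 2) ^ k ≤ Real.exp (-(γ / 2 * k)) := by
    have h6 : 1 - γ / 2 ≤ Real.exp (-(γ / 2)) := by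
      have := Real.add_one_le_exp (-(γ / 2)); linarith
    calc (1 - γ / 2) ^ k ≤ (Real.exp (-(γ / 2))) ^ k :=
          pow_le_pow_left₀ (by linarith) h6 k
      _ = Real.exp (-(γ / 2 * k)) := by rw [← Real.exp_nat_mul]; congr 1; ring
  have e3 : Real.exp (-(γ / 4 * k) + -(γ / 4 * k)) = Real.exp (-(γ / 2 * k)) := by
    congr 1; ring
  rw [e3]
  have : (0:ℝ) ≤ (1 - γ / 2) ^ k := pow_nonneg (by linarith) k
  linarith

end Pool.Agent.H95.RBP
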