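import Mathlib

open Filter Topology
open scoped ENNReal

namespace Pool.Agent.H95.RBP

/-- sum over the words of length `g` -/
noncomputable def W : ℕ → (List ℕ → ℝ≥0∞) → ℝ≥0∞
  | 0, f => f []
  | g + 1, f => W g (fun u => ∑' k, f (k :: u))

lemma W_mono (g : ℕ) : ∀ {f f' : List ℕ → ℝ≥0∞}, (∀ u, f u ≤ f' u) → W g f ≤ W g f' := by
  induction g with
  | zero => intro f f' h; exact h []
  | succ g ih =>
    intro f f' h
    exact ih (fun u => ENNReal.tsum_le_tsum (fun k => h _))

lemma W_add (g : ℕ) : ∀ (f f' : List ℕ → ℝ≥0∞), W g (fun u => f u + f' u) = W g f + W g f' := by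
  induction g with
  | zero => intro f f'; rfl
  | succ g ih =>
    intro f f'
    simp only [W]
    rw [← ih]
    congr 1
    funext u
    exact ENNReal.tsum_add

lemma tsum_words_cons (F : List ℕ → ℝ≥0∞) :
    ∑' u : List ℕ, F u = F [] + ∑' u : List ℕ, ∑' k : ℕ, F (k :: u) := by
  have h0 : ∀ u : List ℕ, F u = (if u = [] then F [] else 0) + (if u = [] then 0 else F u) := by
    intro u
    by_cases h : u = []
    · simp [h]
    · simp [h]
  have h1 : ∑' u : List ℕ, F u = ∑' u : List ℕ, (if u = [] then F [] else 0) +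
      ∑' u : List ℕ, (if u = [] then 0 else F u) := by
    rw [← ENNReal.tsum_add]
    exact tsum_congr h0
  rw [h1, tsum_ite_eq]
  congr 1
  have hinj : Function.Injective (fun p : List ℕ × ℕ => p.2 :: p.1) := by
    rintro ⟨u, k⟩ ⟨u', k'⟩ h
    simp only [List.cons.injEq] at h
    simp [h.1, h.2]
  have hsupp : Function.support (fun u : List ℕ => if u = [] then 0 else F u) ⊆
      Set.range (fun p : List ℕ × ℕ => p.2 :: p.1) := by
    intro u hu
    cases u with
    | nil => simp at hu
    | cons k u => exact ⟨(u, k), rfl⟩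
  rw [← hinj.tsum_eq hsupp, ENNReal.tsum_prod']
  simp

lemma tsum_words_lt (G : ℕ) : ∀ f : List ℕ → ℝ≥0∞,
    ∑' u : List ℕ, (if u.length < G then f u else 0) = ∑ g ∈ Finset.range G, W g f := by
  induction G with
  | zero => intro f; simp
  | succ G ih =>
    intro f
    rw [tsum_words_cons, Finset.sum_range_succ']
    have h1 : ∀ u : List ℕ, ∑' k : ℕ, (if (k :: u).length < G + 1 then f (k :: u) else 0) =
        if u.length < G then ∑' k : ℕ, f (k :: u) else 0 := by
      intro u
      by_cases h : u.length < G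
      · simp [h]
      · simp [h]
    simp_rw [h1]
    rw [ih]
    simp only [List.length_nil, Nat.zero_lt_succ, if_true, W]
    rw [add_comm]

lemma tsum_words_le {f : List ℕ → ℝ≥0∞} {C : ℝ≥0∞}
    (h : ∀ G : ℕ, ∑ g ∈ Finset.range G, W g f ≤ C) : ∑' u : List ℕ, f u ≤ C := by
  rw [ENNReal.tsum_eq_iSup_sum]
  apply iSup_le
  intro s
  have hG : ∀ u ∈ s, u.length < s.sup (fun u => u.length + 1) := by
    intro u hu
    exact Nat.lt_of_succ_le (Finset.le_sup (f := fun u : List ℕ => u.length + 1) hu)
  calc ∑ u ∈ s, f u = ∑ u ∈ s, (if u.length < s.sup (fun u => u.length + 1) then f u else 0) := by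
        apply Finset.sum_congr rfl
        intro u hu
        rw [if_pos (hG u hu)]
    _ ≤ ∑' u : List ℕ, (if u.length < s.sup (fun u => u.length + 1) then f u else 0) :=
        ENNReal.sum_le_tsum s
    _ = _ := tsum_words_lt _ f
    _ ≤ C := h _

end Pool.Agent.H95.RBP
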