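import Mathlib
import Pool.Agent.H95.RBP.Family3
import Pool.Agent.H95.RBP.Words

open MeasureTheory ProbabilityTheory Filter Topology
open scoped ENNReal

namespace Pool.Agent.H95.RBP

open Pool.Agent.H95

lemma founded_update (d : FamilyData) (v : List ℕ) (ω : List ℕ → FamilyData) :
    ∀ u : List ℕ, u.length ≤ v.length → (Founded (Function.update ω v d) u ↔ Founded ω u) := by
  intro u
  induction u with
  | nil => intro _; rfl
  | cons k u ih =>
    intro h
    simp only [List.length_cons] at h
    have hne : u ≠ v := by rintro rfl; omega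
    simp only [Founded]
    rw [ih (by omega), Function.update_of_ne hne]

lemma foundTime_update (d : FamilyData) (v : List ℕ) (ω : List ℕ → FamilyData) :
    ∀ u : List ℕ, u.length ≤ v.length →
      foundTime (Function.update ω v d) u = foundTime ω u := by
  intro u
  induction u with
  | nil => intro _; rfl
  | cons k u ih =>
    intro h
    simp only [List.length_cons] at h
    have hne : u ≠ v := by rintro rfl; omega
    simp only [foundTime]
    rw [ih (by omega), Function.update_of_ne hne]

lemma measurable_foundTime (u : List ℕ) :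
    Measurable (fun ω : List ℕ → FamilyData => foundTime ω u) := by
  induction u with
  | nil => exact measurable_const
  | cons k u ih =>
    simp only [foundTime]
    exact ih.add ((measurable_eventAge k).comp (measurable_pi_apply u))

lemma measurableSet_found (k : ℕ) : MeasurableSet {d : FamilyData | (d.2 k).2.1 = true} := by
  have h : Measurable (fun d : FamilyData => (d.2 k).2.1) :=
    measurable_fst.comp (measurable_snd.comp ((measurable_pi_apply k).comp measurable_snd))
  exact h (measurableSet_singleton true)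

lemma measurableSet_founded (u : List ℕ) :
    MeasurableSet {ω : List ℕ → FamilyData | Founded ω u} := by
  induction u with
  | nil => exact MeasurableSet.univ
  | cons k u ih =>
    simp only [Founded]
    have h1 : Measurable (fun ω : List ℕ → FamilyData => ω u) := measurable_pi_apply u
    have h2 : MeasurableSet {ω : List ℕ → FamilyData | ((ω u).2 k).2.1 = true} :=
      h1 (measurableSet_found k)
    exact ih.inter h2

open Classical in
/-- indicator of the existence of the family -/
noncomputable def fnd (ω : List ℕ → FamilyData) (u : List ℕ) : ℝ≥0∞ := if Founded ω u then 1 else 0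

/-- indicator of the `k`-th event founding a family -/
noncomputable def fk (d : FamilyData) (k : ℕ) : ℝ≥0∞ := if (d.2 k).2.1 = true then 1 else 0

lemma fnd_cons (ω : List ℕ → FamilyData) (k : ℕ) (u : List ℕ) :
    fnd ω (k :: u) = fnd ω u * fk (ω u) k := by
  unfold fnd fk
  by_cases h1 : Founded ω u
  · by_cases h2 : ((ω u).2 k).2.1 = true
    · simp [Founded, h1, h2]
    · simp [Founded, h1, h2]
  · simp [Founded, h1]

lemma fnd_update (d : FamilyData) (v : List ℕ) (ω : List ℕ → FamilyData) (u : List ℕ)
    (h : u.length ≤ v.length) : fnd (Function.update ω v d) u = fnd ω u := by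
  unfold fnd
  have h0 := founded_update d v ω u h
  by_cases h1 : Founded ω u
  · rw [if_pos h1, if_pos (h0.mpr h1)]
  · rw [if_neg h1, if_neg (fun hc => h1 (h0.mp hc))]

lemma measurable_fnd (u : List ℕ) : Measurable (fun ω : List ℕ → FamilyData => fnd ω u) := by
  unfold fnd
  exact Measurable.ite (measurableSet_founded u) measurable_const measurable_const

lemma measurable_fk (k : ℕ) : Measurable (fun d : FamilyData => fk d k) := by
  unfold fk
  exact Measurable.ite (measurableSet_found k) measurable_const measurable_const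

variable (μ : Measure ℝ) [IsProbabilityMeasure μ] (m : Measure (Bool × Bool))
  [IsProbabilityMeasure m]

/-- law of the process, for a general law of the marks -/
noncomputable abbrev pl (μ : Measure ℝ) (m : Measure (Bool × Bool)) :
    Measure (List ℕ → FamilyData) := Measure.infinitePi (fun _ : List ℕ => fl μ m)

/-- expected contribution of the word `u` -/
noncomputable def A (Ψ : ℝ → ℝ≥0∞) (t : ℝ) (u : List ℕ) : ℝ≥0∞ :=
  ∫⁻ ω, fnd ω u * Ψ (t - foundTime ω u) ∂(pl μ m)

omit [IsProbabilityMeasure μ] [IsProbabilityMeasure m] in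
lemma A_mono {Ψ Ψ' : ℝ → ℝ≥0∞} (h : ∀ r, Ψ r ≤ Ψ' r) (t : ℝ) (u : List ℕ) :
    A μ m Ψ t u ≤ A μ m Ψ' t u := by
  unfold A
  apply lintegral_mono
  intro ω
  exact mul_le_mul_right (h _) _

omit [IsProbabilityMeasure μ] [IsProbabilityMeasure m] in
lemma A_add {Ψ Ψ' : ℝ → ℝ≥0∞} (hΨ : Measurable Ψ) (t : ℝ) (u : List ℕ) :
    A μ m (fun r => Ψ r + Ψ' r) t u = A μ m Ψ t u + A μ m Ψ' t u := by
  unfold A
  rw [← lintegral_add_left]
  · apply lintegral_congr
    intro ω
    rw [mul_add]
  · exact (measurable_fnd u).mul (hΨ.comp ((measurable_foundTime u).const_sub t))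

/-- the intensity kernel of one generation -/
noncomputable def kap (γ : ℝ) (μ : Measure ℝ) (s : ℝ) : ℝ≥0∞ :=
  ∫⁻ x, ENNReal.ofReal (x * Real.exp (γ * x * s)) ∂μ

/-- the one-generation operator -/
noncomputable def NN (β γ : ℝ) (μ : Measure ℝ) (Ψ : ℝ → ℝ≥0∞) (r : ℝ) : ℝ≥0∞ :=
  ENNReal.ofReal β * ∫⁻ s in Set.Ioi (0:ℝ), Ψ (r - s) * kap γ μ s

lemma A_step (hμ : ∀ᵐ x ∂μ, 0 < x ∧ x ≤ 1) (β γ : ℝ) (hγ0 : 0 ≤ γ) (hγ1 : γ ≤ 1)
    (hm : ∀ g : Bool → ℝ≥0∞, ∫⁻ p, g p.2 ∂m =
      ENNReal.ofReal γ * g true + ENNReal.ofReal (1 - γ) * g false)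
    (hm1 : ∫⁻ p, (if p.1 = true then (1:ℝ≥0∞) else 0) ∂m = ENNReal.ofReal β)
    {Ψ : ℝ → ℝ≥0∞} (hΨ : Measurable Ψ) (t : ℝ) (u : List ℕ) :
    ∑' k : ℕ, A μ m Ψ t (k :: u) ≤ A μ m (NN β γ μ Ψ) t u := by
  have := isProb_fl μ m
  have hmeasΨ : ∀ k : ℕ, Measurable (fun p : (List ℕ → FamilyData) × FamilyData =>
      Ψ (t - foundTime p.1 u - eventAge p.2 k)) := by
    intro k
    apply hΨ.comp
    apply Measurable.sub
    · exact ((measurable_foundTime u).const_sub t).comp measurable_fst
    · exact (measurable_eventAge k).comp measurable_snd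
  have h1 : ∀ k : ℕ, A μ m Ψ t (k :: u) = ∫⁻ ω, fnd ω u *
      ∫⁻ d, fk d k * Ψ (t - foundTime ω u - eventAge d k) ∂(fl μ m) ∂(pl μ m) := by
    intro k
    unfold A
    rw [lintegral_resample (fl μ m) u]
    · apply lintegral_congr
      intro ω
      rw [← lintegral_const_mul]
      · apply lintegral_congr
        intro d
        rw [fnd_cons, fnd_update d u ω u le_rfl, Function.update_self]
        simp only [foundTime]
        rw [foundTime_update d u ω u le_rfl, Function.update_self, mul_assoc, sub_sub]
      · exact (measurable_fk k).mul (hΨ.comp ((measurable_eventAge k).const_sub _))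
    · exact (measurable_fnd (k :: u)).mul (hΨ.comp ((measurable_foundTime (k :: u)).const_sub t))
  simp_rw [h1]
  have hmeas2 : ∀ k : ℕ, Measurable (fun ω : List ℕ → FamilyData => fnd ω u *
      ∫⁻ d, fk d k * Ψ (t - foundTime ω u - eventAge d k) ∂(fl μ m)) := by
    intro k
    apply (measurable_fnd u).mul
    apply Measurable.lintegral_prod_right' (f := fun p : (List ℕ → FamilyData) × FamilyData =>
      fk p.2 k * Ψ (t - foundTime p.1 u - eventAge p.2 k))
    exact ((measurable_fk k).comp measurable_snd).mul (hmeasΨ k)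
  rw [← lintegral_tsum (fun k => (hmeas2 k).aemeasurable)]
  unfold A
  apply lintegral_mono
  intro ω
  simp only
  rw [ENNReal.tsum_mul_left]
  apply mul_le_mul_right
  have h2 := intensity_fl m μ hμ γ hγ0 hγ1 hm (fun p => if p.1 = true then (1:ℝ≥0∞) else 0)
    (fun s => Ψ (t - foundTime ω u - s)) (hΨ.comp (measurable_id.const_sub _))
  rw [hm1] at h2
  refine le_trans (le_of_eq ?_) h2
  apply tsum_congr
  intro k
  apply lintegral_congr
  intro d
  rw [mul_comm]
  rfl

/-- mean size of a family at age `r ≥ 0` -/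
noncomputable def zb (γ : ℝ) (μ : Measure ℝ) (r : ℝ) : ℝ≥0∞ :=
  (Set.Ici (0:ℝ)).indicator (fun r => ∫⁻ x, ENNReal.ofReal (Real.exp (γ * x * r)) ∂μ) r

lemma measurable_zb (γ : ℝ) : Measurable (zb γ μ) := by
  unfold zb
  apply Measurable.indicator _ measurableSet_Ici
  apply Measurable.lintegral_prod_right' (f := fun p : ℝ × ℝ =>
    ENNReal.ofReal (Real.exp (γ * p.2 * p.1)))
  fun_prop

/-- size of a family at age `r` -/
noncomputable def sizeFun (r : ℝ) (d : FamilyData) : ℝ≥0∞ :=
  1 + ∑' k : ℕ, (Set.Iic r).indicator (1 : ℝ → ℝ≥0∞) (eventAge d k) *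
        (if (d.2 k).2.2 = true then (1:ℝ≥0∞) else 0)

lemma familySize_eq (ω : List ℕ → FamilyData) (u : List ℕ) (t : ℝ) :
    familySize ω u t = fnd ω u * ((Set.Ici (0:ℝ)).indicator 1 (t - foundTime ω u) *
      sizeFun (t - foundTime ω u) (ω u)) := by
  classical
  unfold familySize fnd sizeFun
  by_cases h1 : Founded ω u
  · by_cases h2 : foundTime ω u ≤ t
    · have h3 : (Set.Ici (0:ℝ)).indicator (1 : ℝ → ℝ≥0∞) (t - foundTime ω u) = 1 := by
        rw [Set.indicator_of_mem]
        · rfl
        · exact sub_nonneg.mpr h2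
      rw [if_pos ⟨h1, h2⟩, if_pos h1, h3, one_mul, one_mul]
      congr 1
      apply tsum_congr
      intro k
      by_cases h4 : eventAge (ω u) k ≤ t - foundTime ω u
      · have h5 : foundTime ω u + eventAge (ω u) k ≤ t := by linarith
        rw [Set.indicator_of_mem (show eventAge (ω u) k ∈ Set.Iic (t - foundTime ω u) from h4)]
        simp [h5]
      · have h5 : ¬ foundTime ω u + eventAge (ω u) k ≤ t := by
          intro hc; exact h4 (by linarith)
        rw [Set.indicator_of_notMem (show eventAge (ω u) k ∉ Set.Iic (t - foundTime ω u) from h4)]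
        simp [h5]
    · have h3 : (Set.Ici (0:ℝ)).indicator (1 : ℝ → ℝ≥0∞) (t - foundTime ω u) = 0 := by
        rw [Set.indicator_of_notMem]
        intro hc
        exact h2 (sub_nonneg.mp hc)
      rw [if_neg (fun hc => h2 hc.2), h3, zero_mul, mul_zero]
  · rw [if_neg (fun hc => h1 hc.1), if_neg h1, zero_mul]

lemma measurableSet_add (k : ℕ) : MeasurableSet {d : FamilyData | (d.2 k).2.2 = true} := by
  have h : Measurable (fun d : FamilyData => (d.2 k).2.2) :=
    measurable_snd.comp (measurable_snd.comp ((measurable_pi_apply k).comp measurable_snd))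
  exact h (measurableSet_singleton true)

/-- the inner function is jointly measurable -/
lemma measurable_sizeFun : Measurable (fun p : ℝ × FamilyData => sizeFun p.1 p.2) := by
  unfold sizeFun
  apply Measurable.const_add
  apply Measurable.tsum
  intro k
  apply Measurable.mul
  · have h : ∀ p : ℝ × FamilyData, (Set.Iic p.1).indicator (1 : ℝ → ℝ≥0∞) (eventAge p.2 k) =
        {p : ℝ × FamilyData | eventAge p.2 k ≤ p.1}.indicator (fun _ => (1:ℝ≥0∞)) p := by
      intro p
      by_cases hp : eventAge p.2 k ≤ p.1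
      · rw [Set.indicator_of_mem (show eventAge p.2 k ∈ Set.Iic p.1 from hp),
          Set.indicator_of_mem (show p ∈ {p : ℝ × FamilyData | eventAge p.2 k ≤ p.1} from hp)]
        rfl
      · rw [Set.indicator_of_notMem (show eventAge p.2 k ∉ Set.Iic p.1 from hp),
          Set.indicator_of_notMem (show p ∉ {p : ℝ × FamilyData | eventAge p.2 k ≤ p.1} from hp)]
    simp_rw [h]
    exact measurable_const.indicator
      (measurableSet_le ((measurable_eventAge k).comp measurable_snd) measurable_fst)
  · exact Measurable.ite (measurable_snd (measurableSet_add k)) measurable_const measurable_const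

lemma measurable_sizeFun_comp {Ω : Type*} [MeasurableSpace Ω] {f : Ω → ℝ} {g : Ω → FamilyData}
    (hf : Measurable f) (hg : Measurable g) : Measurable (fun ω => sizeFun (f ω) (g ω)) := by
  have h := hf.prodMk hg
  have h2 := measurable_sizeFun.comp h
  exact h2

lemma measurable_familySize (u : List ℕ) (t : ℝ) :
    Measurable (fun ω : List ℕ → FamilyData => familySize ω u t) := by
  have h1 : Measurable (fun ω : List ℕ → FamilyData => t - foundTime ω u) :=
    (measurable_foundTime u).const_sub t
  have h2 : Measurable (fun ω : List ℕ → FamilyData => ω u) := measurable_pi_apply u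
  have h3 := measurable_sizeFun_comp h1 h2
  have h4 : Measurable (fun ω : List ℕ → FamilyData =>
      (Set.Ici (0:ℝ)).indicator (1 : ℝ → ℝ≥0∞) (t - foundTime ω u)) :=
    (measurable_one.indicator measurableSet_Ici).comp h1
  have h5 : Measurable (fun ω : List ℕ → FamilyData => fnd ω u *
      ((Set.Ici (0:ℝ)).indicator (1 : ℝ → ℝ≥0∞) (t - foundTime ω u) *
      sizeFun (t - foundTime ω u) (ω u))) := (measurable_fnd u).mul (h4.mul h3)
  have h6 : (fun ω : List ℕ → FamilyData => familySize ω u t) =
      (fun ω : List ℕ → FamilyData => fnd ω u *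
      ((Set.Ici (0:ℝ)).indicator (1 : ℝ → ℝ≥0∞) (t - foundTime ω u) *
      sizeFun (t - foundTime ω u) (ω u))) := by
    funext ω
    exact familySize_eq ω u t
  rw [h6]
  exact h5

lemma mean_familySize (hμ : ∀ᵐ x ∂μ, 0 < x ∧ x ≤ 1) (γ : ℝ) (hγ0 : 0 ≤ γ) (hγ1 : γ ≤ 1)
    (hm : ∀ g : Bool → ℝ≥0∞, ∫⁻ p, g p.2 ∂m =
      ENNReal.ofReal γ * g true + ENNReal.ofReal (1 - γ) * g false) (t : ℝ) (u : List ℕ) :
    ∫⁻ ω, familySize ω u t ∂(pl μ m) ≤ A μ m (zb γ μ) t u := by
  have := isProb_fl μ m
  rw [lintegral_resample (fl μ m) u (measurable_familySize u t)]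
  unfold A
  apply lintegral_mono
  intro ω
  simp only
  have h1 : ∀ d : FamilyData, familySize (Function.update ω u d) u t =
      (fnd ω u * (Set.Ici (0:ℝ)).indicator 1 (t - foundTime ω u)) *
      sizeFun (t - foundTime ω u) d := by
    intro d
    rw [familySize_eq, fnd_update d u ω u le_rfl, foundTime_update d u ω u le_rfl,
      Function.update_self, mul_assoc]
  have h3 : Measurable (fun d : FamilyData => sizeFun (t - foundTime ω u) d) :=
    measurable_sizeFun_comp measurable_const measurable_id
  simp_rw [h1]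
  rw [lintegral_const_mul _ h3, mul_assoc]
  apply mul_le_mul_right
  unfold zb
  by_cases h2 : 0 ≤ t - foundTime ω u
  · rw [Set.indicator_of_mem (show t - foundTime ω u ∈ Set.Ici (0:ℝ) from h2),
      Set.indicator_of_mem (show t - foundTime ω u ∈ Set.Ici (0:ℝ) from h2), Pi.one_apply, one_mul]
    exact mean_size m μ hμ γ hγ0 hγ1 hm _ h2
  · rw [Set.indicator_of_notMem (show t - foundTime ω u ∉ Set.Ici (0:ℝ) from h2), zero_mul]
    exact bot_le

/-- First moment bound by a supersolution. -/
theorem mean_population_le (hμ : ∀ᵐ x ∂μ, 0 < x ∧ x ≤ 1) (β γ : ℝ) (hγ0 : 0 ≤ γ) (hγ1 : γ ≤ 1)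
    (hm : ∀ g : Bool → ℝ≥0∞, ∫⁻ p, g p.2 ∂m =
      ENNReal.ofReal γ * g true + ENNReal.ofReal (1 - γ) * g false)
    (hm1 : ∫⁻ p, (if p.1 = true then (1:ℝ≥0∞) else 0) ∂m = ENNReal.ofReal β)
    {Φ : ℝ → ℝ≥0∞} (hΦ : Measurable Φ) (hsup : ∀ r, zb γ μ r + NN β γ μ Φ r ≤ Φ r) (t : ℝ) :
    ∫⁻ ω, population ω t ∂(pl μ m) ≤ Φ t := by
  have := isProb_fl μ m
  have key : ∀ G : ℕ, ∑ g ∈ Finset.range G, W g (A μ m (zb γ μ) t) + W G (A μ m Φ t) ≤ Φ t := by
    intro G
    induction G with
    | zero =>
      simp only [Finset.range_zero, Finset.sum_empty, zero_add, W, A]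
      have h1 : ∀ ω : List ℕ → FamilyData, fnd ω [] * Φ (t - foundTime ω []) = Φ t := by
        intro ω
        simp [fnd, Founded, foundTime]
      simp_rw [h1]
      rw [lintegral_const, measure_univ, mul_one]
    | succ G ih =>
      refine le_trans ?_ ih
      rw [Finset.sum_range_succ, add_assoc]
      apply add_le_add le_rfl
      calc W G (A μ m (zb γ μ) t) + W (G + 1) (A μ m Φ t)
          ≤ W G (A μ m (zb γ μ) t) + W G (A μ m (NN β γ μ Φ) t) := by
            apply add_le_add le_rfl
            apply W_mono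
            intro u
            exact A_step μ m hμ β γ hγ0 hγ1 hm hm1 hΦ t u
        _ = W G (fun u => A μ m (zb γ μ) t u + A μ m (NN β γ μ Φ) t u) := (W_add G _ _).symm
        _ = W G (A μ m (fun r => zb γ μ r + NN β γ μ Φ r) t) := by
            congr 1
            funext u
            exact (A_add μ m (measurable_zb μ γ) t u).symm
        _ ≤ W G (A μ m Φ t) := by
            apply W_mono
            intro u
            exact A_mono μ m hsup t u
  unfold population
  rw [lintegral_tsum (fun u => (measurable_familySize u t).aemeasurable)]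
  apply tsum_words_le
  intro G
  calc ∑ g ∈ Finset.range G, W g (fun u => ∫⁻ ω, familySize ω u t ∂(pl μ m))
      ≤ ∑ g ∈ Finset.range G, W g (A μ m (zb γ μ) t) := by
        apply Finset.sum_le_sum
        intro g _
        apply W_mono
        intro u
        exact mean_familySize μ m hμ γ hγ0 hγ1 hm t u
    _ ≤ _ := le_trans le_self_add (key G)

end Pool.Agent.H95.RBP
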