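import Mathlib
import Pool.Agent.H95.RBP.Tree

open MeasureTheory ProbabilityTheory Filter Topology
open scoped ENNReal

namespace Pool.Agent.H95.RBP

open Pool.Agent.H95

variable (μ : Measure ℝ) [IsProbabilityMeasure μ] (m : Measure (Bool × Bool))
  [IsProbabilityMeasure m]

/-- law of the data of one family -/
lemma marginal (u : List ℕ) {S : Set FamilyData} (hS : MeasurableSet S) :
    (pl μ m) {ω | ω u ∈ S} = (fl μ m) S := by
  have := isProb_fl μ m
  have hmp : MeasurePreserving (fun ω : List ℕ → FamilyData => ω u) (pl μ m) (fl μ m) :=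
    measurePreserving_eval_infinitePi (fun _ : List ℕ => fl μ m) u
  exact hmp.measure_preimage hS.nullMeasurableSet

lemma measurableSet_fit (y : ℝ) : MeasurableSet {d : FamilyData | y < d.1} :=
  measurableSet_lt measurable_const measurable_fst

omit [IsProbabilityMeasure μ] in
/-- a family of large fitness is unlikely to be slow -/
lemma fam_slow (γ : ℝ) (hγ0 : 0 ≤ γ) (hγ1 : γ ≤ 1)
    (hm : ∀ g : Bool → ℝ≥0∞, ∫⁻ p, g p.2 ∂m =
      ENNReal.ofReal γ * g true + ENNReal.ofReal (1 - γ) * g false)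
    (y : ℝ) (hy : 0 ≤ y) (k : ℕ) (b : ℝ) (hb : 0 ≤ b) :
    (fl μ m) {d | y < d.1 ∧ b < eventAge d k} ≤
      μ (Set.Ioi y) * ENNReal.ofReal (Real.sqrt (4 * k + 5) * Real.exp (-(γ * y / 2 * b))) := by
  have := isProb_evLaw m
  have hS : MeasurableSet {d : FamilyData | y < d.1 ∧ b < eventAge d k} :=
    (measurableSet_fit y).inter (measurableSet_lt measurable_const (measurable_eventAge k))
  unfold fl
  rw [Measure.prod_apply hS]
  have h1 : ∀ x : ℝ, (iid (evLaw m)) (Prod.mk x ⁻¹' {d : FamilyData | y < d.1 ∧ b < eventAge d k}) ≤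
      (Set.Ioi y).indicator (fun _ => ENNReal.ofReal
        (Real.sqrt (4 * k + 5) * Real.exp (-(γ * y / 2 * b)))) x := by
    intro x
    by_cases hx : y < x
    · rw [Set.indicator_of_mem (show x ∈ Set.Ioi y from hx)]
      have h2 : Prod.mk x ⁻¹' {d : FamilyData | y < d.1 ∧ b < eventAge d k} =
          {s | b < ag x 1 s k} := by
        ext s
        simp only [Set.mem_preimage, Set.mem_ofPred_eq, eventAge_eq]
        exact ⟨fun h => h.2, fun h => ⟨hx, h⟩⟩
      rw [h2]
      refine (age_tail m γ hγ0 hγ1 hm x (lt_of_le_of_lt hy hx) k b).trans ?_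
      apply ENNReal.ofReal_le_ofReal
      apply mul_le_mul_of_nonneg_left _ (Real.sqrt_nonneg _)
      apply Real.exp_le_exp.mpr
      have : γ * y / 2 * b ≤ γ * x / 2 * b := by gcongr
      linarith
    · rw [Set.indicator_of_notMem (show x ∉ Set.Ioi y from hx)]
      have h2 : Prod.mk x ⁻¹' {d : FamilyData | y < d.1 ∧ b < eventAge d k} = ∅ := by
        ext s
        simp only [Set.mem_preimage, Set.mem_ofPred_eq, Set.mem_empty_iff_false, iff_false]
        exact fun h => hx h.1
      rw [h2, measure_empty]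
  refine (lintegral_mono h1).trans ?_
  rw [lintegral_indicator_const measurableSet_Ioi, mul_comm]

omit [IsProbabilityMeasure μ] in
/-- a family of large fitness is unlikely to be small after many events -/
lemma fam_small (γ : ℝ) (hγ0 : 0 ≤ γ) (hγ1 : γ ≤ 1)
    (hm : ∀ g : Bool → ℝ≥0∞, ∫⁻ p, g p.2 ∂m =
      ENNReal.ofReal γ * g true + ENNReal.ofReal (1 - γ) * g false)
    (y : ℝ) (k : ℕ) :
    (fl μ m) {d | y < d.1 ∧ (sizeBefore d k : ℝ) ≤ γ / 4 * k} ≤
      μ (Set.Ioi y) * ENNReal.ofReal (Real.exp (-(γ / 4 * k))) := by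
  have := isProb_evLaw m
  have hsz : Measurable (fun d : FamilyData => (sizeBefore d k : ℝ)) := by
    simp_rw [sizeBefore_eq]
    exact (measurable_from_top (f := fun n : ℕ => (n:ℝ))).comp ((measurable_sz 1 k).comp measurable_snd)
  have hS : MeasurableSet {d : FamilyData | y < d.1 ∧ (sizeBefore d k : ℝ) ≤ γ / 4 * k} :=
    (measurableSet_fit y).inter (measurableSet_le hsz measurable_const)
  unfold fl
  rw [Measure.prod_apply hS]
  have h1 : ∀ x : ℝ, (iid (evLaw m)) (Prod.mk x ⁻¹'
      {d : FamilyData | y < d.1 ∧ (sizeBefore d k : ℝ) ≤ γ / 4 * k}) ≤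
      (Set.Ioi y).indicator (fun _ => ENNReal.ofReal (Real.exp (-(γ / 4 * k)))) x := by
    intro x
    by_cases hx : y < x
    · rw [Set.indicator_of_mem (show x ∈ Set.Ioi y from hx)]
      have h2 : Prod.mk x ⁻¹' {d : FamilyData | y < d.1 ∧ (sizeBefore d k : ℝ) ≤ γ / 4 * k} =
          {s | (sz 1 s k : ℝ) ≤ γ / 4 * k} := by
        ext s
        simp only [Set.mem_preimage, Set.mem_ofPred_eq, sizeBefore_eq]
        exact ⟨fun h => h.2, fun h => ⟨hx, h⟩⟩
      rw [h2]
      exact size_tail m γ hγ0 hγ1 hm k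
    · rw [Set.indicator_of_notMem (show x ∉ Set.Ioi y from hx)]
      have h2 : Prod.mk x ⁻¹' {d : FamilyData | y < d.1 ∧ (sizeBefore d k : ℝ) ≤ γ / 4 * k} = ∅ := by
        ext s
        simp only [Set.mem_preimage, Set.mem_ofPred_eq, Set.mem_empty_iff_false, iff_false]
        exact fun h => hx h.1
      rw [h2, measure_empty]
  refine (lintegral_mono h1).trans ?_
  rw [lintegral_indicator_const measurableSet_Ioi, mul_comm]

/-- product over the children, resampling the fitnesses -/
lemma children_resample (v : List ℕ) (h : Bool → ℝ → ℝ≥0∞) (hh : ∀ b, Measurable (h b)) (n : ℕ) :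
    ∀ R : FamilyData → ℝ≥0∞, Measurable R →
    ∫⁻ ω, (∏ j ∈ Finset.range n, h ((ω v).2 j).2.1 (ω (j :: v)).1) * R (ω v) ∂(pl μ m) =
      ∫⁻ ω, (∏ j ∈ Finset.range n, (fun b => ∫⁻ d, h b d.1 ∂(fl μ m)) ((ω v).2 j).2.1) * R (ω v)
        ∂(pl μ m) := by
  have := isProb_fl μ m
  have hjoint : Measurable (fun p : Bool × ℝ => h p.1 p.2) := by
    exact measurable_from_prod_countable_right hh
  have hfound : ∀ j : ℕ, Measurable (fun d : FamilyData => (d.2 j).2.1) := fun j =>
    measurable_fst.comp (measurable_snd.comp ((measurable_pi_apply j).comp measurable_snd))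
  have hev : ∀ u : List ℕ, Measurable (fun ω : List ℕ → FamilyData => ω u) :=
    fun u => measurable_pi_apply u
  have hfac : ∀ j : ℕ, Measurable (fun ω : List ℕ → FamilyData =>
      h ((ω v).2 j).2.1 (ω (j :: v)).1) := by
    intro j
    have h1 : Measurable (fun ω : List ℕ → FamilyData => (((ω v).2 j).2.1, (ω (j :: v)).1)) :=
      ((hfound j).comp (hev v)).prodMk (measurable_fst.comp (hev (j :: v)))
    exact hjoint.comp h1
  induction n with
  | zero => intro R _; simp
  | succ n ih =>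
    intro R hR
    have hprod : Measurable (fun ω : List ℕ → FamilyData =>
        (∏ j ∈ Finset.range (n + 1), h ((ω v).2 j).2.1 (ω (j :: v)).1) * R (ω v)) :=
      (Finset.measurable_fun_prod _ (fun j _ => hfac j)).mul (hR.comp (hev v))
    rw [lintegral_resample (fl μ m) (n :: v) hprod]
    have hne : v ≠ n :: v := by
      intro hc
      have := congrArg List.length hc
      simp at this
    have h1 : ∀ (ω : List ℕ → FamilyData) (d : FamilyData),
        (∏ j ∈ Finset.range (n + 1), h ((Function.update ω (n :: v) d v).2 j).2.1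
          (Function.update ω (n :: v) d (j :: v)).1) * R (Function.update ω (n :: v) d v) =
        (∏ j ∈ Finset.range n, h ((ω v).2 j).2.1 (ω (j :: v)).1) * R (ω v) *
          h ((ω v).2 n).2.1 d.1 := by
      intro ω d
      rw [Function.update_of_ne hne, Finset.prod_range_succ, Function.update_self]
      have h2 : ∏ j ∈ Finset.range n, h ((ω v).2 j).2.1 (Function.update ω (n :: v) d (j :: v)).1 =
          ∏ j ∈ Finset.range n, h ((ω v).2 j).2.1 (ω (j :: v)).1 := by
        apply Finset.prod_congr rfl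
        intro j hj
        have hjn : j ≠ n := (Finset.mem_range.mp hj).ne
        rw [Function.update_of_ne]
        intro hc
        simp only [List.cons.injEq] at hc
        exact hjn hc.1
      rw [h2]
      ring
    simp_rw [h1]
    have h3 : ∀ ω : List ℕ → FamilyData, ∫⁻ d, (∏ j ∈ Finset.range n, h ((ω v).2 j).2.1
        (ω (j :: v)).1) * R (ω v) * h ((ω v).2 n).2.1 d.1 ∂(fl μ m) =
        (∏ j ∈ Finset.range n, h ((ω v).2 j).2.1 (ω (j :: v)).1) *
          (fun d => R d * (fun b => ∫⁻ d, h b d.1 ∂(fl μ m)) (d.2 n).2.1) (ω v) := by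
      intro ω
      have h4 : Measurable (fun d : FamilyData => h ((ω v).2 n).2.1 d.1) :=
        (hh _).comp measurable_fst
      rw [lintegral_const_mul _ h4, mul_assoc]
    simp_rw [h3]
    have hbm : Measurable (fun b : Bool => ∫⁻ d, h b d.1 ∂(fl μ m)) := Measurable.of_discrete
    rw [ih (fun d => R d * (fun b => ∫⁻ d, h b d.1 ∂(fl μ m)) (d.2 n).2.1)
      (hR.mul (hbm.comp (hfound n)))]
    apply lintegral_congr
    intro ω
    rw [Finset.prod_range_succ]
    ring

/-- product over i.i.d. events -/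
lemma prod_events (g : Bool → ℝ≥0∞) (n : ℕ) :
    ∫⁻ s, ∏ j ∈ Finset.range n, g (s j).2.1 ∂(iid (evLaw m)) = (∫⁻ p, g p.1 ∂m) ^ n := by
  have := isProb_evLaw m
  have := isProb_exp
  have hgm : Measurable (fun e : Event => g e.2.1) :=
    (Measurable.of_discrete (f := g)).comp (measurable_fst.comp measurable_snd)
  have hprod : ∀ n : ℕ, Measurable (fun s : ℕ → Event => ∏ j ∈ Finset.range n, g (s j).2.1) :=
    fun n => Finset.measurable_fun_prod _ (fun j _ => hgm.comp (measurable_pi_apply j))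
  induction n with
  | zero => simp
  | succ n ih =>
    have h1 : ∀ s : ℕ → Event, ∏ j ∈ Finset.range (n + 1), g (s j).2.1 =
        g (s 0).2.1 * ∏ j ∈ Finset.range n, g ((shift 1 s) j).2.1 := by
      intro s
      rw [Finset.prod_range_succ', mul_comm]
      rfl
    simp_rw [h1]
    have hF : Measurable (fun q : Event × (ℕ → Event) =>
        g q.1.2.1 * ∏ j ∈ Finset.range n, g (q.2 j).2.1) :=
      (hgm.comp measurable_fst).mul ((hprod n).comp measurable_snd)
    rw [lintegral_cons (evLaw m) (F := fun (e : Event) (s : ℕ → Event) =>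
        g e.2.1 * ∏ j ∈ Finset.range n, g (s j).2.1) hF]
    have h2 : ∀ e : Event, ∫⁻ s, g e.2.1 * ∏ j ∈ Finset.range n, g (s j).2.1 ∂(iid (evLaw m)) =
        g e.2.1 * (∫⁻ p, g p.1 ∂m) ^ n := by
      intro e
      rw [lintegral_const_mul _ (hprod n), ih]
    simp_rw [h2]
    rw [lintegral_mul_const _ hgm]
    have h3 : ∫⁻ e, g e.2.1 ∂(evLaw m) = ∫⁻ p, g p.1 ∂m := by
      unfold evLaw
      rw [lintegral_prod _ hgm.aemeasurable]
      simp only
      rw [lintegral_const, measure_univ, mul_one]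
    rw [h3, pow_succ, mul_comm]

/-- the probability that none of the first `n` events of `v` founds a family of fitness `> y` -/
lemma no_child (β : ℝ) (hβ0 : 0 ≤ β) (hβ1 : β ≤ 1)
    (hm1 : ∀ g : Bool → ℝ≥0∞, ∫⁻ p, g p.1 ∂m =
      ENNReal.ofReal β * g true + ENNReal.ofReal (1 - β) * g false)
    (v : List ℕ) (y : ℝ) (n : ℕ) :
    (pl μ m) {ω | ∀ j < n, ¬ (((ω v).2 j).2.1 = true ∧ y < (ω (j :: v)).1)} =
      ENNReal.ofReal ((1 - β * (μ (Set.Ioi y)).toReal) ^ n) := by
  classical
  have := isProb_fl μ m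
  have := isProb_evLaw m
  set h : Bool → ℝ → ℝ≥0∞ := fun b x => if b = true ∧ y < x then 0 else 1 with hh
  have hhm : ∀ b, Measurable (h b) := by
    intro b
    rw [hh]
    apply Measurable.ite _ measurable_const measurable_const
    by_cases hb : b = true
    · have : {x : ℝ | b = true ∧ y < x} = Set.Ioi y := by
        ext x; simp [hb]
      rw [this]
      exact measurableSet_Ioi
    · have : {x : ℝ | b = true ∧ y < x} = ∅ := by
        ext x; simp [hb]
      rw [this]
      exact MeasurableSet.empty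
  set p := (μ (Set.Ioi y)).toReal with hp
  have hp1 : p ≤ 1 := by
    rw [hp, ← ENNReal.toReal_one]
    exact ENNReal.toReal_mono ENNReal.one_ne_top prob_le_one
  have hp0 : 0 ≤ p := ENNReal.toReal_nonneg
  have hset : MeasurableSet {ω : List ℕ → FamilyData |
      ∀ j < n, ¬ (((ω v).2 j).2.1 = true ∧ y < (ω (j :: v)).1)} := by
    have h0 : {ω : List ℕ → FamilyData |
        ∀ j < n, ¬ (((ω v).2 j).2.1 = true ∧ y < (ω (j :: v)).1)} =
        ⋂ j ∈ Finset.range n, ({ω : List ℕ → FamilyData | ((ω v).2 j).2.1 = true} ∩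
          {ω | y < (ω (j :: v)).1})ᶜ := by
      ext ω
      simp
    rw [h0]
    apply Finset.measurableSet_biInter
    intro j _
    apply MeasurableSet.compl
    apply MeasurableSet.inter
    · have h1 : Measurable (fun ω : List ℕ → FamilyData => ω v) := measurable_pi_apply v
      exact h1 (measurableSet_found j)
    · have h1 : Measurable (fun ω : List ℕ → FamilyData => ω (j :: v)) :=
        measurable_pi_apply (j :: v)
      exact h1 (measurableSet_fit y)
  have e1 : (pl μ m) {ω | ∀ j < n, ¬ (((ω v).2 j).2.1 = true ∧ y < (ω (j :: v)).1)} =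
      ∫⁻ ω, (∏ j ∈ Finset.range n, h ((ω v).2 j).2.1 (ω (j :: v)).1) * (fun _ => 1) (ω v)
        ∂(pl μ m) := by
    rw [← lintegral_indicator_one hset]
    apply lintegral_congr
    intro ω
    rw [mul_one]
    by_cases hω : ∀ j < n, ¬ (((ω v).2 j).2.1 = true ∧ y < (ω (j :: v)).1)
    · rw [Set.indicator_of_mem (show ω ∈ {ω : List ℕ → FamilyData |
        ∀ j < n, ¬ (((ω v).2 j).2.1 = true ∧ y < (ω (j :: v)).1)} from hω)]
      symm
      apply Finset.prod_eq_one
      intro j hj
      rw [hh]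
      simp only
      rw [if_neg (hω j (Finset.mem_range.mp hj))]
    · rw [Set.indicator_of_notMem (show ω ∉ {ω : List ℕ → FamilyData |
        ∀ j < n, ¬ (((ω v).2 j).2.1 = true ∧ y < (ω (j :: v)).1)} from hω)]
      push Not at hω
      obtain ⟨j, hj, hj2⟩ := hω
      symm
      apply Finset.prod_eq_zero (Finset.mem_range.mpr hj)
      rw [hh]
      simp only
      rw [if_pos hj2]
  rw [e1, children_resample μ m v h hhm n (fun _ => 1) measurable_const]
  simp only [mul_one]
  -- the mean of `h`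
  have hμp : μ (Set.Ioi y) = ENNReal.ofReal p := by
    rw [hp, ENNReal.ofReal_toReal (measure_ne_top μ _)]
  have hfst : ∀ b : Bool, ∫⁻ d, h b d.1 ∂(fl μ m) = ∫⁻ x, h b x ∂μ := by
    intro b
    have h1 : Measurable (fun d : FamilyData => h b d.1) := (hhm b).comp measurable_fst
    unfold fl
    rw [lintegral_prod _ h1.aemeasurable]
    simp
  have ht : ∫⁻ x, h true x ∂μ = ENNReal.ofReal (1 - p) := by
    have h1 : ∀ x, h true x = (Set.Iic y).indicator 1 x := by
      intro x
      rw [hh]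
      by_cases hx : y < x
      · rw [Set.indicator_of_notMem (show x ∉ Set.Iic y from not_le.mpr hx)]
        simp [hx]
      · rw [Set.indicator_of_mem (show x ∈ Set.Iic y from not_lt.mp hx)]
        simp [hx]
    simp_rw [h1]
    rw [lintegral_indicator_one measurableSet_Iic]
    have h2 : (Set.Iic y) = (Set.Ioi y)ᶜ := by
      ext x; simp
    rw [h2, prob_compl_eq_one_sub measurableSet_Ioi, hμp, ← ENNReal.ofReal_one,
      ENNReal.ofReal_sub _ hp0]
  have hf : ∫⁻ x, h false x ∂μ = 1 := by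
    have h1 : ∀ x, h false x = 1 := by
      intro x; rw [hh]; simp
    simp_rw [h1]
    rw [lintegral_const, measure_univ, mul_one]
  -- reduce to the events of `v`
  have hgm : Measurable (fun b : Bool => ∫⁻ d, h b d.1 ∂(fl μ m)) := Measurable.of_discrete
  have hfound : ∀ j : ℕ, Measurable (fun d : FamilyData => (d.2 j).2.1) := fun j =>
    measurable_fst.comp (measurable_snd.comp ((measurable_pi_apply j).comp measurable_snd))
  have hprodm : Measurable (fun d : FamilyData => ∏ j ∈ Finset.range n,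
      (fun b : Bool => ∫⁻ d, h b d.1 ∂(fl μ m)) (d.2 j).2.1) :=
    Finset.measurable_fun_prod _ (fun j _ => hgm.comp (hfound j))
  have hmp : MeasurePreserving (fun ω : List ℕ → FamilyData => ω v) (pl μ m) (fl μ m) :=
    measurePreserving_eval_infinitePi (fun _ : List ℕ => fl μ m) v
  have e2 := lintegral_map hprodm hmp.measurable (μ := pl μ m)
  rw [hmp.map_eq] at e2
  rw [← e2]
  unfold fl at hprodm ⊢
  rw [lintegral_prod _ hprodm.aemeasurable]
  simp only
  rw [lintegral_const, measure_univ, mul_one]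
  have e3 := prod_events m (fun b : Bool => ∫⁻ d, h b d.1 ∂(fl μ m)) n
  unfold fl at e3
  rw [e3]
  have e4 := hm1 (fun b : Bool => ∫⁻ d, h b d.1 ∂(fl μ m))
  unfold fl at e4
  rw [e4]
  unfold fl at hfst
  rw [hfst, hfst, ht, hf, mul_one, ← ENNReal.ofReal_mul hβ0, ← ENNReal.ofReal_add
    (mul_nonneg hβ0 (by linarith)) (by linarith), ENNReal.ofReal_pow]
  · congr 1
    ring_nf
  · nlinarith

/-- almost surely all clocks are nonnegative and all fitnesses positive -/
lemma ae_good (hμ : ∀ᵐ x ∂μ, 0 < x ∧ x ≤ 1) :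
    ∀ᵐ ω ∂(pl μ m), (∀ u : List ℕ, 0 < (ω u).1) ∧ ∀ (u : List ℕ) (k : ℕ), 0 ≤ ((ω u).2 k).1 := by
  have := isProb_fl μ m
  have := isProb_evLaw m
  have := isProb_exp
  have hmp : ∀ u, MeasurePreserving (fun ω : List ℕ → FamilyData => ω u) (pl μ m) (fl μ m) :=
    fun u => measurePreserving_eval_infinitePi (fun _ : List ℕ => fl μ m) u
  have h1 : ∀ᵐ d ∂(fl μ m), 0 < d.1 := by
    have hq : Measure.QuasiMeasurePreserving (Prod.fst : FamilyData → ℝ) (fl μ m) μ := by
      unfold fl; exact Measure.quasiMeasurePreserving_fst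
    exact hq.ae (hμ.mono (fun x hx => hx.1))
  have hc : ∀ᵐ c ∂(expMeasure 1), (0:ℝ) ≤ c := by
    have h2 : (expMeasure 1) (Set.Iio 0) = 0 := by
      have h3 := lintegral_exp_eq (G := (Set.Iio (0:ℝ)).indicator 1)
        (measurable_one.indicator measurableSet_Iio)
      rw [lintegral_indicator_one measurableSet_Iio] at h3
      rw [h3, ← lintegral_indicator measurableSet_Ioi]
      have h4 : ∀ c : ℝ, (Set.Ioi (0:ℝ)).indicator (fun c => ENNReal.ofReal (Real.exp (-c)) *
          (Set.Iio (0:ℝ)).indicator (1 : ℝ → ℝ≥0∞) c) c = 0 := by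
        intro c
        by_cases hc0 : 0 < c
        · rw [Set.indicator_of_mem (show c ∈ Set.Ioi (0:ℝ) from hc0),
            Set.indicator_of_notMem (show c ∉ Set.Iio (0:ℝ) from not_lt.mpr hc0.le), mul_zero]
        · rw [Set.indicator_of_notMem (show c ∉ Set.Ioi (0:ℝ) from hc0)]
      simp_rw [h4, lintegral_zero]
    rw [ae_iff]
    have h5 : {c : ℝ | ¬ 0 ≤ c} = Set.Iio 0 := by ext c; simp
    rw [h5]; exact h2
  have hq1 : Measure.QuasiMeasurePreserving (Prod.fst : Event → ℝ) (evLaw m) (expMeasure 1) := by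
    unfold evLaw; exact Measure.quasiMeasurePreserving_fst
  have hq2 : ∀ k : ℕ, MeasurePreserving (fun s : ℕ → Event => s k) (iid (evLaw m)) (evLaw m) :=
    fun k => measurePreserving_eval_infinitePi (fun _ : ℕ => evLaw m) k
  have hq3 : Measure.QuasiMeasurePreserving (Prod.snd : FamilyData → (ℕ → Event)) (fl μ m)
      (iid (evLaw m)) := by
    unfold fl; exact Measure.quasiMeasurePreserving_snd
  have h2 : ∀ k : ℕ, ∀ᵐ d ∂(fl μ m), 0 ≤ (d.2 k).1 := by
    intro k
    have h3 : ∀ᵐ e ∂(evLaw m), 0 ≤ e.1 := hq1.ae hc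
    have h4 : ∀ᵐ s ∂(iid (evLaw m)), 0 ≤ (s k).1 := (hq2 k).quasiMeasurePreserving.ae h3
    exact hq3.ae h4
  have h5 : ∀ᵐ ω ∂(pl μ m), ∀ u : List ℕ, 0 < (ω u).1 :=
    ae_all_iff.mpr (fun u => (hmp u).quasiMeasurePreserving.ae h1)
  have h6 : ∀ᵐ ω ∂(pl μ m), ∀ (u : List ℕ) (k : ℕ), 0 ≤ ((ω u).2 k).1 :=
    ae_all_iff.mpr (fun u => ae_all_iff.mpr (fun k => (hmp u).quasiMeasurePreserving.ae (h2 k)))
  filter_upwards [h5, h6] with ω h7 h8
  exact ⟨h7, h8⟩

end Pool.Agent.H95.RBP
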