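import Mathlib
import Pool.Agent.H95.RBP.LowerA

open MeasureTheory ProbabilityTheory Filter Topology
open scoped ENNReal

namespace Pool.Agent.H95.RBP

open Pool.Agent.H95

/-- positivity of the data of one family -/
def GoodData (d : FamilyData) : Prop := 0 < d.1 ∧ ∀ k : ℕ, 0 ≤ (d.2 k).1

lemma eventAge_term_nonneg {d : FamilyData} (hd : GoodData d) (j : ℕ) :
    0 ≤ (d.2 j).1 / (d.1 * (sizeBefore d j : ℝ)) :=
  div_nonneg (hd.2 j) (mul_nonneg hd.1.le (Nat.cast_nonneg _))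

lemma eventAge_mono {d : FamilyData} (hd : GoodData d) {j k : ℕ} (h : j ≤ k) :
    eventAge d j ≤ eventAge d k := by
  unfold eventAge
  apply Finset.sum_le_sum_of_subset_of_nonneg
  · intro i hi
    rw [Finset.mem_range] at hi ⊢
    omega
  · intro i _ _
    exact eventAge_term_nonneg hd i

lemma eventAge_nonneg {d : FamilyData} (hd : GoodData d) (k : ℕ) : 0 ≤ eventAge d k :=
  Finset.sum_nonneg (fun i _ => eventAge_term_nonneg hd i)

/-- a family all of whose first `k` events are before time `t` has at least `sizeBefore` members -/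
lemma size_le_population (ω : List ℕ → FamilyData) (u : List ℕ) (t : ℝ) (k : ℕ)
    (hgood : GoodData (ω u)) (hf : Founded ω u) (ht : foundTime ω u + eventAge (ω u) k ≤ t) :
    (sizeBefore (ω u) k : ℝ≥0∞) ≤ population ω t := by
  classical
  have h0 : foundTime ω u ≤ t := by
    have := eventAge_nonneg hgood k
    linarith
  have h1 : (sizeBefore (ω u) k : ℝ≥0∞) ≤ familySize ω u t := by
    unfold familySize
    rw [if_pos ⟨hf, h0⟩]
    have h2 : (sizeBefore (ω u) k : ℝ≥0∞) = 1 + ∑ j ∈ Finset.range k,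
        (if ((ω u).2 j).2.2 = true then (1:ℝ≥0∞) else 0) := by
      unfold sizeBefore
      rw [Nat.cast_add, Nat.cast_one, Finset.card_filter]
      push_cast
      rfl
    rw [h2]
    apply add_le_add le_rfl
    refine le_trans ?_ (ENNReal.sum_le_tsum (Finset.range k))
    apply Finset.sum_le_sum
    intro j hj
    rw [Finset.mem_range] at hj
    have h3 : foundTime ω u + eventAge (ω u) j ≤ t := by
      have := eventAge_mono hgood hj.le
      linarith
    by_cases h4 : ((ω u).2 j).2.2 = true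
    · rw [if_pos h4, if_pos ⟨h4, h3⟩]
    · rw [if_neg h4]
      exact bot_le
  exact h1.trans (ENNReal.le_tsum u)

/-- the deterministic part of the lower bound -/
lemma good_event (ω : List ℕ → FamilyData) (hgood : ∀ u, GoodData (ω u)) (γ t s0 s1 y z : ℝ)
    (K n mm : ℕ)
    (h0 : ∀ k < K, eventAge (ω []) k ≤ s0)
    (h1 : ∃ k < K, ((ω []).2 k).2.1 = true ∧ y < (ω [k]).1)
    (h2 : ∀ k < K, ¬ (y < (ω [k]).1 ∧ s1 < eventAge (ω [k]) n))
    (h3 : ∀ k < K, ∃ j < n, ((ω [k]).2 j).2.1 = true ∧ z < (ω [j, k]).1)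
    (h4 : ∀ k < K, ∀ j < n, ¬ (z < (ω [j, k]).1 ∧ t - s0 - s1 < eventAge (ω [j, k]) mm))
    (h5 : ∀ k < K, ∀ j < n, ¬ (z < (ω [j, k]).1 ∧ (sizeBefore (ω [j, k]) mm : ℝ) ≤ γ / 4 * mm)) :
    ENNReal.ofReal (γ / 4 * mm) ≤ population ω t := by
  obtain ⟨k, hk, hk1, hk2⟩ := h1
  obtain ⟨j, hj, hj1, hj2⟩ := h3 k hk
  have a0 := h0 k hk
  have a2 : eventAge (ω [k]) j ≤ s1 := by
    refine (eventAge_mono (hgood [k]) hj.le).trans ?_
    by_contra hc
    exact h2 k hk ⟨hk2, not_le.mp hc⟩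
  have a4 : eventAge (ω [j, k]) mm ≤ t - s0 - s1 := by
    by_contra hc
    exact h4 k hk j hj ⟨hj2, not_le.mp hc⟩
  have a5 : γ / 4 * mm < (sizeBefore (ω [j, k]) mm : ℝ) := by
    by_contra hc
    exact h5 k hk j hj ⟨hj2, not_lt.mp hc⟩
  have hfounded : Founded ω [j, k] := ⟨⟨trivial, hk1⟩, hj1⟩
  have htime : foundTime ω [j, k] = 0 + eventAge (ω []) k + eventAge (ω [k]) j := rfl
  have h6 := size_le_population ω [j, k] t mm (hgood _) hfounded (by rw [htime]; linarith)
  refine le_trans ?_ h6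
  rw [← ENNReal.ofReal_natCast]
  exact ENNReal.ofReal_le_ofReal a5.le

variable (μ : Measure ℝ) [IsProbabilityMeasure μ] (m : Measure (Bool × Bool))
  [IsProbabilityMeasure m]

/-- the union bound -/
lemma bad_prob (hμ : ∀ᵐ x ∂μ, 0 < x ∧ x ≤ 1) (β γ : ℝ) (hβ0 : 0 ≤ β) (hβ1 : β ≤ 1)
    (hγ0 : 0 ≤ γ) (hγ1 : γ ≤ 1)
    (hm : ∀ g : Bool → ℝ≥0∞, ∫⁻ p, g p.2 ∂m =
      ENNReal.ofReal γ * g true + ENNReal.ofReal (1 - γ) * g false)
    (hm1 : ∀ g : Bool → ℝ≥0∞, ∫⁻ p, g p.1 ∂m =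
      ENNReal.ofReal β * g true + ENNReal.ofReal (1 - β) * g false)
    (t s0 s1 y z : ℝ) (hs1 : 0 ≤ s1) (hy : 0 ≤ y) (hz : 0 ≤ z) (ht : 0 ≤ t - s0 - s1) (K n mm : ℕ) :
    (pl μ m) {ω | population ω t < ENNReal.ofReal (γ / 4 * mm)} ≤
      ∑ k ∈ Finset.range K, (fl μ m) {d | s0 < eventAge d k} +
      ENNReal.ofReal ((1 - β * (μ (Set.Ioi y)).toReal) ^ K) +
      K * ENNReal.ofReal (Real.sqrt (4 * n + 5) * Real.exp (-(γ * y / 2 * s1))) +
      K * ENNReal.ofReal ((1 - β * (μ (Set.Ioi z)).toReal) ^ n) +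
      K * (n * (μ (Set.Ioi z) * (ENNReal.ofReal (Real.sqrt (4 * mm + 5) *
        Real.exp (-(γ * z / 2 * (t - s0 - s1)))) + ENNReal.ofReal (Real.exp (-(γ / 4 * mm)))))) := by
  classical
  have := isProb_fl μ m
  set E0 : Set (List ℕ → FamilyData) := ⋃ k ∈ Finset.range K, {ω | ω [] ∈ {d | s0 < eventAge d k}}
  set E1 : Set (List ℕ → FamilyData) :=
    {ω | ∀ k < K, ¬ (((ω []).2 k).2.1 = true ∧ y < (ω (k :: [])).1)}
  set E2 : Set (List ℕ → FamilyData) :=
    ⋃ k ∈ Finset.range K, {ω | ω [k] ∈ {d | y < d.1 ∧ s1 < eventAge d n}}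
  set E3 : Set (List ℕ → FamilyData) :=
    ⋃ k ∈ Finset.range K, {ω | ∀ j < n, ¬ (((ω [k]).2 j).2.1 = true ∧ z < (ω (j :: [k])).1)}
  set E4 : Set (List ℕ → FamilyData) :=
    ⋃ k ∈ Finset.range K, ⋃ j ∈ Finset.range n,
      ({ω | ω [j, k] ∈ {d | z < d.1 ∧ t - s0 - s1 < eventAge d mm}} ∪
       {ω | ω [j, k] ∈ {d | z < d.1 ∧ (sizeBefore d mm : ℝ) ≤ γ / 4 * mm}})
  set N : Set (List ℕ → FamilyData) := {ω | ¬ ((∀ u : List ℕ, 0 < (ω u).1) ∧
    ∀ (u : List ℕ) (k : ℕ), 0 ≤ ((ω u).2 k).1)}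
  have hN : (pl μ m) N = 0 := ae_iff.mp (ae_good μ m hμ)
  have hsub : {ω | population ω t < ENNReal.ofReal (γ / 4 * mm)} ⊆ N ∪ (E0 ∪ (E1 ∪ (E2 ∪ (E3 ∪ E4)))) := by
    intro ω hω
    by_contra hc
    simp only [Set.mem_union, not_or] at hc
    obtain ⟨hcN, hc0, hc1, hc2, hc3, hc4⟩ := hc
    have hgood : ∀ u, GoodData (ω u) := by
      have h1 : (∀ u : List ℕ, 0 < (ω u).1) ∧ ∀ (u : List ℕ) (k : ℕ), 0 ≤ ((ω u).2 k).1 := by
        by_contra h
        exact hcN h
      exact fun u => ⟨h1.1 u, h1.2 u⟩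
    have hlow := good_event ω hgood γ t s0 s1 y z K n mm
      (by
        intro k hk
        by_contra h
        apply hc0
        simp only [E0, Set.mem_iUnion]
        exact ⟨k, Finset.mem_range.mpr hk, not_le.mp h⟩)
      (by
        by_contra h
        apply hc1
        intro k hk hk2
        exact h ⟨k, hk, hk2⟩)
      (by
        intro k hk h
        apply hc2
        simp only [E2, Set.mem_iUnion]
        exact ⟨k, Finset.mem_range.mpr hk, h⟩)
      (by
        intro k hk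
        by_contra h
        apply hc3
        simp only [E3, Set.mem_iUnion]
        refine ⟨k, Finset.mem_range.mpr hk, ?_⟩
        intro j hj hj2
        exact h ⟨j, hj, hj2⟩)
      (by
        intro k hk j hj h
        apply hc4
        simp only [E4, Set.mem_iUnion]
        exact ⟨k, Finset.mem_range.mpr hk, j, Finset.mem_range.mpr hj, Or.inl h⟩)
      (by
        intro k hk j hj h
        apply hc4
        simp only [E4, Set.mem_iUnion]
        exact ⟨k, Finset.mem_range.mpr hk, j, Finset.mem_range.mpr hj, Or.inr h⟩)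
    exact absurd hω (not_lt.mpr hlow)
  have hage : ∀ (b : ℝ) (k : ℕ), MeasurableSet {d : FamilyData | b < eventAge d k} :=
    fun b k => measurableSet_lt measurable_const (measurable_eventAge k)
  have hsz : ∀ k : ℕ, Measurable (fun d : FamilyData => (sizeBefore d k : ℝ)) := by
    intro k
    simp_rw [sizeBefore_eq]
    exact (measurable_from_top (f := fun n : ℕ => (n:ℝ))).comp ((measurable_sz 1 k).comp measurable_snd)
  have p0 : (pl μ m) E0 ≤ ∑ k ∈ Finset.range K, (fl μ m) {d | s0 < eventAge d k} := by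
    refine (measure_biUnion_finset_le _ _).trans (Finset.sum_le_sum (fun k _ => ?_))
    exact (marginal μ m [] (hage s0 k)).le
  have p1 : (pl μ m) E1 = ENNReal.ofReal ((1 - β * (μ (Set.Ioi y)).toReal) ^ K) :=
    no_child μ m β hβ0 hβ1 hm1 [] y K
  have p2 : (pl μ m) E2 ≤ K * ENNReal.ofReal (Real.sqrt (4 * n + 5) *
      Real.exp (-(γ * y / 2 * s1))) := by
    refine (measure_biUnion_finset_le _ _).trans ?_
    have h1 : ∀ k ∈ Finset.range K, (pl μ m) {ω | ω [k] ∈ {d | y < d.1 ∧ s1 < eventAge d n}} ≤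
        ENNReal.ofReal (Real.sqrt (4 * n + 5) * Real.exp (-(γ * y / 2 * s1))) := by
      intro k _
      have hS2 : MeasurableSet {d : FamilyData | y < d.1 ∧ s1 < eventAge d n} :=
        (measurableSet_fit y).inter (hage s1 n)
      rw [marginal μ m [k] hS2]
      refine (fam_slow μ m γ hγ0 hγ1 hm y hy n s1 hs1).trans ?_
      calc μ (Set.Ioi y) * ENNReal.ofReal (Real.sqrt (4 * n + 5) * Real.exp (-(γ * y / 2 * s1)))
          ≤ 1 * ENNReal.ofReal (Real.sqrt (4 * n + 5) * Real.exp (-(γ * y / 2 * s1))) :=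
            mul_le_mul_left prob_le_one _
        _ = _ := one_mul _
    refine (Finset.sum_le_sum h1).trans ?_
    rw [Finset.sum_const, Finset.card_range, nsmul_eq_mul]
  have p3 : (pl μ m) E3 ≤ K * ENNReal.ofReal ((1 - β * (μ (Set.Ioi z)).toReal) ^ n) := by
    refine (measure_biUnion_finset_le _ _).trans ?_
    have h1 : ∀ k ∈ Finset.range K, (pl μ m)
        {ω | ∀ j < n, ¬ (((ω [k]).2 j).2.1 = true ∧ z < (ω (j :: [k])).1)} ≤
        ENNReal.ofReal ((1 - β * (μ (Set.Ioi z)).toReal) ^ n) := by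
      intro k _
      exact (no_child μ m β hβ0 hβ1 hm1 [k] z n).le
    refine (Finset.sum_le_sum h1).trans ?_
    rw [Finset.sum_const, Finset.card_range, nsmul_eq_mul]
  have p4 : (pl μ m) E4 ≤ K * (n * (μ (Set.Ioi z) * (ENNReal.ofReal (Real.sqrt (4 * mm + 5) *
        Real.exp (-(γ * z / 2 * (t - s0 - s1)))) + ENNReal.ofReal (Real.exp (-(γ / 4 * mm)))))) := by
    refine (measure_biUnion_finset_le _ _).trans ?_
    have h1 : ∀ k ∈ Finset.range K, (pl μ m) (⋃ j ∈ Finset.range n,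
      ({ω | ω [j, k] ∈ {d | z < d.1 ∧ t - s0 - s1 < eventAge d mm}} ∪
       {ω | ω [j, k] ∈ {d | z < d.1 ∧ (sizeBefore d mm : ℝ) ≤ γ / 4 * mm}})) ≤
        n * (μ (Set.Ioi z) * (ENNReal.ofReal (Real.sqrt (4 * mm + 5) *
        Real.exp (-(γ * z / 2 * (t - s0 - s1)))) + ENNReal.ofReal (Real.exp (-(γ / 4 * mm))))) := by
      intro k _
      refine (measure_biUnion_finset_le _ _).trans ?_
      have h2 : ∀ j ∈ Finset.range n, (pl μ m)
          ({ω | ω [j, k] ∈ {d | z < d.1 ∧ t - s0 - s1 < eventAge d mm}} ∪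
          {ω | ω [j, k] ∈ {d | z < d.1 ∧ (sizeBefore d mm : ℝ) ≤ γ / 4 * mm}}) ≤
          μ (Set.Ioi z) * (ENNReal.ofReal (Real.sqrt (4 * mm + 5) *
          Real.exp (-(γ * z / 2 * (t - s0 - s1)))) + ENNReal.ofReal (Real.exp (-(γ / 4 * mm)))) := by
        intro j _
        refine (measure_union_le _ _).trans ?_
        have hS3 : MeasurableSet {d : FamilyData | z < d.1 ∧ t - s0 - s1 < eventAge d mm} :=
          (measurableSet_fit z).inter (hage _ mm)
        have hS4 : MeasurableSet {d : FamilyData | z < d.1 ∧ (sizeBefore d mm : ℝ) ≤ γ / 4 * mm} :=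
          (measurableSet_fit z).inter (measurableSet_le (hsz mm) measurable_const)
        rw [marginal μ m [j, k] hS3, marginal μ m [j, k] hS4, mul_add]
        exact add_le_add (fam_slow μ m γ hγ0 hγ1 hm z hz mm _ ht) (fam_small μ m γ hγ0 hγ1 hm z mm)
      refine (Finset.sum_le_sum h2).trans ?_
      rw [Finset.sum_const, Finset.card_range, nsmul_eq_mul]
    refine (Finset.sum_le_sum h1).trans ?_
    rw [Finset.sum_const, Finset.card_range, nsmul_eq_mul]
  calc (pl μ m) {ω | population ω t < ENNReal.ofReal (γ / 4 * mm)}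
      ≤ (pl μ m) (N ∪ (E0 ∪ (E1 ∪ (E2 ∪ (E3 ∪ E4))))) := measure_mono hsub
    _ ≤ (pl μ m) N + ((pl μ m) E0 + ((pl μ m) E1 + ((pl μ m) E2 + ((pl μ m) E3 + (pl μ m) E4)))) := by
        refine (measure_union_le _ _).trans (add_le_add le_rfl ?_)
        refine (measure_union_le _ _).trans (add_le_add le_rfl ?_)
        refine (measure_union_le _ _).trans (add_le_add le_rfl ?_)
        refine (measure_union_le _ _).trans (add_le_add le_rfl ?_)
        exact measure_union_le _ _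
    _ ≤ 0 + (∑ k ∈ Finset.range K, (fl μ m) {d | s0 < eventAge d k} +
          (ENNReal.ofReal ((1 - β * (μ (Set.Ioi y)).toReal) ^ K) +
          (K * ENNReal.ofReal (Real.sqrt (4 * n + 5) * Real.exp (-(γ * y / 2 * s1))) +
          (K * ENNReal.ofReal ((1 - β * (μ (Set.Ioi z)).toReal) ^ n) +
          K * (n * (μ (Set.Ioi z) * (ENNReal.ofReal (Real.sqrt (4 * mm + 5) *
            Real.exp (-(γ * z / 2 * (t - s0 - s1)))) +
              ENNReal.ofReal (Real.exp (-(γ / 4 * mm)))))))))) := by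
        gcongr
        · exact hN.le
        · exact p1.le
    _ = _ := by ring

end Pool.Agent.H95.RBP
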