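import Mathlib
import Pool.Agent.H95.RBP.Defs

open MeasureTheory ProbabilityTheory Filter Topology
open scoped ENNReal

namespace Pool.Agent.H95.RBP

/-- the tail at the maximal fitness -/
noncomputable def GT (μ : Measure ℝ) (ε : ℝ) : ℝ := (μ (Set.Ioo (1 - ε) 1)).toReal

variable (μ : Measure ℝ) [IsProbabilityMeasure μ]

lemma GT_mono {ε ε' : ℝ} (h : ε ≤ ε') : GT μ ε ≤ GT μ ε' := by
  unfold GT
  apply ENNReal.toReal_mono (measure_ne_top μ _)
  apply measure_mono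
  apply Set.Ioo_subset_Ioo_left
  linarith

lemma GT_le_one (ε : ℝ) : GT μ ε ≤ 1 := by
  unfold GT
  rw [← ENNReal.toReal_one]
  exact ENNReal.toReal_mono ENNReal.one_ne_top prob_le_one

omit [IsProbabilityMeasure μ] in
lemma GT_nonneg (ε : ℝ) : 0 ≤ GT μ ε := ENNReal.toReal_nonneg

omit [IsProbabilityMeasure μ] in
/-- limit of the dyadic ratio -/
lemma ratio_tendsto (α : ℝ) (ℓ : ℝ → ℝ) (hℓ : SlowlyVaryingAtZero ℓ)
    (hRV : ∀ᶠ ε in 𝓝[>] (0:ℝ), GT μ ε = ε ^ α * ℓ ε) :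
    (∀ᶠ ε in 𝓝[>] (0:ℝ), 0 < GT μ ε) ∧
    Tendsto (fun ε : ℝ => GT μ (ε / 2) / GT μ ε) (𝓝[>] 0) (𝓝 (2 ^ (-α))) := by
  have hpos : ∀ᶠ ε in 𝓝[>] (0:ℝ), (0:ℝ) < ε := self_mem_nhdsWithin
  have hhalf : Tendsto (fun ε : ℝ => (1 / 2) * ε) (𝓝[>] 0) (𝓝[>] 0) := by
    apply tendsto_nhdsWithin_of_tendsto_nhds_of_eventually_within
    · have : Tendsto (fun ε : ℝ => (1 / 2) * ε) (𝓝 0) (𝓝 ((1 / 2) * 0)) :=
        (continuous_const.mul continuous_id).tendsto 0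
      rw [mul_zero] at this
      exact this.mono_left nhdsWithin_le_nhds
    · filter_upwards [hpos] with ε hε
      have : 0 < (1 / 2) * ε := by positivity
      exact this
  refine ⟨?_, ?_⟩
  · filter_upwards [hRV, hℓ.1, hpos] with ε h1 h2 h3
    rw [h1]
    exact mul_pos (Real.rpow_pos_of_pos h3 _) h2
  · have h1 := (hℓ.2 (1 / 2) (by norm_num)).const_mul ((2:ℝ) ^ (-α))
    rw [mul_one] at h1
    refine h1.congr' ?_
    filter_upwards [hRV, hhalf.eventually hRV, hℓ.1, hpos] with ε h2 h3 h4 h5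
    have e1 : ε / 2 = (1 / 2) * ε := by ring
    rw [e1, h2, h3, Real.mul_rpow (by norm_num) h5.le, one_div, Real.inv_rpow (by norm_num),
      ← Real.rpow_neg (by norm_num)]
    have h6 : ε ^ α ≠ 0 := (Real.rpow_pos_of_pos h5 _).ne'
    field_simp

/-- upper bound of the tail -/
lemma tail_upper (α : ℝ) (ℓ : ℝ → ℝ) (hℓ : SlowlyVaryingAtZero ℓ)
    (hRV : ∀ᶠ ε in 𝓝[>] (0:ℝ), GT μ ε = ε ^ α * ℓ ε) (a : ℝ) (ha0 : 0 < a) (ha : a < α) :
    ∃ C : ℝ, 0 < C ∧ ∀ ε : ℝ, 0 < ε → GT μ ε ≤ C * ε ^ a := by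
  obtain ⟨hpos, hlim⟩ := ratio_tendsto μ α ℓ hℓ hRV
  have h1 : (2:ℝ) ^ (-α) < 2 ^ (-a) := Real.rpow_lt_rpow_of_exponent_lt (by norm_num) (by linarith)
  have h2 := hlim.eventually_lt_const h1
  have h3 := h2.and hpos
  rw [eventually_nhdsWithin_iff, Metric.eventually_nhds_iff] at h3
  obtain ⟨δ, hδ, h4⟩ := h3
  set ε0 := δ / 2 with hε0
  have hε00 : 0 < ε0 := by positivity
  have h5 : ∀ ε : ℝ, 0 < ε → ε ≤ ε0 → GT μ (ε / 2) ≤ 2 ^ (-a) * GT μ ε := by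
    intro ε h6 h7
    have h8 : dist ε 0 < δ := by
      rw [Real.dist_eq, sub_zero, abs_of_pos h6]; linarith
    obtain ⟨h9, h10⟩ := h4 h8 h6
    rw [div_lt_iff₀ h10] at h9
    exact h9.le
  have hU : ∀ n : ℕ, ∀ ε : ℝ, 0 < ε → ε ≤ ε0 / 2 ^ n → GT μ ε ≤ (2 ^ (-a)) ^ n := by
    intro n
    induction n with
    | zero => intro ε _ _; rw [pow_zero]; exact GT_le_one μ ε
    | succ n ih =>
      intro ε h6 h7
      have h8 : 2 * ε ≤ ε0 / 2 ^ n := by
        rw [le_div_iff₀ (by positivity)] at h7 ⊢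
        rw [pow_succ] at h7
        nlinarith
      have h9 : 2 * ε ≤ ε0 := h8.trans (div_le_self hε00.le (one_le_pow₀ (by norm_num)))
      have h10 := h5 (2 * ε) (by positivity) h9
      have e1 : 2 * ε / 2 = ε := by ring
      rw [e1] at h10
      calc GT μ ε ≤ 2 ^ (-a) * GT μ (2 * ε) := h10
        _ ≤ 2 ^ (-a) * (2 ^ (-a)) ^ n :=
            mul_le_mul_of_nonneg_left (ih (2 * ε) (by positivity) h8) (by positivity)
        _ = _ := by rw [pow_succ]; ring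
  refine ⟨(2 / ε0) ^ a, by positivity, ?_⟩
  intro ε hε
  rw [← Real.mul_rpow (by positivity) hε.le]
  rcases le_total ε ε0 with h | h
  · obtain ⟨n, hn1, hn2⟩ := exists_nat_pow_near (x := ε0 / ε) (y := 2)
      ((one_le_div hε).mpr h) (by norm_num)
    have h6 : ε ≤ ε0 / 2 ^ n := by
      rw [le_div_iff₀ (by positivity)]
      rw [le_div_iff₀ hε] at hn1
      linarith
    refine (hU n ε hε h6).trans ?_
    have e2 : ((2:ℝ) ^ (-a)) ^ n = (((2:ℝ) ^ n)⁻¹) ^ a := by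
      rw [← Real.rpow_natCast ((2:ℝ) ^ (-a)) n, ← Real.rpow_mul (by norm_num),
        ← Real.rpow_natCast 2 n, ← Real.rpow_neg (by norm_num), ← Real.rpow_mul (by norm_num)]
      congr 1; ring
    rw [e2]
    apply Real.rpow_le_rpow (by positivity) _ ha0.le
    rw [div_lt_iff₀ hε] at hn2
    rw [inv_eq_one_div, div_le_iff₀ (by positivity), div_mul_eq_mul_div, div_mul_eq_mul_div,
      le_div_iff₀ hε00]
    rw [pow_succ] at hn2
    nlinarith
  · refine (GT_le_one μ ε).trans ?_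
    apply Real.one_le_rpow _ ha0.le
    rw [div_mul_eq_mul_div, le_div_iff₀ hε00]
    linarith

/-- lower bound of the tail -/
lemma tail_lower (α : ℝ) (ℓ : ℝ → ℝ) (hℓ : SlowlyVaryingAtZero ℓ)
    (hRV : ∀ᶠ ε in 𝓝[>] (0:ℝ), GT μ ε = ε ^ α * ℓ ε) (b : ℝ) (hb0 : 0 < b) (hb : α < b) :
    ∃ c ε0 : ℝ, 0 < c ∧ 0 < ε0 ∧ ∀ ε : ℝ, 0 < ε → ε ≤ ε0 → c * ε ^ b ≤ GT μ ε := by
  obtain ⟨hpos, hlim⟩ := ratio_tendsto μ α ℓ hℓ hRV
  have h1 : (2:ℝ) ^ (-b) < 2 ^ (-α) := Real.rpow_lt_rpow_of_exponent_lt (by norm_num) (by linarith)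
  have h2 := hlim.eventually_const_lt h1
  have h3 := h2.and hpos
  rw [eventually_nhdsWithin_iff, Metric.eventually_nhds_iff] at h3
  obtain ⟨δ, hδ, h4⟩ := h3
  set ε0 := δ / 2 with hε0
  have hε00 : 0 < ε0 := by positivity
  have h5 : ∀ ε : ℝ, 0 < ε → ε ≤ ε0 → 2 ^ (-b) * GT μ ε ≤ GT μ (ε / 2) := by
    intro ε h6 h7
    have h8 : dist ε 0 < δ := by
      rw [Real.dist_eq, sub_zero, abs_of_pos h6]; linarith
    obtain ⟨h9, h10⟩ := h4 h8 h6
    rw [lt_div_iff₀ h10] at h9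
    exact h9.le
  set g0 := GT μ (ε0 / 2) with hg0
  have hg00 : 0 < g0 := by
    have h8 : dist (ε0 / 2) 0 < δ := by
      rw [Real.dist_eq, sub_zero, abs_of_pos (by positivity)]; linarith
    exact (h4 h8 (by exact (by positivity : 0 < ε0 / 2))).2
  have h2b : (2:ℝ) ^ (-b) ≤ 1 := Real.rpow_le_one_of_one_le_of_nonpos (by norm_num) (by linarith)
  have h2b0 : (0:ℝ) < 2 ^ (-b) := by positivity
  have hL : ∀ n : ℕ, ∀ ε : ℝ, ε0 / 2 ^ n ≤ ε → ε ≤ ε0 → (2 ^ (-b)) ^ n * g0 ≤ GT μ ε := by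
    intro n
    induction n with
    | zero =>
      intro ε h6 _
      rw [pow_zero, one_mul]
      apply GT_mono
      rw [pow_zero, div_one] at h6
      linarith
    | succ n ih =>
      intro ε h6 h7
      have hε : 0 < ε := lt_of_lt_of_le (by positivity) h6
      rcases le_total (2 * ε) ε0 with h | h
      · have h8 : ε0 / 2 ^ n ≤ 2 * ε := by
          rw [div_le_iff₀ (by positivity)] at h6 ⊢
          rw [pow_succ] at h6
          nlinarith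
        have h10 := h5 (2 * ε) (by positivity) h
        have e1 : 2 * ε / 2 = ε := by ring
        rw [e1] at h10
        calc (2 ^ (-b)) ^ (n + 1) * g0 = 2 ^ (-b) * ((2 ^ (-b)) ^ n * g0) := by
              rw [pow_succ]; ring
          _ ≤ 2 ^ (-b) * GT μ (2 * ε) :=
              mul_le_mul_of_nonneg_left (ih (2 * ε) h8 h) h2b0.le
          _ ≤ GT μ ε := h10
      · have h9 : g0 ≤ GT μ ε := GT_mono μ (by linarith)
        have h10 : ((2:ℝ) ^ (-b)) ^ (n + 1) ≤ 1 := pow_le_one₀ h2b0.le h2b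
        nlinarith
  refine ⟨2 ^ (-b) * ε0⁻¹ ^ b * g0, ε0, by positivity, hε00, ?_⟩
  intro ε hε h
  obtain ⟨n, hn1, hn2⟩ := exists_nat_pow_near (x := ε0 / ε) (y := 2)
    ((one_le_div hε).mpr h) (by norm_num)
  have h6 : ε0 / 2 ^ (n + 1) ≤ ε := by
    rw [div_le_iff₀ (by positivity)]
    rw [div_lt_iff₀ hε] at hn2
    linarith
  refine le_trans ?_ (hL (n + 1) ε h6 h)
  have e2 : ((2:ℝ) ^ (-b)) ^ n = (((2:ℝ) ^ n)⁻¹) ^ b := by
    rw [← Real.rpow_natCast ((2:ℝ) ^ (-b)) n, ← Real.rpow_mul (by norm_num),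
      ← Real.rpow_natCast 2 n, ← Real.rpow_neg (by norm_num), ← Real.rpow_mul (by norm_num)]
    congr 1; ring
  have h7 : ε0⁻¹ ^ b * ε ^ b ≤ ((2:ℝ) ^ (-b)) ^ n := by
    rw [e2, ← Real.mul_rpow (by positivity) hε.le]
    apply Real.rpow_le_rpow (by positivity) _ hb0.le
    rw [le_div_iff₀ hε] at hn1
    rw [inv_mul_le_iff₀ hε00, ← div_eq_mul_inv, le_div_iff₀ (by positivity)]
    linarith
  calc 2 ^ (-b) * ε0⁻¹ ^ b * g0 * ε ^ b = 2 ^ (-b) * (ε0⁻¹ ^ b * ε ^ b) * g0 := by ring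
    _ ≤ 2 ^ (-b) * ((2:ℝ) ^ (-b)) ^ n * g0 := by
        apply mul_le_mul_of_nonneg_right _ hg00.le
        exact mul_le_mul_of_nonneg_left h7 h2b0.le
    _ = _ := by rw [pow_succ]; ring

/-- negative moments of the distance to the maximal fitness -/
lemma moment_finite (hμ : ∀ᵐ x ∂μ, 0 < x ∧ x < 1) (α : ℝ) (ℓ : ℝ → ℝ)
    (hℓ : SlowlyVaryingAtZero ℓ)
    (hRV : ∀ᶠ ε in 𝓝[>] (0:ℝ), GT μ ε = ε ^ α * ℓ ε) (a : ℝ) (ha0 : 0 < a) (ha : a < α) :
    ∫⁻ x, ENNReal.ofReal ((1 - x) ^ (-a)) ∂μ < ⊤ := by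
  set a' := (a + α) / 2 with ha'
  obtain ⟨C, hC, hCε⟩ := tail_upper μ α ℓ hℓ hRV a' (by linarith) (by linarith)
  -- pointwise bound
  have h1 : ∀ᵐ x ∂μ, ENNReal.ofReal ((1 - x) ^ (-a)) ≤
      ∑' n : ℕ, (Set.Ioo (1 - 2 * (1 / 2 : ℝ) ^ n) 1).indicator
        (fun _ => ENNReal.ofReal (2 ^ a * (2 ^ a) ^ n)) x := by
    filter_upwards [hμ] with x hx
    have hy0 : 0 < 1 - x := by linarith [hx.2]
    have hy1 : 1 - x ≤ 1 := by linarith [hx.1]
    obtain ⟨n, hn1, hn2⟩ := exists_nat_pow_near (x := 1 / (1 - x)) (y := 2)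
      ((one_le_div hy0).mpr hy1) (by norm_num)
    have h2 : x ∈ Set.Ioo (1 - 2 * (1 / 2 : ℝ) ^ n) 1 := by
      refine ⟨?_, hx.2⟩
      rw [le_div_iff₀ hy0] at hn1
      have h3 : (1 / 2 : ℝ) ^ n * 2 ^ n = 1 := by
        rw [← mul_pow]; norm_num
      have h4 : (0:ℝ) < 2 ^ n := by positivity
      have h5 : 1 - x ≤ (1 / 2 : ℝ) ^ n := by
        by_contra hc
        push Not at hc
        nlinarith
      have : (0:ℝ) < (1 / 2) ^ n := by positivity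
      linarith
    refine le_trans ?_ (ENNReal.le_tsum n)
    rw [Set.indicator_of_mem h2]
    apply ENNReal.ofReal_le_ofReal
    rw [Real.rpow_neg hy0.le, ← Real.inv_rpow hy0.le]
    have e1 : (2:ℝ) ^ a * (2 ^ a) ^ n = ((2:ℝ) ^ (n + 1)) ^ a := by
      rw [← Real.rpow_natCast ((2:ℝ) ^ a) n, ← Real.rpow_mul (by norm_num),
        ← Real.rpow_add (by norm_num), ← Real.rpow_natCast 2 (n + 1),
        ← Real.rpow_mul (by norm_num)]
      congr 1
      push_cast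
      ring
    rw [e1]
    apply Real.rpow_le_rpow (by positivity) _ ha0.le
    rw [inv_eq_one_div]
    exact hn2.le
  have hm : ∀ n : ℕ, Measurable ((Set.Ioo (1 - 2 * (1 / 2 : ℝ) ^ n) 1).indicator
        (fun _ : ℝ => ENNReal.ofReal (2 ^ a * (2 ^ a) ^ n))) :=
    fun n => measurable_const.indicator measurableSet_Ioo
  refine lt_of_le_of_lt (lintegral_mono_ae h1) ?_
  rw [lintegral_tsum (fun n => (hm n).aemeasurable)]
  simp_rw [lintegral_indicator_const measurableSet_Ioo]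
  have h6 : ∀ n : ℕ, ENNReal.ofReal (2 ^ a * (2 ^ a) ^ n) * μ (Set.Ioo (1 - 2 * (1 / 2 : ℝ) ^ n) 1) ≤
      ENNReal.ofReal (2 ^ a * (C * 2 ^ a') * (2 ^ (a - a')) ^ n) := by
    intro n
    have h7 : μ (Set.Ioo (1 - 2 * (1 / 2 : ℝ) ^ n) 1) ≤
        ENNReal.ofReal (C * (2 * (1 / 2 : ℝ) ^ n) ^ a') := by
      rw [← ENNReal.ofReal_toReal (measure_ne_top μ (Set.Ioo (1 - 2 * (1 / 2 : ℝ) ^ n) 1))]
      apply ENNReal.ofReal_le_ofReal
      exact hCε _ (by positivity)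
    refine (mul_le_mul_right h7 _).trans ?_
    rw [← ENNReal.ofReal_mul (by positivity)]
    apply ENNReal.ofReal_le_ofReal
    rw [Real.mul_rpow (by norm_num) (by positivity)]
    have e2 : ((1 / 2 : ℝ) ^ n) ^ a' = ((2:ℝ) ^ (-a')) ^ n := by
      rw [← Real.rpow_natCast ((2:ℝ) ^ (-a')) n, ← Real.rpow_mul (by norm_num),
        ← Real.rpow_natCast (1 / 2 : ℝ) n, ← Real.rpow_mul (by norm_num), one_div,
        Real.inv_rpow (by norm_num), ← Real.rpow_neg (by norm_num)]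
      congr 1; ring
    have e3 : ((2:ℝ) ^ (a - a')) ^ n = (2 ^ a) ^ n * (2 ^ (-a')) ^ n := by
      rw [← mul_pow, ← Real.rpow_add (by norm_num)]
      congr 2
    rw [e2, e3]
    apply le_of_eq
    ring
  refine lt_of_le_of_lt (ENNReal.tsum_le_tsum h6) ?_
  have hr1 : (2:ℝ) ^ (a - a') < 1 :=
    Real.rpow_lt_one_of_one_lt_of_neg (by norm_num) (by rw [ha']; linarith)
  have hs : Summable (fun n : ℕ => 2 ^ a * (C * 2 ^ a') * ((2:ℝ) ^ (a - a')) ^ n) :=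
    (summable_geometric_of_lt_one (by positivity) hr1).mul_left _
  exact lt_of_le_of_ne le_top hs.tsum_ofReal_ne_top

/-- the condensation condition in the form used for the first moment -/
lemma condensation (hμ : ∀ᵐ x ∂μ, 0 < x ∧ x < 1) (β γ : ℝ) (hβ : 0 < β) (hγ : 0 < γ)
    (hc : ∫⁻ x, ENNReal.ofReal (1 / (1 - x)) ∂μ < ENNReal.ofReal ((β + γ) / β)) :
    ∫⁻ x, ENNReal.ofReal (x / (1 - x)) ∂μ < ENNReal.ofReal (γ / β) := by
  have h1 : ∫⁻ x, ENNReal.ofReal (1 / (1 - x)) ∂μ = 1 + ∫⁻ x, ENNReal.ofReal (x / (1 - x)) ∂μ := by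
    have h2 : (1:ℝ≥0∞) = ∫⁻ _, 1 ∂μ := by rw [lintegral_const, measure_univ, mul_one]
    conv_rhs => rw [h2]
    rw [← lintegral_add_left measurable_const]
    apply lintegral_congr_ae
    filter_upwards [hμ] with x hx
    have hx1 : 0 < 1 - x := by linarith [hx.2]
    rw [← ENNReal.ofReal_one, ← ENNReal.ofReal_add one_pos.le (div_nonneg hx.1.le hx1.le)]
    congr 1
    field_simp
    ring
  have h3 : ENNReal.ofReal ((β + γ) / β) = 1 + ENNReal.ofReal (γ / β) := by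
    rw [← ENNReal.ofReal_one, ← ENNReal.ofReal_add one_pos.le (by positivity)]
    congr 1
    field_simp
  rw [h1, h3] at hc
  exact (ENNReal.add_lt_add_iff_left ENNReal.one_ne_top).mp hc

end Pool.Agent.H95.RBP
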