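import Mathlib
import Pool.Agent.H95.RBP.LowerB
import Pool.Agent.H95.RBP.Tail

open MeasureTheory ProbabilityTheory Filter Topology
open scoped ENNReal

namespace Pool.Agent.H95.RBP

open Pool.Agent.H95

variable (μ : Measure ℝ) [IsProbabilityMeasure μ] (m : Measure (Bool × Bool))
  [IsProbabilityMeasure m]

lemma age_tendsto (k : ℕ) :
    Tendsto (fun s : ℝ => (fl μ m) {d | s < eventAge d k}) atTop (𝓝 0) := by
  have := isProb_fl μ m
  have h := tendsto_measure_iInter_atTop (μ := fl μ m)
    (s := fun s : ℝ => {d : FamilyData | s < eventAge d k})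
    (fun s => (measurableSet_lt measurable_const (measurable_eventAge k)).nullMeasurableSet)
    (fun s s' hss' d hd => lt_of_le_of_lt hss' hd)
    ⟨0, measure_ne_top _ _⟩
  have h2 : (⋂ s : ℝ, {d : FamilyData | s < eventAge d k}) = ∅ := by
    ext d
    simp only [Set.mem_iInter, Set.mem_ofPred_eq, Set.mem_empty_iff_false, iff_false, not_forall,
      not_lt]
    exact ⟨eventAge d k, le_rfl⟩
  rw [h2, measure_empty] at h
  exact h

/-- real asymptotics used for the lower bound -/
lemma asym (α γ e : ℝ) (hγ0 : 0 < γ) (hγ1 : γ ≤ 1) (he : 0 < e) (hα : 0 < α) :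
    ∀ᶠ t : ℝ in atTop, 1 < t ∧ 0 < t - e * Real.log t - (α + 3 * e) / γ * Real.log t ∧
      γ * t - (α + 4 * e) * Real.log t - γ ≤
        γ * (1 - 1 / t) * (t - e * Real.log t - (α + 3 * e) / γ * Real.log t) ∧
      γ / 2 * t ≤ γ * (1 - 1 / t) * (t - e * Real.log t - (α + 3 * e) / γ * Real.log t) ∧
      t + 1 ≤ Real.exp (γ * (1 - 1 / t) * (t - e * Real.log t - (α + 3 * e) / γ * Real.log t)) *
        t ^ (-(5 * e)) := by
  have hlog : Tendsto (fun t : ℝ => Real.log t / t) atTop (𝓝 0) := by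
    have := Real.isLittleO_log_id_atTop.tendsto_div_nhds_zero
    exact this
  have hinv : Tendsto (fun t : ℝ => 1 / t) atTop (𝓝 0) := by
    simpa using tendsto_inv_atTop_zero (𝕜 := ℝ)
  set c : ℝ := e + (α + 3 * e) / γ with hc
  have hc0 : 0 < c := by positivity
  have hcγ : γ * c ≤ α + 4 * e := by
    have : γ * c = γ * e + (α + 3 * e) := by rw [hc]; field_simp
    rw [this]
    nlinarith
  have h1 : ∀ᶠ t : ℝ in atTop, c * (Real.log t / t) < 1 / 8 := by
    have := (hlog.const_mul c)
    rw [mul_zero] at this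
    exact this.eventually_lt_const (by norm_num)
  have h2 : ∀ᶠ t : ℝ in atTop, (α + 4 * e) * (Real.log t / t) < γ / 8 := by
    have := (hlog.const_mul (α + 4 * e))
    rw [mul_zero] at this
    exact this.eventually_lt_const (by positivity)
  have h3 : ∀ᶠ t : ℝ in atTop, 1 / t < 1 / 8 := hinv.eventually_lt_const (by norm_num)
  have h4 : ∀ᶠ t : ℝ in atTop, (t + 1) * t ^ (5 * e) ≤ Real.exp (γ / 2 * t) := by
    have h5 := tendsto_rpow_mul_exp_neg_mul_atTop_nhds_zero (5 * e + 2) (γ / 2) (by positivity)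
    have h6 := h5.eventually_lt_const one_pos
    filter_upwards [h6, eventually_ge_atTop (2:ℝ)] with t h7 h8
    have h9 : 0 < t := by linarith
    have h10 : t ^ (5 * e + 2) = t ^ (5 * e) * t ^ 2 := by
      rw [Real.rpow_add h9]; norm_num
    rw [h10, neg_mul, Real.exp_neg, ← div_eq_mul_inv, div_lt_one (Real.exp_pos _)] at h7
    have h11 : 0 < t ^ (5 * e) := Real.rpow_pos_of_pos h9 _
    have h12 : t + 1 ≤ t ^ 2 := by nlinarith
    nlinarith
  filter_upwards [h1, h2, h3, h4, eventually_gt_atTop (1:ℝ)] with t a1 a2 a3 a4 a5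
  have ht : 0 < t := by linarith
  have hl : 0 < Real.log t := Real.log_pos a5
  have b1 : c * Real.log t < t / 8 := by
    rw [← mul_div_assoc, div_lt_iff₀ ht] at a1
    linarith
  have b2 : (α + 4 * e) * Real.log t < γ / 8 * t := by
    rw [← mul_div_assoc, div_lt_iff₀ ht] at a2
    linarith
  have e1 : t - e * Real.log t - (α + 3 * e) / γ * Real.log t = t - c * Real.log t := by
    rw [hc]; ring
  rw [e1]
  have b3 : 0 < t - c * Real.log t := by linarith
  have b4 : γ * t - (α + 4 * e) * Real.log t - γ ≤ γ * (1 - 1 / t) * (t - c * Real.log t) := by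
    have h5 : 1 / t * (t - c * Real.log t) ≤ 1 := by
      rw [one_div, inv_mul_le_iff₀ ht]
      have : 0 ≤ c * Real.log t := by positivity
      linarith
    have h6 : γ * c * Real.log t ≤ (α + 4 * e) * Real.log t :=
      mul_le_mul_of_nonneg_right hcγ hl.le
    calc γ * t - (α + 4 * e) * Real.log t - γ ≤ γ * t - γ * c * Real.log t - γ * 1 := by linarith
      _ ≤ γ * t - γ * c * Real.log t - γ * (1 / t * (t - c * Real.log t)) := by
          have := mul_le_mul_of_nonneg_left h5 hγ0.le
          linarith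
      _ = _ := by ring
  have b5 : γ / 2 * t ≤ γ * (1 - 1 / t) * (t - c * Real.log t) := by
    have h5 : (7:ℝ) / 8 ≤ 1 - 1 / t := by linarith
    have h6 : 7 / 8 * t ≤ t - c * Real.log t := by linarith
    calc γ / 2 * t ≤ γ * (7 / 8) * (7 / 8 * t) := by nlinarith
      _ ≤ γ * (1 - 1 / t) * (t - c * Real.log t) := by
          apply mul_le_mul _ h6 (by positivity)
          · apply mul_nonneg hγ0.le; linarith
          · exact mul_le_mul_of_nonneg_left h5 hγ0.le
  refine ⟨a5, b3, b4, b5, ?_⟩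
  have h7 : Real.exp (γ / 2 * t) ≤ Real.exp (γ * (1 - 1 / t) * (t - c * Real.log t)) :=
    Real.exp_le_exp.mpr b5
  rw [Real.rpow_neg ht.le, ← div_eq_mul_inv, le_div_iff₀ (Real.rpow_pos_of_pos ht _)]
  exact a4.trans h7

end Pool.Agent.H95.RBP
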