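import Mathlib
import Pool.Agent.H95.RBP.LowerC

open MeasureTheory ProbabilityTheory Filter Topology
open scoped ENNReal

namespace Pool.Agent.H95.RBP

open Pool.Agent.H95

variable (μ : Measure ℝ) [IsProbabilityMeasure μ] (m : Measure (Bool × Bool))
  [IsProbabilityMeasure m]

omit [IsProbabilityMeasure μ] in
lemma Ioi_eq_GT (hμ : ∀ᵐ x ∂μ, 0 < x ∧ x < 1) (ε : ℝ) :
    μ (Set.Ioi (1 - ε)) = μ (Set.Ioo (1 - ε) 1) := by
  apply measure_congr
  filter_upwards [hμ] with x hx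
  apply propext
  constructor
  · intro h; exact ⟨h, hx.2⟩
  · intro h; exact h.1

lemma floor_half {x : ℝ} (hx : 2 ≤ x) : x / 2 ≤ (⌊x⌋₊ : ℝ) := by
  have := Nat.lt_floor_add_one x
  linarith

/-- second term -/
lemma term2 (α γ e : ℝ) (hγ0 : 0 < γ) (he : 0 < e) (hα : 0 < α) :
    Tendsto (fun t : ℝ => Real.sqrt (4 * (⌊t ^ (α + e)⌋₊ : ℝ) + 5) *
      Real.exp (-(γ * ((α + 2 * e) / (α + 3 * e)) / 2 * ((α + 3 * e) / γ * Real.log t))))
      atTop (𝓝 0) := by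
  have hlim : Tendsto (fun t : ℝ => 3 * t ^ (-(e / 2))) atTop (𝓝 (3 * 0)) :=
    (tendsto_rpow_neg_atTop (by positivity)).const_mul 3
  rw [mul_zero] at hlim
  refine squeeze_zero' ?_ ?_ hlim
  · exact Filter.Eventually.of_forall (fun t => by positivity)
  · filter_upwards [eventually_ge_atTop (1:ℝ)] with t ht
    have ht0 : 0 < t := by linarith
    have h1 : (1:ℝ) ≤ t ^ (α + e) := Real.one_le_rpow ht (by linarith)
    have h2 : (⌊t ^ (α + e)⌋₊ : ℝ) ≤ t ^ (α + e) := Nat.floor_le (by positivity)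
    have h3 : Real.sqrt (4 * (⌊t ^ (α + e)⌋₊ : ℝ) + 5) ≤ 3 * t ^ ((α + e) / 2) := by
      apply Real.sqrt_le_iff.mpr
      refine ⟨by positivity, ?_⟩
      rw [mul_pow, ← Real.rpow_natCast (t ^ ((α + e) / 2)) 2, ← Real.rpow_mul ht0.le]
      have : (α + e) / 2 * ((2:ℕ):ℝ) = α + e := by push_cast; ring
      rw [this]
      linarith
    have h4 : Real.exp (-(γ * ((α + 2 * e) / (α + 3 * e)) / 2 * ((α + 3 * e) / γ * Real.log t))) =
        t ^ (-((α + 2 * e) / 2)) := by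
      rw [Real.rpow_def_of_pos ht0]
      congr 1
      have : α + 3 * e ≠ 0 := by positivity
      field_simp
    rw [h4]
    calc Real.sqrt (4 * (⌊t ^ (α + e)⌋₊ : ℝ) + 5) * t ^ (-((α + 2 * e) / 2))
        ≤ 3 * t ^ ((α + e) / 2) * t ^ (-((α + 2 * e) / 2)) :=
          mul_le_mul_of_nonneg_right h3 (by positivity)
      _ = 3 * t ^ (-(e / 2)) := by
          rw [mul_assoc, ← Real.rpow_add ht0]
          congr 2; ring

/-- third term -/
lemma term3 (α β e c ε0 : ℝ) (hβ0 : 0 < β) (hβ1 : β ≤ 1) (he : 0 < e) (hα : 0 < α) (hc : 0 < c)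
    (hε0 : 0 < ε0) (p : ℝ → ℝ) (hp0 : ∀ t, 0 ≤ p t) (hp1 : ∀ t, p t ≤ 1)
    (hp : ∀ t : ℝ, 0 < t → 1 / t ≤ ε0 → c * (1 / t) ^ (α + e / 2) ≤ p t) :
    Tendsto (fun t : ℝ => (1 - β * p t) ^ ⌊t ^ (α + e)⌋₊) atTop (𝓝 0) := by
  have hlim : Tendsto (fun t : ℝ => Real.exp (-(β * c / 2 * t ^ (e / 2)))) atTop (𝓝 0) := by
    apply Real.tendsto_exp_neg_atTop_nhds_zero.comp
    exact (tendsto_rpow_atTop (by positivity)).const_mul_atTop (by positivity)
  refine squeeze_zero' ?_ ?_ hlim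
  · apply Filter.Eventually.of_forall
    intro t
    apply pow_nonneg
    nlinarith [hp0 t, hp1 t]
  · have hinv : ∀ᶠ t : ℝ in atTop, 1 / t < ε0 := by
      have : Tendsto (fun t : ℝ => 1 / t) atTop (𝓝 0) := by
        simpa using tendsto_inv_atTop_zero (𝕜 := ℝ)
      exact this.eventually_lt_const hε0
    have h2 : ∀ᶠ t : ℝ in atTop, 2 ≤ t ^ (α + e) :=
      (tendsto_rpow_atTop (by positivity)).eventually_ge_atTop 2
    filter_upwards [hinv, h2, eventually_gt_atTop (0:ℝ)] with t a1 a2 ht0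
    have a3 := hp t ht0 a1.le
    have a4 := floor_half a2
    have hq : 0 ≤ 1 - β * p t := by nlinarith [hp0 t, hp1 t]
    have h5 : 1 - β * p t ≤ Real.exp (-(β * p t)) := by
      have := Real.add_one_le_exp (-(β * p t)); linarith
    have h6 : β * c / 2 * t ^ (e / 2) ≤ (⌊t ^ (α + e)⌋₊ : ℝ) * (β * p t) := by
      have e1 : t ^ (e / 2) = (1 / t) ^ (α + e / 2) * t ^ (α + e) := by
        rw [one_div, Real.inv_rpow ht0.le, ← Real.rpow_neg ht0.le, ← Real.rpow_add ht0]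
        congr 1; ring
      have hx : 0 < (1 / t) ^ (α + e / 2) := Real.rpow_pos_of_pos (by positivity) _
      have hx2 : 0 < t ^ (α + e) := Real.rpow_pos_of_pos ht0 _
      calc β * c / 2 * t ^ (e / 2) = (t ^ (α + e) / 2) * (β * (c * (1 / t) ^ (α + e / 2))) := by
            rw [e1]; ring
        _ ≤ (⌊t ^ (α + e)⌋₊ : ℝ) * (β * p t) := by
            apply mul_le_mul a4 _ (by positivity) (Nat.cast_nonneg _)
            exact mul_le_mul_of_nonneg_left a3 hβ0.le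
    calc (1 - β * p t) ^ ⌊t ^ (α + e)⌋₊ ≤ (Real.exp (-(β * p t))) ^ ⌊t ^ (α + e)⌋₊ :=
          pow_le_pow_left₀ hq h5 _
      _ = Real.exp (-((⌊t ^ (α + e)⌋₊ : ℝ) * (β * p t))) := by
          rw [← Real.exp_nat_mul]; congr 1; ring
      _ ≤ Real.exp (-(β * c / 2 * t ^ (e / 2))) := by
          apply Real.exp_le_exp.mpr; linarith

/-- fourth term -/
lemma term4 (α γ e C : ℝ) (hγ0 : 0 < γ) (hγ1 : γ ≤ 1) (he : 0 < e) (hα : 0 < α)
    (hC : 0 < C) (p : ℝ → ℝ) (hp0 : ∀ t, 0 ≤ p t)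
    (hp : ∀ t : ℝ, 0 < t → p t ≤ C * (1 / t) ^ (α - e)) :
    Tendsto (fun t : ℝ => (⌊t ^ (α + e)⌋₊ : ℝ) * (p t *
      (Real.sqrt (4 * (⌊Real.exp (γ * (1 - 1 / t) * (t - e * Real.log t -
          (α + 3 * e) / γ * Real.log t)) * t ^ (-(5 * e))⌋₊ : ℝ) + 5) *
        Real.exp (-(γ * (1 - 1 / t) / 2 * (t - e * Real.log t - (α + 3 * e) / γ * Real.log t))) +
       Real.exp (-(γ / 4 * (⌊Real.exp (γ * (1 - 1 / t) * (t - e * Real.log t -
          (α + 3 * e) / γ * Real.log t)) * t ^ (-(5 * e))⌋₊ : ℝ))))))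
      atTop (𝓝 0) := by
  have hlim1 : Tendsto (fun t : ℝ => 3 * C * t ^ (-(e / 2))) atTop (𝓝 (3 * C * 0)) :=
    (tendsto_rpow_neg_atTop (by positivity)).const_mul _
  have hlim2 : Tendsto (fun t : ℝ => C * (t ^ (2 * e) * Real.exp (-(γ / 4) * t))) atTop
      (𝓝 (C * 0)) :=
    (tendsto_rpow_mul_exp_neg_mul_atTop_nhds_zero (2 * e) (γ / 4) (by positivity)).const_mul _
  have hlim := hlim1.add hlim2
  rw [mul_zero, mul_zero, add_zero] at hlim
  refine squeeze_zero' ?_ ?_ hlim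
  · apply Filter.Eventually.of_forall
    intro t
    have := hp0 t
    positivity
  · filter_upwards [asym α γ e hγ0 hγ1 he hα] with t ht
    obtain ⟨ht1, ht2, ht3, ht4, ht5⟩ := ht
    set V := t - e * Real.log t - (α + 3 * e) / γ * Real.log t with hV
    set Y := Real.exp (γ * (1 - 1 / t) * V) * t ^ (-(5 * e)) with hY
    have ht0 : 0 < t := by linarith
    have hY2 : 2 ≤ Y := by linarith
    have hfl : (⌊Y⌋₊ : ℝ) ≤ Y := Nat.floor_le (by linarith)
    have hfl2 : t ≤ (⌊Y⌋₊ : ℝ) := by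
      have := Nat.lt_floor_add_one Y
      linarith
    have hnle : (⌊t ^ (α + e)⌋₊ : ℝ) ≤ t ^ (α + e) := Nat.floor_le (by positivity)
    have hnp : (⌊t ^ (α + e)⌋₊ : ℝ) * p t ≤ C * t ^ (2 * e) := by
      have h1 := hp t ht0
      have e1 : (1 / t) ^ (α - e) = t ^ (-(α - e)) := by
        rw [one_div, Real.inv_rpow ht0.le, ← Real.rpow_neg ht0.le]
      rw [e1] at h1
      calc (⌊t ^ (α + e)⌋₊ : ℝ) * p t ≤ t ^ (α + e) * (C * t ^ (-(α - e))) :=
            mul_le_mul hnle h1 (hp0 t) (by positivity)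
        _ = C * (t ^ (α + e) * t ^ (-(α - e))) := by ring
        _ = C * t ^ (2 * e) := by
            rw [← Real.rpow_add ht0]; congr 2; ring
    have hA1 : Real.sqrt (4 * (⌊Y⌋₊ : ℝ) + 5) * Real.exp (-(γ * (1 - 1 / t) / 2 * V)) ≤
        3 * t ^ (-(5 * e / 2)) := by
      have h1 : Real.sqrt (4 * (⌊Y⌋₊ : ℝ) + 5) ≤
          3 * (Real.exp (γ * (1 - 1 / t) / 2 * V) * t ^ (-(5 * e / 2))) := by
        apply Real.sqrt_le_iff.mpr
        refine ⟨by positivity, ?_⟩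
        have e2 : (Real.exp (γ * (1 - 1 / t) / 2 * V) * t ^ (-(5 * e / 2))) ^ 2 = Y := by
          rw [mul_pow, ← Real.exp_nat_mul, ← Real.rpow_natCast (t ^ (-(5 * e / 2))) 2,
            ← Real.rpow_mul ht0.le, hY]
          congr 2
          · push_cast; ring
          · push_cast; ring
        rw [mul_pow, e2]
        linarith
      calc _ ≤ 3 * (Real.exp (γ * (1 - 1 / t) / 2 * V) * t ^ (-(5 * e / 2))) *
            Real.exp (-(γ * (1 - 1 / t) / 2 * V)) :=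
            mul_le_mul_of_nonneg_right h1 (Real.exp_pos _).le
        _ = 3 * t ^ (-(5 * e / 2)) * (Real.exp (γ * (1 - 1 / t) / 2 * V) *
            Real.exp (-(γ * (1 - 1 / t) / 2 * V))) := by ring
        _ = 3 * t ^ (-(5 * e / 2)) := by
            rw [← Real.exp_add, add_neg_cancel, Real.exp_zero, mul_one]
    have hA2 : Real.exp (-(γ / 4 * (⌊Y⌋₊ : ℝ))) ≤ Real.exp (-(γ / 4) * t) := by
      apply Real.exp_le_exp.mpr
      have : γ / 4 * t ≤ γ / 4 * (⌊Y⌋₊ : ℝ) := mul_le_mul_of_nonneg_left hfl2 (by positivity)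
      linarith
    calc (⌊t ^ (α + e)⌋₊ : ℝ) * (p t * (Real.sqrt (4 * (⌊Y⌋₊ : ℝ) + 5) *
          Real.exp (-(γ * (1 - 1 / t) / 2 * V)) + Real.exp (-(γ / 4 * (⌊Y⌋₊ : ℝ)))))
        = ((⌊t ^ (α + e)⌋₊ : ℝ) * p t) * (Real.sqrt (4 * (⌊Y⌋₊ : ℝ) + 5) *
          Real.exp (-(γ * (1 - 1 / t) / 2 * V)) + Real.exp (-(γ / 4 * (⌊Y⌋₊ : ℝ)))) := by ring
      _ ≤ (C * t ^ (2 * e)) * (3 * t ^ (-(5 * e / 2)) + Real.exp (-(γ / 4) * t)) := by
          apply mul_le_mul hnp (add_le_add hA1 hA2) (by positivity) (by positivity)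
      _ = 3 * C * (t ^ (2 * e) * t ^ (-(5 * e / 2))) +
          C * (t ^ (2 * e) * Real.exp (-(γ / 4) * t)) := by ring
      _ = 3 * C * t ^ (-(e / 2)) + C * (t ^ (2 * e) * Real.exp (-(γ / 4) * t)) := by
          rw [← Real.rpow_add ht0]
          congr 3; ring

/-- the lower bound in probability -/
theorem lower (hμ : ∀ᵐ x ∂μ, 0 < x ∧ x < 1) (β γ : ℝ) (hβ0 : 0 < β) (hβ1 : β ≤ 1)
    (hγ0 : 0 < γ) (hγ1 : γ ≤ 1)
    (hm : ∀ g : Bool → ℝ≥0∞, ∫⁻ p, g p.2 ∂m =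
      ENNReal.ofReal γ * g true + ENNReal.ofReal (1 - γ) * g false)
    (hm1 : ∀ g : Bool → ℝ≥0∞, ∫⁻ p, g p.1 ∂m =
      ENNReal.ofReal β * g true + ENNReal.ofReal (1 - β) * g false)
    (α : ℝ) (hα : 1 < α) (ℓ : ℝ → ℝ) (hℓ : SlowlyVaryingAtZero ℓ)
    (hRV : ∀ᶠ ε in 𝓝[>] (0:ℝ), GT μ ε = ε ^ α * ℓ ε) (ε : ℝ) (hε : 0 < ε) :
    Tendsto (fun t : ℝ => (pl μ m)
      {ω | population ω t < ENNReal.ofReal (Real.exp (γ * t) * t ^ (-α - ε))}) atTop (𝓝 0) := by
  set e : ℝ := min ε 1 / 10 with he_def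
  have he : 0 < e := by
    rw [he_def]
    have : 0 < min ε 1 := lt_min hε one_pos
    positivity
  have he1 : 10 * e ≤ ε := by
    rw [he_def]
    have := min_le_left ε 1
    linarith
  have he2 : e ≤ 1 / 10 := by
    rw [he_def]
    have := min_le_right ε 1
    linarith
  have hα0 : 0 < α := by linarith
  obtain ⟨C, hC, hCε⟩ := tail_upper μ α ℓ hℓ hRV (α - e) (by linarith) (by linarith)
  obtain ⟨c, ε0, hc, hε0, hcε⟩ := tail_lower μ α ℓ hℓ hRV (α + e / 2) (by linarith) (by linarith)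
  set p : ℝ → ℝ := fun t => (μ (Set.Ioi (1 - 1 / t))).toReal with hp_def
  have hpGT : ∀ t, p t = GT μ (1 / t) := by
    intro t
    rw [hp_def]
    simp only
    rw [Ioi_eq_GT μ hμ]
    rfl
  have hp0 : ∀ t, 0 ≤ p t := fun t => ENNReal.toReal_nonneg
  have hp1 : ∀ t, p t ≤ 1 := fun t => by rw [hpGT]; exact GT_le_one μ _
  -- the first child
  set y : ℝ := (α + 2 * e) / (α + 3 * e) with hy
  have hy0 : 0 ≤ y := by positivity
  set δ : ℝ := e / (α + 3 * e) with hδ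
  have hδ0 : 0 < δ := by positivity
  have hyδ : y = 1 - δ := by
    rw [hy, hδ]
    have : α + 3 * e ≠ 0 := by positivity
    field_simp
    ring
  set py : ℝ := (μ (Set.Ioi y)).toReal with hpy
  have hpy0 : 0 < py := by
    rw [hpy, hyδ, Ioi_eq_GT μ hμ]
    have h1 : 0 < GT μ (min δ ε0) :=
      lt_of_lt_of_le (by positivity) (hcε (min δ ε0) (lt_min hδ0 hε0) (min_le_right _ _))
    exact lt_of_lt_of_le h1 (GT_mono μ (min_le_left _ _))
  have hpy1 : py ≤ 1 := by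
    rw [hpy, ← ENNReal.toReal_one]
    exact ENNReal.toReal_mono ENNReal.one_ne_top prob_le_one
  have hμ' : ∀ᵐ x ∂μ, 0 < x ∧ x ≤ 1 := hμ.mono (fun x hx => ⟨hx.1, hx.2.le⟩)
  rw [ENNReal.tendsto_nhds_zero]
  intro κ hκ
  -- choice of `K`
  obtain ⟨K, hK⟩ : ∃ K : ℕ, ENNReal.ofReal ((1 - β * py) ^ K) < κ := by
    have h1 : Tendsto (fun K : ℕ => (1 - β * py) ^ K) atTop (𝓝 0) := by
      apply tendsto_pow_atTop_nhds_zero_of_lt_one
      · nlinarith
      · nlinarith [mul_pos hβ0 hpy0]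
    have h2 := ENNReal.tendsto_ofReal h1
    rw [ENNReal.ofReal_zero] at h2
    exact (h2.eventually_lt_const hκ).exists
  -- the limit of the union bound
  have L0 : Tendsto (fun t : ℝ => ∑ k ∈ Finset.range K,
      (fl μ m) {d | e * Real.log t < eventAge d k}) atTop (𝓝 0) := by
    have h1 : Tendsto (fun t : ℝ => ∑ k ∈ Finset.range K,
      (fl μ m) {d | e * Real.log t < eventAge d k}) atTop (𝓝 (∑ k ∈ Finset.range K, 0)) := by
      apply tendsto_finsetSum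
      intro k _
      exact (age_tendsto μ m k).comp (Real.tendsto_log_atTop.const_mul_atTop he)
    simpa using h1
  have L2 : Tendsto (fun t : ℝ => (K:ℝ≥0∞) * ENNReal.ofReal (
      Real.sqrt (4 * (⌊t ^ (α + e)⌋₊ : ℝ) + 5) *
      Real.exp (-(γ * y / 2 * ((α + 3 * e) / γ * Real.log t))))) atTop (𝓝 0) := by
    have h1 := ENNReal.tendsto_ofReal (term2 α γ e hγ0 he hα0)
    have h2 := ENNReal.Tendsto.const_mul h1 (a := (K:ℝ≥0∞)) (Or.inr (ENNReal.natCast_ne_top K))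
    rw [ENNReal.ofReal_zero, mul_zero] at h2
    exact h2
  have L3 : Tendsto (fun t : ℝ => (K:ℝ≥0∞) * ENNReal.ofReal (
      (1 - β * p t) ^ ⌊t ^ (α + e)⌋₊)) atTop (𝓝 0) := by
    have h1 := ENNReal.tendsto_ofReal (term3 α β e c ε0 hβ0 hβ1 he hα0 hc hε0 p hp0 hp1 (by
      intro t ht0 ht1
      rw [hpGT]
      exact hcε (1 / t) (by positivity) ht1))
    have h2 := ENNReal.Tendsto.const_mul h1 (a := (K:ℝ≥0∞)) (Or.inr (ENNReal.natCast_ne_top K))
    rw [ENNReal.ofReal_zero, mul_zero] at h2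
    exact h2
  have L4 := ENNReal.tendsto_ofReal (term4 α γ e C hγ0 hγ1 he hα0 hC p hp0 (by
      intro t ht0
      rw [hpGT]
      exact hCε (1 / t) (by positivity)))
  have L4' := ENNReal.Tendsto.const_mul L4 (a := (K:ℝ≥0∞)) (Or.inr (ENNReal.natCast_ne_top K))
  rw [ENNReal.ofReal_zero, mul_zero] at L4'
  have Lsum := (((L0.add_const (ENNReal.ofReal ((1 - β * py) ^ K))).add L2).add L3).add L4'
  rw [zero_add, add_zero, add_zero, add_zero] at Lsum
  have hev := Lsum.eventually_lt_const hK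
  have hlarge : ∀ᶠ t : ℝ in atTop, 8 * Real.exp γ / γ ≤ t ^ e :=
    (tendsto_rpow_atTop he).eventually_ge_atTop _
  filter_upwards [hev, asym α γ e hγ0 hγ1 he hα0, hlarge] with t h1 h2 h3
  obtain ⟨ht1, ht2, ht3, ht4, ht5⟩ := h2
  have ht0 : 0 < t := by linarith
  have hlog : 0 < Real.log t := Real.log_pos ht1
  set V := t - e * Real.log t - (α + 3 * e) / γ * Real.log t with hV
  set Y := Real.exp (γ * (1 - 1 / t) * V) * t ^ (-(5 * e)) with hY
  have hY2 : 2 ≤ Y := by linarith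
  have hfl : Y / 2 ≤ (⌊Y⌋₊ : ℝ) := floor_half hY2
  -- comparison of the thresholds
  have hthr : Real.exp (γ * t) * t ^ (-α - ε) ≤ γ / 4 * (⌊Y⌋₊ : ℝ) := by
    have b1 : Real.exp (γ * t) * (t ^ (-(α + 4 * e)) * Real.exp (-γ)) ≤
        Real.exp (γ * (1 - 1 / t) * V) := by
      have e1 : Real.exp (γ * t) * (t ^ (-(α + 4 * e)) * Real.exp (-γ)) =
          Real.exp (γ * t - (α + 4 * e) * Real.log t - γ) := by
        rw [Real.rpow_def_of_pos ht0, ← Real.exp_add, ← Real.exp_add]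
        congr 1; ring
      rw [e1]
      exact Real.exp_le_exp.mpr ht3
    have b2 : t ^ (-α - ε) ≤ t ^ (-α - 10 * e) :=
      Real.rpow_le_rpow_of_exponent_le ht1.le (by linarith)
    have b3 : t ^ (-α - 10 * e) ≤ γ / 8 * (t ^ (-(α + 4 * e)) * Real.exp (-γ)) * t ^ (-(5 * e)) := by
      have e2 : t ^ (-(α + 4 * e)) = t ^ (-α - 10 * e) * t ^ (6 * e) := by
        rw [← Real.rpow_add ht0]; congr 1; ring
      have e3 : t ^ (6 * e) * t ^ (-(5 * e)) = t ^ e := by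
        rw [← Real.rpow_add ht0]; congr 1; ring
      have h4 : 1 ≤ γ / 8 * Real.exp (-γ) * t ^ e := by
        rw [Real.exp_neg]
        rw [div_le_iff₀ hγ0] at h3
        have hx := Real.exp_pos γ
        have : γ / 8 * (Real.exp γ)⁻¹ * t ^ e = (t ^ e * γ) / (8 * Real.exp γ) := by
          field_simp
        rw [this, le_div_iff₀ (by positivity), one_mul]
        exact h3
      have h5 : 0 < t ^ (-α - 10 * e) := Real.rpow_pos_of_pos ht0 _
      calc t ^ (-α - 10 * e) ≤ t ^ (-α - 10 * e) * (γ / 8 * Real.exp (-γ) * t ^ e) := by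
            nlinarith
        _ = t ^ (-α - 10 * e) * (γ / 8 * Real.exp (-γ) * (t ^ (6 * e) * t ^ (-(5 * e)))) := by
            rw [e3]
        _ = _ := by rw [e2]; ring
    have h5 : 0 < Real.exp (γ * t) := Real.exp_pos _
    have h6 : 0 < t ^ (-(5 * e)) := Real.rpow_pos_of_pos ht0 _
    calc Real.exp (γ * t) * t ^ (-α - ε) ≤ Real.exp (γ * t) *
          (γ / 8 * (t ^ (-(α + 4 * e)) * Real.exp (-γ)) * t ^ (-(5 * e))) :=
          mul_le_mul_of_nonneg_left (b2.trans b3) h5.le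
      _ = γ / 8 * ((Real.exp (γ * t) * (t ^ (-(α + 4 * e)) * Real.exp (-γ))) * t ^ (-(5 * e))) := by
          ring
      _ ≤ γ / 8 * (Real.exp (γ * (1 - 1 / t) * V) * t ^ (-(5 * e))) := by
          apply mul_le_mul_of_nonneg_left _ (by positivity)
          exact mul_le_mul_of_nonneg_right b1 h6.le
      _ = γ / 8 * Y := by rw [hY]
      _ ≤ γ / 4 * (⌊Y⌋₊ : ℝ) := by nlinarith
  have hz0 : 0 ≤ 1 - 1 / t := by
    have : 1 / t ≤ 1 := by
      rw [div_le_one ht0]; exact ht1.le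
    linarith
  have hbad := bad_prob μ m hμ' β γ hβ0.le hβ1 hγ0.le hγ1 hm hm1 t (e * Real.log t)
    ((α + 3 * e) / γ * Real.log t) y (1 - 1 / t) (by positivity) hy0 hz0 ht2.le K
    ⌊t ^ (α + e)⌋₊ ⌊Y⌋₊
  have hfin : (pl μ m) {ω | population ω t < ENNReal.ofReal (Real.exp (γ * t) * t ^ (-α - ε))} ≤
      (pl μ m) {ω | population ω t < ENNReal.ofReal (γ / 4 * (⌊Y⌋₊ : ℝ))} := by
    apply measure_mono
    intro ω hω
    exact lt_of_lt_of_le hω (ENNReal.ofReal_le_ofReal hthr)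
  refine hfin.trans (hbad.trans ?_)
  refine le_trans (le_of_eq ?_) h1.le
  congr 1
  congr 1
  -- the last term
  have hμp : μ (Set.Ioi (1 - 1 / t)) = ENNReal.ofReal (p t) := by
    rw [hp_def]
    simp only
    rw [ENNReal.ofReal_toReal (measure_ne_top μ _)]
  rw [hμp, ← ENNReal.ofReal_add (by positivity) (by positivity), ← ENNReal.ofReal_mul (hp0 t),
    ← ENNReal.ofReal_natCast ⌊t ^ (α + e)⌋₊, ← ENNReal.ofReal_mul (Nat.cast_nonneg _)]

end Pool.Agent.H95.RBP
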