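import Mathlib
import Pool.Agent.H95.RBP.Tree
import Pool.Agent.H95.RBP.Conv

open MeasureTheory ProbabilityTheory Filter Topology
open scoped ENNReal

namespace Pool.Agent.H95.RBP

open Pool.Agent.H95

lemma exp_neg_le_rpow (a : ℝ) (ha : 0 < a) :
    ∃ C : ℝ, 0 < C ∧ ∀ y : ℝ, 0 < y → Real.exp (-y) ≤ C * y ^ (-a) := by
  set n := ⌈a⌉₊ with hn
  refine ⟨1 + n.factorial, by positivity, ?_⟩
  intro y hy
  have hya : 0 < y ^ a := Real.rpow_pos_of_pos hy a
  have h1 : y ^ a ≤ (1 + n.factorial) * Real.exp y := by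
    have h2 : y ^ n ≤ n.factorial * Real.exp y := by
      have := Real.pow_div_factorial_le_exp y hy.le n
      rwa [div_le_iff₀ (by positivity), mul_comm] at this
    have h3 : 1 ≤ Real.exp y := Real.one_le_exp hy.le
    rcases le_total y 1 with h | h
    · have h4 : y ^ a ≤ 1 := Real.rpow_le_one hy.le h ha.le
      have h5 : 0 ≤ (n.factorial : ℝ) * Real.exp y := by positivity
      nlinarith
    · have h4 : y ^ a ≤ y ^ (n : ℝ) := Real.rpow_le_rpow_of_exponent_le h (Nat.le_ceil a)
      rw [Real.rpow_natCast] at h4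
      nlinarith [Real.exp_pos y]
  rw [Real.rpow_neg hy.le, ← div_eq_mul_inv, le_div_iff₀ hya, Real.exp_neg]
  rw [inv_mul_le_iff₀ (Real.exp_pos y)]
  linarith

variable (μ : Measure ℝ) [IsProbabilityMeasure μ]

/-- the kernel after removal of the exponential factor -/
noncomputable def kk (γ : ℝ) (μ : Measure ℝ) (s : ℝ) : ℝ≥0∞ :=
  ∫⁻ x, ENNReal.ofReal (x * Real.exp (-(γ * (1 - x) * s))) ∂μ

noncomputable def gg (γ : ℝ) (μ : Measure ℝ) (s : ℝ) : ℝ≥0∞ :=
  ∫⁻ x, ENNReal.ofReal (Real.exp (-(γ * (1 - x) * s))) ∂μ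

lemma measurable_kk (γ : ℝ) : Measurable (kk γ μ) := by
  unfold kk
  apply Measurable.lintegral_prod_right' (f := fun p : ℝ × ℝ =>
    ENNReal.ofReal (p.2 * Real.exp (-(γ * (1 - p.2) * p.1))))
  fun_prop

lemma measurable_kap (γ : ℝ) : Measurable (kap γ μ) := by
  unfold kap
  apply Measurable.lintegral_prod_right' (f := fun p : ℝ × ℝ =>
    ENNReal.ofReal (p.2 * Real.exp (γ * p.2 * p.1)))
  fun_prop

omit [IsProbabilityMeasure μ] in
lemma kap_eq (γ s : ℝ) : kap γ μ s = ENNReal.ofReal (Real.exp (γ * s)) * kk γ μ s := by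
  unfold kap kk
  rw [← lintegral_const_mul _ (by fun_prop)]
  apply lintegral_congr
  intro x
  rw [← ENNReal.ofReal_mul (Real.exp_pos _).le]
  congr 1
  have : Real.exp (γ * x * s) = Real.exp (γ * s) * Real.exp (-(γ * (1 - x) * s)) := by
    rw [← Real.exp_add]; congr 1; ring
  rw [this]; ring

omit [IsProbabilityMeasure μ] in
lemma zint_eq (γ s : ℝ) : ∫⁻ x, ENNReal.ofReal (Real.exp (γ * x * s)) ∂μ =
    ENNReal.ofReal (Real.exp (γ * s)) * gg γ μ s := by
  unfold gg
  rw [← lintegral_const_mul _ (by fun_prop)]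
  apply lintegral_congr
  intro x
  rw [← ENNReal.ofReal_mul (Real.exp_pos _).le]
  congr 1
  rw [← Real.exp_add]; congr 1; ring

lemma kk_integral (hμ : ∀ᵐ x ∂μ, 0 < x ∧ x < 1) (γ : ℝ) (hγ : 0 < γ) :
    ∫⁻ s in Set.Ioi (0:ℝ), kk γ μ s = ENNReal.ofReal (1 / γ) *
      ∫⁻ x, ENNReal.ofReal (x / (1 - x)) ∂μ := by
  unfold kk
  rw [lintegral_lintegral_swap]
  · rw [← lintegral_const_mul _ (by fun_prop)]
    apply lintegral_congr_ae
    filter_upwards [hμ] with x hx
    have hl : 0 < γ * (1 - x) := mul_pos hγ (by linarith [hx.2])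
    have h1 := lintegral_exp_density hl
    have h2 : ∀ s : ℝ, ENNReal.ofReal (x * Real.exp (-(γ * (1 - x) * s))) =
        ENNReal.ofReal x * ENNReal.ofReal (Real.exp (-(γ * (1 - x) * s))) := by
      intro s; rw [ENNReal.ofReal_mul hx.1.le]
    simp_rw [h2]
    rw [lintegral_const_mul _ (by fun_prop), h1, ← ENNReal.ofReal_mul hx.1.le,
      ← ENNReal.ofReal_mul (by positivity)]
    congr 1
    have : 1 - x ≠ 0 := by linarith [hx.2]
    field_simp
  · apply Measurable.aemeasurable
    unfold Function.uncurry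
    fun_prop

omit [IsProbabilityMeasure μ] in
/-- polynomial decay of the kernels -/
lemma kernel_decay (hμ : ∀ᵐ x ∂μ, 0 < x ∧ x < 1) (γ : ℝ) (hγ : 0 < γ) (a : ℝ) (ha : 0 < a)
    (hM : ∫⁻ x, ENNReal.ofReal ((1 - x) ^ (-a)) ∂μ < ⊤) :
    ∃ C : ℝ, 0 < C ∧ ∀ s : ℝ, 0 < s → gg γ μ s ≤ ENNReal.ofReal (C * s ^ (-a)) := by
  obtain ⟨C, hC, hCy⟩ := exp_neg_le_rpow a ha
  set M := (∫⁻ x, ENNReal.ofReal ((1 - x) ^ (-a)) ∂μ).toReal with hMdef
  have hM' : ∫⁻ x, ENNReal.ofReal ((1 - x) ^ (-a)) ∂μ = ENNReal.ofReal M := by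
    rw [hMdef, ENNReal.ofReal_toReal hM.ne]
  have hM0 : 0 ≤ M := ENNReal.toReal_nonneg
  refine ⟨C * γ ^ (-a) * (M + 1), by positivity, ?_⟩
  intro s hs
  have h1 : gg γ μ s ≤ ∫⁻ x, ENNReal.ofReal (C * γ ^ (-a) * s ^ (-a)) *
      ENNReal.ofReal ((1 - x) ^ (-a)) ∂μ := by
    unfold gg
    apply lintegral_mono_ae
    filter_upwards [hμ] with x hx
    have hx1 : 0 < 1 - x := by linarith [hx.2]
    rw [← ENNReal.ofReal_mul (by positivity)]
    apply ENNReal.ofReal_le_ofReal
    have h2 := hCy (γ * (1 - x) * s) (by positivity)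
    rw [Real.mul_rpow (by positivity) hs.le, Real.mul_rpow hγ.le hx1.le] at h2
    calc Real.exp (-(γ * (1 - x) * s)) ≤ C * (γ ^ (-a) * (1 - x) ^ (-a) * s ^ (-a)) := h2
      _ = _ := by ring
  refine h1.trans ?_
  rw [lintegral_const_mul _ (by fun_prop), hM', ← ENNReal.ofReal_mul (by positivity)]
  apply ENNReal.ofReal_le_ofReal
  have : 0 ≤ C * γ ^ (-a) * s ^ (-a) := by positivity
  nlinarith

/-- the supersolution -/
noncomputable def Phi (γ A η a : ℝ) (r : ℝ) : ℝ≥0∞ :=
  (Set.Ici (0:ℝ)).indicator (fun r => ENNReal.ofReal (A * Real.exp (γ * r) * (1 + η * r) ^ (-a))) r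

lemma measurable_Phi (γ A η a : ℝ) : Measurable (Phi γ A η a) := by
  unfold Phi
  exact Measurable.indicator (by fun_prop) measurableSet_Ici

theorem exists_supersolution (hμ : ∀ᵐ x ∂μ, 0 < x ∧ x < 1) (β γ : ℝ) (hβ : 0 < β) (hγ : 0 < γ)
    (hJ : ∫⁻ x, ENNReal.ofReal (x / (1 - x)) ∂μ < ENNReal.ofReal (γ / β)) (a : ℝ) (ha : 1 < a)
    (hM : ∫⁻ x, ENNReal.ofReal ((1 - x) ^ (-a)) ∂μ < ⊤) :
    ∃ A η : ℝ, 0 < A ∧ 0 < η ∧ ∀ r : ℝ,
      zb γ μ r + NN β γ μ (Phi γ A η a) r ≤ Phi γ A η a r := by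
  obtain ⟨C, hC, hCs⟩ := kernel_decay μ hμ γ hγ a (by linarith) hM
  have hkg : ∀ s : ℝ, kk γ μ s ≤ gg γ μ s := by
    intro s
    unfold kk gg
    apply lintegral_mono_ae
    filter_upwards [hμ] with x hx
    apply ENNReal.ofReal_le_ofReal
    have := Real.exp_pos (-(γ * (1 - x) * s))
    nlinarith [hx.1, hx.2]
  -- the total mass
  set q : ℝ := (ENNReal.ofReal β * ∫⁻ s in Set.Ioi (0:ℝ), kk γ μ s).toReal with hq
  have hlt : ENNReal.ofReal β * ∫⁻ s in Set.Ioi (0:ℝ), kk γ μ s < 1 := by
    rw [kk_integral μ hμ γ hγ, ← mul_assoc, ← ENNReal.ofReal_mul hβ.le]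
    have h1 : ENNReal.ofReal (β * (1 / γ)) * ∫⁻ x, ENNReal.ofReal (x / (1 - x)) ∂μ <
        ENNReal.ofReal (β * (1 / γ)) * ENNReal.ofReal (γ / β) := by
      rw [ENNReal.mul_lt_mul_iff_right]
      · exact hJ
      · have : 0 < β * (1 / γ) := by positivity
        exact (ENNReal.ofReal_pos.mpr this).ne'
      · exact ENNReal.ofReal_ne_top
    refine h1.trans_le (le_of_eq ?_)
    rw [← ENNReal.ofReal_mul (by positivity), ← ENNReal.ofReal_one]
    congr 1
    field_simp
  have hq0 : 0 ≤ q := ENNReal.toReal_nonneg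
  have hq1 : q < 1 := by
    rw [hq, ← ENNReal.toReal_one]
    exact ENNReal.toReal_strict_mono ENNReal.one_ne_top hlt
  have hint : ∫⁻ s in Set.Ioi (0:ℝ), ENNReal.ofReal β * kk γ μ s ≤ ENNReal.ofReal q := by
    rw [lintegral_const_mul _ (measurable_kk μ γ), hq, ENNReal.ofReal_toReal (hlt.trans
      ENNReal.one_lt_top).ne]
  obtain ⟨η, q2', hη0, hη1, hq2', hconv⟩ := conv_bound (f := fun s => ENNReal.ofReal β * kk γ μ s)
    ((measurable_kk μ γ).const_mul _) hq0 hq1 (C := β * C) (by positivity) ha hint (by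
      intro s hs
      have h1 := (hkg s).trans (hCs s hs)
      calc ENNReal.ofReal β * kk γ μ s ≤ ENNReal.ofReal β * ENNReal.ofReal (C * s ^ (-a)) :=
            mul_le_mul_right h1 _
        _ = ENNReal.ofReal (β * C * s ^ (-a)) := by
            rw [← ENNReal.ofReal_mul hβ.le, mul_assoc])
  set q2 : ℝ := max q2' 0 with hq2def
  have hq2 : q2 < 1 := max_lt hq2' one_pos
  have hq20 : 0 ≤ q2 := le_max_right _ _
  -- bound of `gg`
  set C' : ℝ := (1 + C) * 2 ^ a with hC'
  have hC'0 : 0 < C' := by positivity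
  have hgg : ∀ r : ℝ, 0 ≤ r → gg γ μ r ≤ ENNReal.ofReal (C' * (1 + η * r) ^ (-a)) := by
    intro r hr
    have hw : (1 + r) ^ (-a) ≤ (1 + η * r) ^ (-a) := by
      rw [Real.rpow_neg (by positivity), Real.rpow_neg (by positivity)]
      apply inv_anti₀ (by positivity)
      apply Real.rpow_le_rpow (by positivity) _ (by linarith)
      nlinarith
    have h3 : gg γ μ r ≤ ENNReal.ofReal (C' * (1 + r) ^ (-a)) := by
      rcases le_total r 1 with h | h
      · have h4 : gg γ μ r ≤ 1 := by
          unfold gg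
          calc ∫⁻ x, ENNReal.ofReal (Real.exp (-(γ * (1 - x) * r))) ∂μ ≤ ∫⁻ x, 1 ∂μ := by
                apply lintegral_mono_ae
                filter_upwards [hμ] with x hx
                rw [← ENNReal.ofReal_one]
                apply ENNReal.ofReal_le_ofReal
                rw [Real.exp_le_one_iff]
                have : 0 ≤ γ * (1 - x) * r := by
                  apply mul_nonneg (mul_nonneg hγ.le (by linarith [hx.2])) hr
                linarith
            _ = 1 := by rw [lintegral_const, measure_univ, mul_one]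
        refine h4.trans ?_
        rw [← ENNReal.ofReal_one]
        apply ENNReal.ofReal_le_ofReal
        rw [hC', mul_assoc, Real.rpow_neg (by positivity), ← div_eq_mul_inv, ← Real.div_rpow (by norm_num)
          (by positivity)]
        have h5 : 1 ≤ (2 / (1 + r)) ^ a := by
          apply Real.one_le_rpow _ (by linarith)
          rw [le_div_iff₀ (by positivity)]; linarith
        nlinarith
      · have hr0 : 0 < r := by linarith
        refine (hCs r hr0).trans (ENNReal.ofReal_le_ofReal ?_)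
        have h6 : r ^ (-a) ≤ 2 ^ a * (1 + r) ^ (-a) := by
          rw [Real.rpow_neg hr0.le, Real.rpow_neg (by positivity), ← div_eq_mul_inv,
            ← Real.div_rpow (by norm_num) (by positivity), ← Real.inv_rpow hr0.le]
          apply Real.rpow_le_rpow (by positivity) _ (by linarith)
          rw [inv_eq_one_div, div_le_div_iff₀ hr0 (by positivity)]
          linarith
        have h7 : 0 ≤ 2 ^ a * (1 + r) ^ (-a) := by positivity
        calc C * r ^ (-a) ≤ C * (2 ^ a * (1 + r) ^ (-a)) := mul_le_mul_of_nonneg_left h6 hC.le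
          _ ≤ (1 + C) * (2 ^ a * (1 + r) ^ (-a)) := by nlinarith
          _ = _ := by rw [hC']; ring
    refine h3.trans (ENNReal.ofReal_le_ofReal ?_)
    exact mul_le_mul_of_nonneg_left hw hC'0.le
  set A : ℝ := C' / (1 - q2) with hA
  have hA0 : 0 < A := div_pos hC'0 (by linarith)
  have hAeq : C' + A * q2 = A := by
    rw [hA]
    have : 1 - q2 ≠ 0 := by linarith
    field_simp
    ring
  refine ⟨A, η, hA0, hη0, ?_⟩
  intro r
  by_cases hr : 0 ≤ r
  · have hrm : r ∈ Set.Ici (0:ℝ) := hr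
    have e1 : zb γ μ r = ENNReal.ofReal (Real.exp (γ * r)) * gg γ μ r := by
      unfold zb
      rw [Set.indicator_of_mem hrm, zint_eq]
    have e2 : NN β γ μ (Phi γ A η a) r = ENNReal.ofReal (A * Real.exp (γ * r)) *
        ∫⁻ s in Set.Ioc 0 r, (ENNReal.ofReal β * kk γ μ s) *
          ENNReal.ofReal ((1 + η * (r - s)) ^ (-a)) := by
      unfold NN
      have hm : Measurable (fun s : ℝ => (ENNReal.ofReal β * kk γ μ s) *
          ENNReal.ofReal ((1 + η * (r - s)) ^ (-a))) :=
        ((measurable_kk μ γ).const_mul _).mul (by fun_prop)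
      have hm2 : Measurable (fun s : ℝ => Phi γ A η a (r - s) * kap γ μ s) := by
        apply Measurable.mul
        · exact (measurable_Phi γ A η a).comp (measurable_id.const_sub r)
        · exact measurable_kap μ γ
      rw [← lintegral_const_mul _ hm2, ← lintegral_const_mul _ hm,
        ← lintegral_indicator measurableSet_Ioi, ← lintegral_indicator measurableSet_Ioc]
      apply lintegral_congr
      intro s
      by_cases h1 : 0 < s
      · rw [Set.indicator_of_mem (show s ∈ Set.Ioi (0:ℝ) from h1)]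
        by_cases h2 : s ≤ r
        · rw [Set.indicator_of_mem (show s ∈ Set.Ioc 0 r from ⟨h1, h2⟩)]
          have h3 : r - s ∈ Set.Ici (0:ℝ) := sub_nonneg.mpr h2
          unfold Phi
          rw [Set.indicator_of_mem h3, kap_eq]
          have h4 : (0:ℝ) ≤ (1 + η * (r - s)) ^ (-a) := by
            apply Real.rpow_nonneg
            have : 0 ≤ η * (r - s) := mul_nonneg hη0.le h3
            linarith
          have h5 : A * Real.exp (γ * (r - s)) * (1 + η * (r - s)) ^ (-a) * Real.exp (γ * s) =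
              A * Real.exp (γ * r) * (1 + η * (r - s)) ^ (-a) := by
            have : Real.exp (γ * r) = Real.exp (γ * (r - s)) * Real.exp (γ * s) := by
              rw [← Real.exp_add]; congr 1; ring
            rw [this]; ring
          calc ENNReal.ofReal β * (ENNReal.ofReal (A * Real.exp (γ * (r - s)) *
                (1 + η * (r - s)) ^ (-a)) * (ENNReal.ofReal (Real.exp (γ * s)) * kk γ μ s))
              = ENNReal.ofReal β * kk γ μ s * (ENNReal.ofReal (A * Real.exp (γ * (r - s)) *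
                (1 + η * (r - s)) ^ (-a)) * ENNReal.ofReal (Real.exp (γ * s))) := by ring
            _ = ENNReal.ofReal β * kk γ μ s * (ENNReal.ofReal (A * Real.exp (γ * r)) *
                ENNReal.ofReal ((1 + η * (r - s)) ^ (-a))) := by
                rw [← ENNReal.ofReal_mul (by positivity), h5, ENNReal.ofReal_mul (by positivity)]
            _ = _ := by ring
        · rw [Set.indicator_of_notMem (show s ∉ Set.Ioc 0 r from fun hc => h2 hc.2)]
          have h3 : r - s ∉ Set.Ici (0:ℝ) := fun hc => h2 (sub_nonneg.mp hc)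
          unfold Phi
          rw [Set.indicator_of_notMem h3]
          simp
      · rw [Set.indicator_of_notMem (show s ∉ Set.Ioi (0:ℝ) from h1),
          Set.indicator_of_notMem (show s ∉ Set.Ioc 0 r from fun hc => h1 hc.1)]
    have h8 : ∫⁻ s in Set.Ioc 0 r, (ENNReal.ofReal β * kk γ μ s) *
          ENNReal.ofReal ((1 + η * (r - s)) ^ (-a)) ≤ ENNReal.ofReal (q2 * (1 + η * r) ^ (-a)) := by
      refine (hconv r hr).trans (ENNReal.ofReal_le_ofReal ?_)
      apply mul_le_mul_of_nonneg_right (le_max_left _ _)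
      positivity
    rw [e1, e2]
    calc ENNReal.ofReal (Real.exp (γ * r)) * gg γ μ r + ENNReal.ofReal (A * Real.exp (γ * r)) *
        ∫⁻ s in Set.Ioc 0 r, (ENNReal.ofReal β * kk γ μ s) *
          ENNReal.ofReal ((1 + η * (r - s)) ^ (-a))
        ≤ ENNReal.ofReal (Real.exp (γ * r)) * ENNReal.ofReal (C' * (1 + η * r) ^ (-a)) +
          ENNReal.ofReal (A * Real.exp (γ * r)) * ENNReal.ofReal (q2 * (1 + η * r) ^ (-a)) :=
          add_le_add (mul_le_mul_right (hgg r hr) _) (mul_le_mul_right h8 _)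
      _ = ENNReal.ofReal (Real.exp (γ * r) * (C' * (1 + η * r) ^ (-a)) +
          A * Real.exp (γ * r) * (q2 * (1 + η * r) ^ (-a))) := by
          rw [← ENNReal.ofReal_mul (by positivity), ← ENNReal.ofReal_mul (by positivity),
            ← ENNReal.ofReal_add (by positivity) (by positivity)]
      _ = Phi γ A η a r := by
          unfold Phi
          rw [Set.indicator_of_mem hrm]
          congr 1
          calc Real.exp (γ * r) * (C' * (1 + η * r) ^ (-a)) +
              A * Real.exp (γ * r) * (q2 * (1 + η * r) ^ (-a))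
              = (C' + A * q2) * Real.exp (γ * r) * (1 + η * r) ^ (-a) := by ring
            _ = _ := by rw [hAeq]
  · have hrm : r ∉ Set.Ici (0:ℝ) := hr
    have e1 : zb γ μ r = 0 := by
      unfold zb
      rw [Set.indicator_of_notMem hrm]
    have e2 : NN β γ μ (Phi γ A η a) r = 0 := by
      unfold NN
      have : ∫⁻ s in Set.Ioi (0:ℝ), Phi γ A η a (r - s) * kap γ μ s = 0 := by
        rw [← lintegral_indicator measurableSet_Ioi]
        have h1 : ∀ s : ℝ, (Set.Ioi (0:ℝ)).indicator (fun s => Phi γ A η a (r - s) * kap γ μ s) s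
            = 0 := by
          intro s
          by_cases h2 : 0 < s
          · rw [Set.indicator_of_mem (show s ∈ Set.Ioi (0:ℝ) from h2)]
            have h3 : r - s ∉ Set.Ici (0:ℝ) := by
              intro hc
              have h4 : 0 ≤ r - s := hc
              exact hr (by linarith)
            unfold Phi
            rw [Set.indicator_of_notMem h3, zero_mul]
          · rw [Set.indicator_of_notMem (show s ∉ Set.Ioi (0:ℝ) from h2)]
        simp_rw [h1, lintegral_zero]
      rw [this, mul_zero]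
    rw [e1, e2, add_zero]
    exact bot_le

end Pool.Agent.H95.RBP
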