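import Mathlib
import Pool.Agent.H95.RBP.Super
import Pool.Agent.H95.RBP.Tail

open MeasureTheory ProbabilityTheory Filter Topology
open scoped ENNReal

namespace Pool.Agent.H95.RBP

open Pool.Agent.H95

variable (μ : Measure ℝ) [IsProbabilityMeasure μ] (m : Measure (Bool × Bool))
  [IsProbabilityMeasure m]

lemma measurable_population (t : ℝ) :
    Measurable (fun ω : List ℕ → FamilyData => population ω t) := by
  unfold population
  exact Measurable.tsum (fun u => measurable_familySize u t)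

/-- the upper bound in probability -/
theorem upper (hμ : ∀ᵐ x ∂μ, 0 < x ∧ x < 1) (β γ : ℝ) (hβ0 : 0 < β)
    (hγ0 : 0 < γ) (hγ1 : γ ≤ 1)
    (hm : ∀ g : Bool → ℝ≥0∞, ∫⁻ p, g p.2 ∂m =
      ENNReal.ofReal γ * g true + ENNReal.ofReal (1 - γ) * g false)
    (hm1 : ∀ g : Bool → ℝ≥0∞, ∫⁻ p, g p.1 ∂m =
      ENNReal.ofReal β * g true + ENNReal.ofReal (1 - β) * g false)
    (hc : ∫⁻ x, ENNReal.ofReal (1 / (1 - x)) ∂μ < ENNReal.ofReal ((β + γ) / β))
    (α : ℝ) (hα : 1 < α) (ℓ : ℝ → ℝ) (hℓ : SlowlyVaryingAtZero ℓ)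
    (hRV : ∀ᶠ ε in 𝓝[>] (0:ℝ), GT μ ε = ε ^ α * ℓ ε) (ε : ℝ) (hε : 0 < ε) :
    Tendsto (fun t : ℝ => (pl μ m)
      {ω | ENNReal.ofReal (Real.exp (γ * t) * t ^ (-α + ε)) < population ω t}) atTop (𝓝 0) := by
  set a : ℝ := max ((1 + α) / 2) (α - ε / 2) with ha_def
  have ha1 : 1 < a := lt_of_lt_of_le (by linarith) (le_max_left _ _)
  have haα : a < α := max_lt (by linarith) (by linarith)
  have haε : α - ε / 2 ≤ a := le_max_right _ _
  have hμ' : ∀ᵐ x ∂μ, 0 < x ∧ x ≤ 1 := hμ.mono (fun x hx => ⟨hx.1, hx.2.le⟩)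
  obtain ⟨A, η, hA, hη, hsup⟩ := exists_supersolution μ hμ β γ hβ0 hγ0
    (condensation μ hμ β γ hβ0 hγ0 hc) a ha1 (moment_finite μ hμ α ℓ hℓ hRV a (by linarith) haα)
  have hm1' : ∫⁻ p, (if p.1 = true then (1:ℝ≥0∞) else 0) ∂m = ENNReal.ofReal β := by
    have := hm1 (fun b => if b = true then (1:ℝ≥0∞) else 0)
    simp only [if_true, Bool.false_eq_true, if_false, mul_one, mul_zero, add_zero] at this
    exact this
  have hmean : ∀ t : ℝ, ∫⁻ ω, population ω t ∂(pl μ m) ≤ Phi γ A η a t := fun t =>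
    mean_population_le μ m hμ' β γ hγ0.le hγ1 hm hm1' (measurable_Phi γ A η a) hsup t
  have hlim : Tendsto (fun t : ℝ => ENNReal.ofReal (A * η ^ (-a) * t ^ (-(ε / 2)))) atTop (𝓝 0) := by
    have h1 : Tendsto (fun t : ℝ => A * η ^ (-a) * t ^ (-(ε / 2))) atTop
        (𝓝 (A * η ^ (-a) * 0)) := (tendsto_rpow_neg_atTop (by positivity)).const_mul _
    rw [mul_zero] at h1
    have h2 := ENNReal.tendsto_ofReal h1
    rw [ENNReal.ofReal_zero] at h2
    exact h2
  refine tendsto_of_tendsto_of_tendsto_of_le_of_le' tendsto_const_nhds hlim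
    (Filter.Eventually.of_forall (fun t => bot_le)) ?_
  filter_upwards [eventually_ge_atTop (1:ℝ)] with t ht
  have ht0 : 0 < t := by linarith
  have hthr : 0 < Real.exp (γ * t) * t ^ (-α + ε) := by positivity
  have h1 : (pl μ m) {ω | ENNReal.ofReal (Real.exp (γ * t) * t ^ (-α + ε)) < population ω t} ≤
      (pl μ m) {ω | ENNReal.ofReal (Real.exp (γ * t) * t ^ (-α + ε)) ≤ population ω t} :=
    measure_mono (fun ω hω => by
      simp only [Set.mem_ofPred_eq] at hω ⊢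
      exact hω.le)
  have h2 := mul_meas_ge_le_lintegral (μ := pl μ m) (measurable_population t)
    (ENNReal.ofReal (Real.exp (γ * t) * t ^ (-α + ε)))
  have h3 := h2.trans (hmean t)
  have h4 : (pl μ m) {ω | ENNReal.ofReal (Real.exp (γ * t) * t ^ (-α + ε)) ≤ population ω t} ≤
      Phi γ A η a t / ENNReal.ofReal (Real.exp (γ * t) * t ^ (-α + ε)) := by
    rw [ENNReal.le_div_iff_mul_le (Or.inl (ENNReal.ofReal_pos.mpr hthr).ne')
      (Or.inl ENNReal.ofReal_ne_top), mul_comm]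
    exact h3
  refine h1.trans (h4.trans ?_)
  unfold Phi
  rw [Set.indicator_of_mem (show t ∈ Set.Ici (0:ℝ) from ht0.le),
    ← ENNReal.ofReal_div_of_pos hthr]
  apply ENNReal.ofReal_le_ofReal
  rw [div_le_iff₀ hthr]
  have h5 : (1 + η * t) ^ (-a) ≤ η ^ (-a) * t ^ (-a) := by
    rw [← Real.mul_rpow hη.le ht0.le, Real.rpow_neg (by positivity), Real.rpow_neg (by positivity)]
    apply inv_anti₀ (by positivity)
    apply Real.rpow_le_rpow (by positivity) (by linarith) (by linarith)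
  have h6 : t ^ (-a) ≤ t ^ (-(ε / 2)) * t ^ (-α + ε) := by
    rw [← Real.rpow_add ht0]
    apply Real.rpow_le_rpow_of_exponent_le ht
    linarith
  calc A * Real.exp (γ * t) * (1 + η * t) ^ (-a)
      ≤ A * Real.exp (γ * t) * (η ^ (-a) * t ^ (-a)) :=
        mul_le_mul_of_nonneg_left h5 (by positivity)
    _ ≤ A * Real.exp (γ * t) * (η ^ (-a) * (t ^ (-(ε / 2)) * t ^ (-α + ε))) := by
        apply mul_le_mul_of_nonneg_left _ (by positivity)
        exact mul_le_mul_of_nonneg_left h6 (by positivity)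
    _ = _ := by ring

end Pool.Agent.H95.RBP
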