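import Mathlib
import Pool.Agent.H95.RBP.UpperB
import Pool.Agent.H95.RBP.LowerD

open MeasureTheory ProbabilityTheory Filter Topology
open scoped ENNReal

namespace Pool.Agent.H95.RBP

open Pool.Agent.H95

section marks

variable {β γ : ℝ} (hβ1 : β ≤ 1) (hγ1 : γ ≤ 1) (hβγ : 1 ≤ β + γ)

include hβ1 hγ1 hβγ in
lemma isProb_markLaw : IsProbabilityMeasure (markLaw β γ) := by
  constructor
  unfold markLaw
  simp only [Measure.coe_add, Measure.coe_smul, Pi.add_apply, Pi.smul_apply, measure_univ,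
    smul_eq_mul, mul_one]
  rw [← ENNReal.ofReal_add (by linarith) (by linarith), ← ENNReal.ofReal_add (by linarith)
    (by linarith), ← ENNReal.ofReal_one]
  congr 1
  ring

lemma lintegral_markLaw (g : Bool × Bool → ℝ≥0∞) : ∫⁻ p, g p ∂(markLaw β γ) =
    ENNReal.ofReal (β + γ - 1) * g (true, true) + ENNReal.ofReal (1 - γ) * g (true, false) +
      ENNReal.ofReal (1 - β) * g (false, true) := by
  unfold markLaw
  rw [lintegral_add_measure, lintegral_add_measure, lintegral_smul_measure, lintegral_smul_measure,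
    lintegral_smul_measure, lintegral_dirac, lintegral_dirac, lintegral_dirac]
  rfl

include hβ1 hβγ in
lemma markLaw_add (g : Bool → ℝ≥0∞) : ∫⁻ p, g p.2 ∂(markLaw β γ) =
    ENNReal.ofReal γ * g true + ENNReal.ofReal (1 - γ) * g false := by
  rw [lintegral_markLaw]
  have h : ENNReal.ofReal γ = ENNReal.ofReal (β + γ - 1) + ENNReal.ofReal (1 - β) := by
    rw [← ENNReal.ofReal_add (by linarith) (by linarith)]
    congr 1; ring
  rw [h]
  ring

include hγ1 hβγ in
lemma markLaw_found (g : Bool → ℝ≥0∞) : ∫⁻ p, g p.1 ∂(markLaw β γ) =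
    ENNReal.ofReal β * g true + ENNReal.ofReal (1 - β) * g false := by
  rw [lintegral_markLaw]
  have h : ENNReal.ofReal β = ENNReal.ofReal (β + γ - 1) + ENNReal.ofReal (1 - γ) := by
    rw [← ENNReal.ofReal_add (by linarith) (by linarith)]
    congr 1; ring
  rw [h]
  ring

end marks

/-- Growth of the population in the condensation case, in probability. -/
theorem growth (μ : Measure ℝ) [IsProbabilityMeasure μ] (hsupp : μ (Set.Ioc 0 1)ᶜ = 0)
    (hatom : μ {1} = 0) (β γ : ℝ) (hβ0 : 0 < β) (hβ1 : β ≤ 1) (hγ0 : 0 < γ) (hγ1 : γ ≤ 1)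
    (hβγ : 1 ≤ β + γ)
    (hc : ∫⁻ x, ENNReal.ofReal (1 / (1 - x)) ∂μ < ENNReal.ofReal ((β + γ) / β))
    (α : ℝ) (hα : 1 < α) (ℓ : ℝ → ℝ) (hℓ : SlowlyVaryingAtZero ℓ)
    (hRV : ∀ᶠ ε in 𝓝[>] (0:ℝ), (μ (Set.Ioo (1 - ε) 1)).toReal = ε ^ α * ℓ ε)
    (ε : ℝ) (hε : 0 < ε) :
    Tendsto (fun t : ℝ => (processLaw μ β γ) {ω | ε * Real.log t <
      |Real.log (population ω t).toReal - γ * t + α * Real.log t|}) atTop (𝓝 0) := by
  have hm := isProb_markLaw hβ1 hγ1 hβγ
  have hμ : ∀ᵐ x ∂μ, 0 < x ∧ x < 1 := by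
    have h1 : ∀ᵐ x ∂μ, x ∈ Set.Ioc (0:ℝ) 1 := by
      rw [ae_iff]; exact hsupp
    have h2 : ∀ᵐ x ∂μ, x ≠ 1 := by
      rw [ae_iff]
      simpa using hatom
    filter_upwards [h1, h2] with x hx1 hx2
    exact ⟨hx1.1, lt_of_le_of_ne hx1.2 hx2⟩
  have hlow := lower μ (markLaw β γ) hμ β γ hβ0 hβ1 hγ0 hγ1 (markLaw_add hβ1 hβγ)
    (markLaw_found hγ1 hβγ) α hα ℓ hℓ hRV ε hε
  have hup := upper μ (markLaw β γ) hμ β γ hβ0 hγ0 hγ1 (markLaw_add hβ1 hβγ)
    (markLaw_found hγ1 hβγ) hc α hα ℓ hℓ hRV ε hε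
  have hsum := hlow.add hup
  rw [add_zero] at hsum
  refine tendsto_of_tendsto_of_tendsto_of_le_of_le' tendsto_const_nhds hsum
    (Filter.Eventually.of_forall (fun t => bot_le)) ?_
  filter_upwards [eventually_gt_atTop (1:ℝ)] with t ht
  have ht0 : 0 < t := by linarith
  have hlog : 0 < Real.log t := Real.log_pos ht
  refine le_trans (measure_mono ?_) (measure_union_le _ _)
  intro ω hω
  by_contra hcon
  simp only [Set.mem_union, Set.mem_ofPred_eq, not_or, not_lt] at hcon hω
  obtain ⟨h1, h2⟩ := hcon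
  have hfin : population ω t ≠ ⊤ := ne_top_of_le_ne_top ENNReal.ofReal_ne_top h2
  have hA : 0 < Real.exp (γ * t) * t ^ (-α - ε) := by positivity
  have hB : 0 < Real.exp (γ * t) * t ^ (-α + ε) := by positivity
  have h3 : Real.exp (γ * t) * t ^ (-α - ε) ≤ (population ω t).toReal :=
    (ENNReal.ofReal_le_iff_le_toReal hfin).mp h1
  have h4 : (population ω t).toReal ≤ Real.exp (γ * t) * t ^ (-α + ε) :=
    ENNReal.toReal_le_of_le_ofReal hB.le h2
  have hpos : 0 < (population ω t).toReal := lt_of_lt_of_le hA h3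
  have h5 := Real.log_le_log hA h3
  have h6 := Real.log_le_log hpos h4
  rw [Real.log_mul (Real.exp_pos _).ne' (by positivity), Real.log_exp, Real.log_rpow ht0] at h5 h6
  have h7 : |Real.log (population ω t).toReal - γ * t + α * Real.log t| ≤ ε * Real.log t := by
    rw [abs_le]
    constructor <;> nlinarith
  linarith

/-- The main theorem. -/
theorem main (μ : Measure ℝ) [IsProbabilityMeasure μ] (hsupp : μ (Set.Ioc 0 1)ᶜ = 0)
    (hatom : μ {1} = 0) (β γ : ℝ) (hβ0 : 0 < β) (hβ1 : β ≤ 1) (hγ0 : 0 < γ) (hγ1 : γ ≤ 1)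
    (hβγ : 1 ≤ β + γ)
    (hc : ∫⁻ x, ENNReal.ofReal (1 / (1 - x)) ∂μ < ENNReal.ofReal ((β + γ) / β))
    (α : ℝ) (hα : 1 < α) (ℓ : ℝ → ℝ) (hℓ : SlowlyVaryingAtZero ℓ)
    (hRV : ∀ᶠ ε in 𝓝[>] (0:ℝ), (μ (Set.Ioo (1 - ε) 1)).toReal = ε ^ α * ℓ ε) :
    TendstoInMeasure (processLaw μ β γ)
      (fun (t : ℝ) (ω : List ℕ → FamilyData) =>
        (Real.log (population ω t).toReal - γ * t + α * Real.log t) / Real.log t)
      atTop (fun _ => 0) ∧
    ∀ L : ℝ, (∀ᵐ ω ∂(processLaw μ β γ),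
      Tendsto (fun t : ℝ => Real.log (population ω t).toReal / t) atTop (𝓝 L)) → L = γ := by
  have hg := growth μ hsupp hatom β γ hβ0 hβ1 hγ0 hγ1 hβγ hc α hα ℓ hℓ hRV
  constructor
  · rw [tendstoInMeasure_iff_norm]
    intro ε hε
    refine tendsto_of_tendsto_of_tendsto_of_le_of_le' tendsto_const_nhds (hg (ε / 2) (by positivity))
      (Filter.Eventually.of_forall (fun t => bot_le)) ?_
    filter_upwards [eventually_gt_atTop (1:ℝ)] with t ht
    have hlog : 0 < Real.log t := Real.log_pos ht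
    apply measure_mono
    intro ω hω
    simp only [Set.mem_ofPred_eq, sub_zero, Real.norm_eq_abs, abs_div, abs_of_pos hlog] at hω ⊢
    rw [le_div_iff₀ hlog] at hω
    nlinarith
  · intro L hL
    have hm := isProb_markLaw hβ1 hγ1 hβγ
    have hfl := isProb_fl μ (markLaw β γ)
    have hP : IsProbabilityMeasure (processLaw μ β γ) := by
      change IsProbabilityMeasure (pl μ (markLaw β γ))
      infer_instance
    -- convergence in probability along the integers
    have hlogt : Tendsto (fun n : ℕ => Real.log (n:ℝ) / (n:ℝ)) atTop (𝓝 0) :=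
      Real.isLittleO_log_id_atTop.tendsto_div_nhds_zero.comp tendsto_natCast_atTop_atTop
    have hprob : TendstoInMeasure (processLaw μ β γ)
        (fun (n : ℕ) (ω : List ℕ → FamilyData) => Real.log (population ω n).toReal / (n:ℝ))
        atTop (fun _ => γ) := by
      rw [tendstoInMeasure_iff_norm]
      intro κ hκ
      have h1 := (hg 1 one_pos).comp (tendsto_natCast_atTop_atTop (R := ℝ))
      refine tendsto_of_tendsto_of_tendsto_of_le_of_le' tendsto_const_nhds h1
        (Filter.Eventually.of_forall (fun t => bot_le)) ?_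
      have h2 : ∀ᶠ n : ℕ in atTop, (1 + α) * (Real.log (n:ℝ) / (n:ℝ)) < κ := by
        have := hlogt.const_mul (1 + α)
        rw [mul_zero] at this
        exact this.eventually_lt_const hκ
      filter_upwards [h2, eventually_gt_atTop 1] with n h3 hn
      have hn1 : (1:ℝ) < n := by exact_mod_cast hn
      have hn0 : (0:ℝ) < n := by linarith
      have hlog : 0 < Real.log (n:ℝ) := Real.log_pos hn1
      apply measure_mono
      intro ω hω
      simp only [Set.mem_ofPred_eq, Real.norm_eq_abs] at hω ⊢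
      by_contra hcon
      push Not at hcon
      rw [one_mul, abs_le] at hcon
      rw [← mul_div_assoc, div_lt_iff₀ hn0] at h3
      have h4 : |Real.log (population ω n).toReal / (n:ℝ) - γ| < κ := by
        rw [abs_lt]
        constructor
        · rw [lt_sub_iff_add_lt, lt_div_iff₀ hn0]
          nlinarith [hcon.1, hcon.2]
        · rw [sub_lt_iff_lt_add, div_lt_iff₀ hn0]
          nlinarith [hcon.1, hcon.2]
      linarith
    obtain ⟨ns, hns, hae⟩ := hprob.exists_seq_tendsto_ae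
    obtain ⟨ω, h1, h2⟩ := (hae.and hL).exists
    have h3 : Tendsto (fun i : ℕ => Real.log (population ω (ns i : ℝ)).toReal / ((ns i : ℕ) : ℝ))
        atTop (𝓝 L) := h2.comp ((tendsto_natCast_atTop_atTop (R := ℝ)).comp hns.tendsto_atTop)
    exact tendsto_nhds_unique h3 h1

end Pool.Agent.H95.RBP
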